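import Pool.Agent.Lib.MP_107652_al.Bar.WgTD

/-!
# MP_107652_al, THEOREM R: assembly
-/

set_option autoImplicit false

namespace WGBar

open WGirth WGTwin WGOne WGEven

theorem tDRSymm {S T V : Type} [Fintype S] [Fintype T] [Fintype V] [DecidableEq V]
    {Γ : LGraph S} {Λ : LGraph T} {cΓ : S → V} {cΛ : T → V} {M N : V → V → ℤ}
    (h : TDR Γ Λ cΓ cΛ M N) : TDR Λ Γ cΛ cΓ N M :=
  ⟨h.cmΛ, h.cmΓ, tDsymm V (bar Γ cΓ) (bar Λ cΛ) M N h.td, h.qM, h.qN, h.chrN, h.chrM⟩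

/-- **Theorem R** from its parts. -/
theorem assm (h1 : TDREx) (h2 : StarStR) (h3 : WgTD) (h4 : BarIso) (S T V W : Type) [Fintype S]
    [Fintype T] (Γ : LGraph S) (Λ : LGraph T) (cΓ : S → V) (cΛ : T → W) (hΓ : CMap Γ cΓ)
    (hΛ : CMap Λ cΛ) (e : Artin Γ ≃* Artin Λ) : wgirth (bar Γ cΓ) = wgirth (bar Λ cΛ) := by
  obtain ⟨U, iF, iD, dΓ, dΛ, M, N, hT⟩ := h1 S T Γ Λ e
  have sM := h2 S T U Γ Λ dΓ dΛ M N hT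
  have sN := h2 T S U Λ Γ dΛ dΓ N M (tDRSymm hT)
  rw [hT.gr] at sN
  have h5 := h3 U (bar Γ dΓ) (bar Λ dΛ) M N (bar_even Γ dΓ) (bar_even Λ dΛ) hT.td sM sN
  rw [h4 S V U Γ cΓ dΓ hΓ hT.cmΓ, h5, h4 T U W Λ dΛ cΛ hT.cmΛ hΛ]

end WGBar
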