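import Pool.Agent.Lib.MP_107652_al.Bar.Spec

set_option autoImplicit false

open Finset

namespace WGBar

open WGirth WGTwin WGOne WGEven

/-- **BarHom**: the homomorphism from an Artin group to the Artin group of its component graph. -/
theorem barHom : BarHom := by
  intro S I _ Λ comp hc
  refine exists_homO Λ (fun s => gen (bar Λ comp) (comp s)) ?_
  intro s t hst
  show alt (Λ.label s(s, t)) (gen (bar Λ comp) (comp s)) (gen (bar Λ comp) (comp t)) =
    alt (Λ.label s(s, t)) (gen (bar Λ comp) (comp t)) (gen (bar Λ comp) (comp s))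
  by_cases h : comp s = comp t
  · rw [h]
  · have hadj : (bar Λ comp).graph.Adj (comp s) (comp t) := ⟨h, s, t, rfl, rfl, hst⟩
    have hev : Even (Λ.label s(s, t)) := by
      by_contra hodd
      exact h ((hc.iff s t).2 (SimpleGraph.Adj.reachable (G := oddGraph Λ) ⟨hst, hodd⟩))
    have hk : Λ.label s(s, t) = 2 * (Λ.label s(s, t) / 2) := by
      obtain ⟨k, hk⟩ := hev
      omega
    obtain ⟨c, hc'⟩ := bar_half_dvd Λ comp hst
    rw [hk, alt_two_mul, alt_two_mul, hc', pow_mul, pow_mul, gen_rel (bar_even Λ comp) hadj]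

end WGBar
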