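import Pool.Agent.Lib.MP_107652_al.Bar.Spec
import Pool.Agent.Lib.MP_107652_al.Twin.WgIso

/-!
# MP_107652_al, THEOREM R: the component graph does not depend on the names of the components
-/

set_option autoImplicit false

open Finset

namespace WGBar

open WGirth WGTwin WGOne WGEven

private theorem BarIso_pair {V W : Type} (π : V ≃ W) (a b c d : V) :
    s(π a, π b) = s(π c, π d) ↔ s(a, b) = s(c, d) := by
  rw [Sym2.eq_iff, Sym2.eq_iff]
  simp only [π.injective.eq_iff]

theorem barIso : BarIso := by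
  intro S V W _ Γ c c' hc hc'
  obtain ⟨π, hπ⟩ : ∃ π : V ≃ W, ∀ s, π (c s) = c' s := by
    have h1 : ∀ s, c' (Function.surjInv hc.surj (c s)) = c' s := by
      intro s
      rw [hc'.iff, ← hc.iff, Function.surjInv_eq hc.surj]
    refine ⟨Equiv.ofBijective (fun v => c' (Function.surjInv hc.surj v)) ⟨?_, ?_⟩, h1⟩
    · intro v w h
      simp only at h
      rw [hc'.iff, ← hc.iff, Function.surjInv_eq hc.surj, Function.surjInv_eq hc.surj] at h
      exact h
    · intro w
      obtain ⟨s, rfl⟩ := hc'.surj w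
      exact ⟨c s, h1 s⟩
  refine wgIso V W (bar Γ c) (bar Γ c') π ?_ ?_
  · intro a b
    rw [bar_adj, bar_adj]
    constructor
    · rintro ⟨h1, s, t, hs, ht, hst⟩
      refine ⟨fun h => h1 (π.injective h), s, t, ?_, ?_, hst⟩
      · rw [← hs, hπ]
      · rw [← ht, hπ]
    · rintro ⟨h1, s, t, hs, ht, hst⟩
      refine ⟨fun h => h1 (by rw [h]), s, t, ?_, ?_, hst⟩
      · exact π.injective (by rw [hπ, hs])
      · exact π.injective (by rw [hπ, ht])
  · intro a b _
    have h1 : eset Γ c' s(π a, π b) = eset Γ c s(a, b) := by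
      ext p
      rw [mem_eset, mem_eset, ← hπ, ← hπ, BarIso_pair]
    change 2 * (eset Γ c' s(π a, π b)).gcd (fun p => Γ.label s(p.1, p.2) / 2) =
      2 * (eset Γ c s(a, b)).gcd (fun p => Γ.label s(p.1, p.2) / 2)
    rw [h1]

end WGBar
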