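import Pool.Agent.Lib.MP_107652_al.One.SpecB
import Pool.Agent.Lib.MP_107652_al.Even.Spec

/-!
# MP_107652_al, THEOREM R (all Artin groups): the graph of the odd components. Definitions

`bar Λ comp`: the vertices are the odd components of `Λ`, two of them are adjacent if an edge joins them,
the label is the greatest common divisor of the (even) labels of all edges between them. Theorem R: if the
Artin groups of two finite labelled graphs are isomorphic, these component graphs have the same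
weighted girth.
-/

set_option autoImplicit false
set_option linter.unusedSectionVars false

open Finset

namespace WGBar

open WGirth WGTwin WGOne WGEven

/-! ## The component graph -/

section bar

variable {S I : Type} [Fintype S]

open Classical in
/-- the edges of `Λ` (as ordered pairs) between the two components of `e` -/
noncomputable def eset (Λ : LGraph S) (comp : S → I) (e : Sym2 I) : Finset (S × S) :=
  Finset.univ.filter (fun p => Λ.graph.Adj p.1 p.2 ∧ s(comp p.1, comp p.2) = e)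

theorem mem_eset {Λ : LGraph S} {comp : S → I} {e : Sym2 I} {p : S × S} :
    p ∈ eset Λ comp e ↔ Λ.graph.Adj p.1 p.2 ∧ s(comp p.1, comp p.2) = e := by
  unfold eset
  simp

/-- the component graph with the greatest common divisors of the labels -/
noncomputable def bar (Λ : LGraph S) (comp : S → I) : LGraph I where
  graph :=
    { Adj := fun i j => i ≠ j ∧ ∃ s t, comp s = i ∧ comp t = j ∧ Λ.graph.Adj s t
      symm := ⟨fun i j h => ⟨h.1.symm, by
        obtain ⟨s, t, h1, h2, h3⟩ := h.2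
        exact ⟨t, s, h2, h1, h3.symm⟩⟩⟩
      loopless := ⟨fun i h => h.1 rfl⟩ }
  label := fun e => 2 * (eset Λ comp e).gcd (fun p => Λ.label s(p.1, p.2) / 2)
  two_le := by
    intro e
    induction e using Sym2.ind with
    | _ i j =>
      intro h
      rw [SimpleGraph.mem_edgeSet] at h
      obtain ⟨_, s, t, hs, ht, hst⟩ := h
      have h1 : (s, t) ∈ eset Λ comp s(i, j) := mem_eset.mpr ⟨hst, by rw [hs, ht]⟩
      have h2 := Λ.two_le s(s, t) ((SimpleGraph.mem_edgeSet _).mpr hst)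
      have h3 : (eset Λ comp s(i, j)).gcd (fun p => Λ.label s(p.1, p.2) / 2) ≠ 0 := by
        intro h4
        rw [Finset.gcd_eq_zero_iff] at h4
        have h5 := h4 (s, t) h1
        simp only at h5
        omega
      omega

theorem bar_adj (Λ : LGraph S) (comp : S → I) (i j : I) : (bar Λ comp).graph.Adj i j ↔
    i ≠ j ∧ ∃ s t, comp s = i ∧ comp t = j ∧ Λ.graph.Adj s t := Iff.rfl

theorem bar_even (Λ : LGraph S) (comp : S → I) : IsEven (bar Λ comp) :=
  fun _ _ _ => even_two_mul _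

theorem bar_half (Λ : LGraph S) (comp : S → I) (i j : I) : half (bar Λ comp) i j =
    (eset Λ comp s(i, j)).gcd (fun p => Λ.label s(p.1, p.2) / 2) := by
  show 2 * (eset Λ comp s(i, j)).gcd (fun p => Λ.label s(p.1, p.2) / 2) / 2 = _
  omega

/-- the half label of the component graph divides the half labels of the edges -/
theorem bar_half_dvd (Λ : LGraph S) (comp : S → I) {s t : S} (hst : Λ.graph.Adj s t) :
    half (bar Λ comp) (comp s) (comp t) ∣ Λ.label s(s, t) / 2 := by
  rw [bar_half]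
  exact Finset.gcd_dvd (f := fun p : S × S => Λ.label s(p.1, p.2) / 2)
    (mem_eset.mpr ⟨hst, rfl⟩ : (s, t) ∈ eset Λ comp s(comp s, comp t))

/-- a number which divides the half labels of all edges between two components divides the half
label of the component graph -/
theorem dvd_bar_half (Λ : LGraph S) (comp : S → I) (i j : I) (n : ℕ)
    (h : ∀ s t, comp s = i → comp t = j → Λ.graph.Adj s t → n ∣ Λ.label s(s, t) / 2) :
    n ∣ half (bar Λ comp) i j := by
  rw [bar_half]
  refine Finset.dvd_gcd fun p hp => ?_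
  obtain ⟨h1, h2⟩ := mem_eset.mp hp
  rcases Sym2.eq_iff.mp h2 with ⟨h3, h4⟩ | ⟨h3, h4⟩
  · exact h _ _ h3 h4 h1
  · have h5 := h p.2 p.1 h4 h3 h1.symm
    rw [Sym2.eq_swap] at h5
    exact h5

/-- the same for integral multiples -/
theorem dvd_bar_mul (Λ : LGraph S) (comp : S → I) (i j : I) (n : ℕ) (c : ℤ)
    (h : ∀ s t, comp s = i → comp t = j → Λ.graph.Adj s t →
      (n : ℤ) ∣ ((Λ.label s(s, t) / 2 : ℕ) : ℤ) * c) :
    (n : ℤ) ∣ (half (bar Λ comp) i j : ℤ) * c := by
  have h1 : n ∣ (eset Λ comp s(i, j)).gcd (fun p => Λ.label s(p.1, p.2) / 2) * c.natAbs := by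
    have h2 : (eset Λ comp s(i, j)).gcd (fun p => Λ.label s(p.1, p.2) / 2) * c.natAbs =
        (eset Λ comp s(i, j)).gcd (fun p => Λ.label s(p.1, p.2) / 2 * c.natAbs) := by
      rw [Finset.gcd_mul_right, normalize_eq]
    rw [h2]
    refine Finset.dvd_gcd fun p hp => ?_
    obtain ⟨h3, h4⟩ := mem_eset.mp hp
    have h5 : (n : ℤ) ∣ ((Λ.label s(p.1, p.2) / 2 : ℕ) : ℤ) * c := by
      rcases Sym2.eq_iff.mp h4 with ⟨h5, h6⟩ | ⟨h5, h6⟩
      · exact h _ _ h5 h6 h3
      · have h7 := h p.2 p.1 h6 h5 h3.symm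
        rw [Sym2.eq_swap] at h7
        exact h7
    rw [← Int.natAbs_dvd_natAbs, Int.natAbs_natCast, Int.natAbs_mul, Int.natAbs_natCast] at h5
    exact h5
  rw [bar_half, ← Int.natAbs_dvd_natAbs, Int.natAbs_natCast, Int.natAbs_mul,
    Int.natAbs_natCast]
  exact h1

end bar

/-! ## The matrices of an isomorphism -/

/-- `M` is the matrix of `φ` with respect to the components: for every homomorphism `f` to a
commutative group with `f (gen t) = z (cΛ t)`, the value at `φ (gen s)` is `∏ i, z i ^ M i (cΓ s)`. -/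
def IsMat {S T V W : Type} [Fintype W] {Γ : LGraph S} {Λ : LGraph T} (cΓ : S → V) (cΛ : T → W)
    (φ : Artin Γ →* Artin Λ) (M : W → V → ℤ) : Prop :=
  ∀ (A : Type) [CommGroup A] (f : Artin Λ →* A) (z : W → A), (∀ t, f (gen Λ t) = z (cΛ t)) →
    ∀ s, f (φ (gen Γ s)) = ∏ i, z i ^ M i (cΓ s)

/-- The information obtained from star representations in characteristic `p` with a clique `T`. -/
def StarQ {V W : Type} [DecidableEq V] (Γ : LGraph V) (Λ : LGraph W) (N : V → W → ℤ) : Prop :=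
  ∀ p : ℕ, p.Prime → ∀ a b : V, Γ.graph.Adj a b → p ∣ half Γ a b →
  ∀ (S : Finset V) (T : Finset W) (M' : W → V → ℤ), a ∈ S → b ∈ S →
  (∀ s ∈ S, ∀ s' ∈ S, ∑ w ∈ T, N s' w * M' w s = if s' = s then 1 else 0) →
  (∀ v ∈ T, ∀ u ∈ T, v ≠ u → Λ.graph.Adj v u) → (∃ v ∈ T, N a v - N b v ≠ 0) →
  ∃ v ∈ T, ∃ u ∈ T, v ≠ u ∧ N a v - N b v ≠ 0 ∧
    (N a v - N b v) + (N a u - N b u) = 0 ∧ p ∣ half Λ v u

/-- the character `z ^ M`: `(z ^ M) v = ∏ i, z i ^ M i v` -/
def pz {V : Type} [Fintype V] (M : V → V → ℤ) (z : V → ℂˣ) : V → ℂˣ := fun v => ∏ i, z i ^ M i v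

/-- The data of an isomorphism: the odd components of both graphs are identified with the elements of
`V`; the matrices of the isomorphism and its inverse, triangular for domination; star representations;
equal dimensions of cocycles. -/
structure TDR {S T V : Type} [Fintype S] [Fintype T] [Fintype V] [DecidableEq V] (Γ : LGraph S)
    (Λ : LGraph T) (cΓ : S → V) (cΛ : T → V) (M N : V → V → ℤ) : Prop where
  cmΓ : CMap Γ cΓ
  cmΛ : CMap Λ cΛ
  td : TD (bar Γ cΓ) (bar Λ cΛ) M N
  qN : StarQ (bar Γ cΓ) (bar Λ cΛ) N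
  qM : StarQ (bar Λ cΛ) (bar Γ cΓ) M
  chrM : ∀ z : V → ℂˣ, Module.finrank ℂ (Sol Γ (fun s => pz M z (cΓ s))) =
    Module.finrank ℂ (Sol Λ (fun t => z (cΛ t)))
  chrN : ∀ z : V → ℂˣ, Module.finrank ℂ (Sol Λ (fun t => pz N z (cΛ t))) =
    Module.finrank ℂ (Sol Γ (fun s => z (cΓ s)))

/-- the graphs of the odd components agree -/
theorem TDR.gr {S T V : Type} [Fintype S] [Fintype T] [Fintype V] [DecidableEq V] {Γ : LGraph S}
    {Λ : LGraph T} {cΓ : S → V} {cΛ : T → V} {M N : V → V → ℤ} (h : TDR Γ Λ cΓ cΛ M N) :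
    (bar Λ cΛ).graph = (bar Γ cΓ).graph := by
  ext a b
  exact (h.td.adj a b).symm

/-! ## Functions on the vertices of a set of components -/

/-- A function `φ` on the vertices in the components with `Q` (the values outside do not matter), not
constant, such that `(1 - z) φ` is a cocycle: whenever it is not constant along an edge, the cyclotomic
factor of the relation of this edge vanishes. -/
structure PF {T V : Type} (Λ : LGraph T) (c : T → V) (z : V → ℂˣ) (Q : V → Prop) (φ : T → ℂ) :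
    Prop where
  ev : ∀ s t, Λ.graph.Adj s t → Q (c s) → Q (c t) → φ s ≠ φ t → Even (Λ.label s(s, t)) →
    ∑ i ∈ range (Λ.label s(s, t) / 2), ((z (c s) : ℂ) * z (c t)) ^ i = 0
  od : ∀ s t, Λ.graph.Adj s t → Q (c s) → Q (c t) → φ s ≠ φ t → ¬ Even (Λ.label s(s, t)) →
    ∑ i ∈ range (Λ.label s(s, t)), (-(z (c s) : ℂ)) ^ i = 0
  nc : ∃ s t, Q (c s) ∧ Q (c t) ∧ φ s ≠ φ t

/-- `v` is in the star of `x` -/
def St {V : Type} (G : SimpleGraph V) (x v : V) : Prop := v = x ∨ G.Adj x v

/-- the vertices of the star of `x` with `z v ≠ 1`, and the vertices of `Gen` -/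
def QQ {V : Type} (G : SimpleGraph V) (x : V) (z : V → ℂˣ) (Gen : Finset V) (v : V) : Prop :=
  (St G x v ∧ z v ≠ 1) ∨ v ∈ Gen

/-- the character `z` multiplied by the powers of the number `r` -/
def zr {V : Type} (z : V → ℂˣ) (r : ℂˣ) (α : V → ℤ) (v : V) : ℂˣ := z v * r ^ α v

/-- The situation of the localisation lemma: a clique vertex `x`, a star `S0 ∪ S1` near `x`, the vertices
outside of the star of `x` are divided into `Gen` and `Z`, a character `z` of `Λ` with generic values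
outside of the star, a vertex `w0` above `x` with exponent different from zero. -/
structure LD {S T V : Type} [Fintype S] [Fintype T] [Fintype V] [DecidableEq V] (Γ : LGraph S)
    (Λ : LGraph T) (cΓ : S → V) (cΛ : T → V) (M N : V → V → ℤ) (x : V) (S0 S1 : Finset V)
    (ε : V → ℤ) (Gen Z : Finset V) (q : Option V → ℝ) (r : ℂˣ) (z : V → ℂˣ) (w0 : V) : Prop where
  tdr : TDR Γ Λ cΓ cΛ M N
  sd : SD (bar Γ cΓ).graph (half (bar Λ cΛ)) x S0 S1 ε z
  cl : ∀ s ∈ S1, ∀ s' ∈ S1, s ≠ s' → (bar Γ cΓ).graph.Adj s s'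
  one : ∀ v, St (bar Γ cΓ).graph x v → v ∉ S0 ∪ S1 → z v = 1
  out : ∀ v, ¬ St (bar Γ cΓ).graph x v → ‖(z v : ℂ)‖ = q (some v)
  qpos : ∀ o, 0 < q o
  qind : ∀ (a : ℤ) (b : Option V → ℤ), (2 : ℝ) ^ a * ∏ o, (q o) ^ (b o) = 1 → a = 0 ∧ ∀ o, b o = 0
  rn : ‖(r : ℂ)‖ = q none
  dj : Disjoint Gen Z
  mem : ∀ w, w ∈ Gen ∪ Z ↔ ¬ St (bar Γ cΓ).graph x w
  sep : ∀ w ∈ Z, (∀ s ∈ S1, ¬ (bar Γ cΓ).graph.Adj w s) ∧ ∀ g ∈ Gen, ¬ (bar Γ cΓ).graph.Adj w g
  ind : ∀ P : V → Prop, (∀ g ∈ Gen, (∃ s ∈ S1, (bar Γ cΓ).graph.Adj g s) → P g) →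
    (∀ g ∈ Gen, ∀ g' ∈ Gen, (bar Γ cΓ).graph.Adj g g' → P g → P g') → ∀ g ∈ Gen, P g
  up : GDom (bar Γ cΓ).graph x w0
  ne : nS M S0 S1 ε w0 ≠ 0

end WGBar
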