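import Pool.Agent.Lib.MP_107652_al.Bar.Spec

set_option autoImplicit false

open Finset

namespace WGBar

open WGirth WGTwin WGOne WGEven

private theorem CaseTwoG_zr {V : Type} [DecidableEq V] (y : V → ℂˣ) (r : ℂˣ) (w0 v : V)
    (h : v ≠ w0) : zr y r (Pi.single w0 1) v = y v := by
  unfold zr
  rw [Pi.single_eq_of_ne h, zpow_zero, mul_one]

private theorem CaseTwoG_zr0 {V : Type} (y : V → ℂˣ) (r : ℂˣ) (v : V) :
    zr y r (0 : V → ℤ) v = y v := by
  unfold zr
  rw [Pi.zero_apply, zpow_zero, mul_one]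

theorem caseTwoG : NmG → CaseTwoG := by
  intro hN S T V _ _ _ _ Γ Λ cΓ cΛ M N x S0 S1 ε Gen Z q r z w0 hL φ ψ hPF h1 h2 h3
  obtain ⟨n1, _, _, n4, _⟩ := hN S T V Γ Λ cΓ cΛ M N x S0 S1 ε Gen Z q r z w0 hL (0 : V → ℤ)
  obtain ⟨m1, _⟩ := hN S T V Γ Λ cΓ cΛ M N x S0 S1 ε Gen Z q r z w0 hL (Pi.single w0 1)
  simp only [CaseTwoG_zr0, Pi.zero_apply, zpow_zero, mul_one] at n1 n4
  have hst : St (bar Γ cΓ).graph x w0 := up_adj hL.sd.clq hL.up
  have hy0 : ‖(pz M z w0 : ℂ)‖ ≠ 1 := by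
    intro h
    rw [n1 w0 hst] at h
    have h5 := hL.qind (nS M S0 S1 ε w0) (fun _ => 0) (by simpa using h)
    exact hL.ne h5.1
  have hy1 : ‖(zr (pz M z) r (Pi.single w0 1) w0 : ℂ)‖ ≠ 1 := by
    intro h
    rw [m1 w0 hst, Pi.single_eq_same] at h
    have h5 := hL.qind (nS M S0 S1 ε w0) (Pi.single none 1) (by
      rw [Finset.prod_eq_single (none : Option V)]
      · rw [Pi.single_eq_same]
        exact h
      · intro b _ hb
        rw [Pi.single_eq_of_ne hb, zpow_zero]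
      · intro hb
        exact absurd (Finset.mem_univ _) hb)
    have h6 := h5.2 none
    rw [Pi.single_eq_same] at h6
    exact one_ne_zero h6
  have hne0 : pz M z w0 ≠ 1 := by
    intro h
    apply hy0
    rw [h]
    simp
  have hne1 : zr (pz M z) r (Pi.single w0 1) w0 ≠ 1 := by
    intro h
    apply hy1
    rw [h]
    simp
  have hQ : ∀ v, QQ (bar Γ cΓ).graph x (zr (pz M z) r (Pi.single w0 1)) Gen v ↔
      QQ (bar Γ cΓ).graph x (pz M z) Gen v := by
    intro v
    unfold QQ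
    by_cases hv : v = w0
    · subst hv
      constructor
      · intro _
        exact Or.inl ⟨hst, hne0⟩
      · intro _
        exact Or.inl ⟨hst, hne1⟩
    · rw [CaseTwoG_zr _ _ _ _ hv]
  have claim : ∀ s t, Γ.graph.Adj s t → QQ (bar Γ cΓ).graph x (pz M z) Gen (cΓ s) →
      QQ (bar Γ cΓ).graph x (pz M z) Gen (cΓ t) → φ s ≠ φ t → cΓ s ≠ w0 := by
    intro s t hst' hs ht hφ hc
    have e1 : φ s = ψ w0 := by
      rw [← hc]
      exact h1 s hs (by rw [hc]; exact hy0)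
    by_cases hct : cΓ t = w0
    · have e2 : φ t = ψ w0 := by
        rw [← hct]
        exact h1 t ht (by rw [hct]; exact hy0)
      exact hφ (e1.trans e2.symm)
    · have e3 := h2 s t hst' hs ht (by rw [hc]; exact fun h => hct h.symm) hφ
      rw [hc] at e3
      by_cases hin : St (bar Γ cΓ).graph x (cΓ t)
      · have hn : ‖(pz M z (cΓ t) : ℂ)‖ ≠ 1 := by
          intro h
          rw [h, mul_one] at e3
          exact hy0 e3
        have hnS : nS M S0 S1 ε (cΓ t) ≠ 0 := by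
          intro h
          apply hn
          rw [n1 _ hin, h, zpow_zero]
        exact hφ (e1.trans ((h1 t ht hn).trans (h3 _ hin hnS)).symm)
      · exact n4 w0 (cΓ t) hst hin e3
  refine ⟨?_, ?_, ?_⟩
  · intro s t hst' hs ht hφ hev
    rw [hQ] at hs ht
    rw [CaseTwoG_zr _ _ _ _ (claim s t hst' hs ht hφ),
      CaseTwoG_zr _ _ _ _ (claim t s hst'.symm ht hs (Ne.symm hφ))]
    exact hPF.ev s t hst' hs ht hφ hev
  · intro s t hst' hs ht hφ hod
    rw [hQ] at hs ht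
    rw [CaseTwoG_zr _ _ _ _ (claim s t hst' hs ht hφ)]
    exact hPF.od s t hst' hs ht hφ hod
  · obtain ⟨s, t, hs, ht, hφ⟩ := hPF.nc
    exact ⟨s, t, (hQ _).mpr hs, (hQ _).mpr ht, hφ⟩

end WGBar
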