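import Pool.Agent.Lib.MP_107652_al.Bar.Spec
import Pool.Agent.Lib.MP_107652_al.One.CstEq

/-!
# MP_107652_al, THEOREM R: locally constant functions only depend on the component graph
-/

set_option autoImplicit false

open Finset

namespace WGBar

open WGirth WGTwin WGOne WGEven

theorem cstBar : CstBar := by
  intro S T V _ _ _ _ Γ Λ cΓ cΛ M N h P
  have h1 := cstEq V S (bar Γ cΓ) Γ cΓ h.cmΓ (fun v w => bar_adj Γ cΓ v w) P
  have h2 := cstEq V T (bar Γ cΓ) Λ cΛ h.cmΛ
    (fun v w => (h.td.adj v w).trans (bar_adj Λ cΛ v w)) P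
  exact h1.symm.trans h2

end WGBar
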