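import Pool.Agent.Lib.MP_107652_al.Bar.Spec

/-!
# MP_107652_al, THEOREM R, module DimA: comparison of dimensions, first use
-/

set_option autoImplicit false

open Finset

namespace WGBar

open WGirth WGTwin WGOne WGEven

theorem DimA_zr_zero {V : Type} (z : V → ℂˣ) (r : ℂˣ) : zr z r 0 = z := by
  funext v
  unfold zr
  rw [Pi.zero_apply, zpow_zero, mul_one]

theorem DimA_ne {u : ℂˣ} (h : ‖(u : ℂ)‖ ≠ 1) : u ≠ 1 := by
  intro h1
  apply h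
  rw [h1, Units.val_one, norm_one]

theorem dimA : StarPF → SolPF → ZSplit → YSplit → CstBar → NmL → NmG → DimA := by
  intro hStar hSol hZ hY hC hNL hNG S T V _ _ _ _ Γ Λ cΓ cΛ M N x S0 S1 ε Gen Z q r z w0 h
  have hz0 := DimA_zr_zero z r
  have hy0 := DimA_zr_zero (pz M z) r
  have hNL0 := hNL S T V Γ Λ cΓ cΛ M N x S0 S1 ε Gen Z q r z w0 h 0
  have hNG0 := hNG S T V Γ Λ cΓ cΛ M N x S0 S1 ε Gen Z q r z w0 h 0
  simp only [hz0] at hNL0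
  simp only [hy0] at hNG0
  have hGen : ∀ v ∈ Gen, ¬ St (bar Γ cΓ).graph x v := fun v hv =>
    (h.mem v).1 (Finset.mem_union_left _ hv)
  have hzQ : ∀ v, QQ (bar Γ cΓ).graph x z Gen v → z v ≠ 1 := by
    rintro v (hv | hv)
    · exact hv.2
    · exact DimA_ne (hNL0.2.2.2.1 v (hGen v hv))
  have hyQ : ∀ v, QQ (bar Γ cΓ).graph x (pz M z) Gen v → pz M z v ≠ 1 := by
    rintro v (hv | hv)
    · exact hv.2
    · exact DimA_ne (hNG0.2.1 v (hGen v hv))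
  have h2 := (hSol T V Λ cΛ h.tdr.cmΛ z _ hzQ).2
    (hStar S T V Γ Λ cΓ cΛ M N x S0 S1 ε Gen Z q r z w0 h)
  have hZ0 := hZ S T V Γ Λ cΓ cΛ M N x S0 S1 ε Gen Z q r z w0 h 0 (fun _ _ _ => rfl)
  have hY0 := hY S T V Γ Λ cΓ cΛ M N x S0 S1 ε Gen Z q r z w0 h 0 (fun _ _ => rfl)
  rw [hz0] at hZ0
  rw [hy0] at hY0
  have hchr := h.tdr.chrM z
  have hcst := hC S T V Γ Λ cΓ cΛ M N h.tdr (fun v => v ∈ Z)
  refine (hSol S V Γ cΓ h.tdr.cmΓ (pz M z) _ hyQ).1 ?_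
  rw [hZ0, hY0, hcst] at hchr
  exact (Nat.add_left_cancel hchr).symm ▸ h2

end WGBar
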