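import Pool.Agent.Lib.MP_107652_al.Bar.Spec

/-!
# MP_107652_al, THEOREM R, module DimB: comparison of dimensions, second use
-/

set_option autoImplicit false

open Finset

namespace WGBar

open WGirth WGTwin WGOne WGEven

private theorem DimB_ne {u : ℂˣ} (h : ‖(u : ℂ)‖ ≠ 1) : u ≠ 1 := by
  intro h1
  apply h
  rw [h1, Units.val_one, norm_one]

private theorem DimB_zr0 {V : Type} (y : V → ℂˣ) (r : ℂˣ) (v : V) :
    zr y r (0 : V → ℤ) v = y v := by
  unfold zr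
  rw [Pi.zero_apply, zpow_zero, mul_one]

private theorem DimB_sum {V : Type} [DecidableEq V] (r : ℂˣ) (f : V → ℤ) (s : Finset V) :
    ∏ i ∈ s, r ^ f i = r ^ ∑ i ∈ s, f i := by
  induction s using Finset.induction_on with
  | empty => rw [Finset.prod_empty, Finset.sum_empty, zpow_zero]
  | insert a s ha ih => rw [Finset.prod_insert ha, Finset.sum_insert ha, zpow_add, ih]

private theorem DimB_pz {V : Type} [Fintype V] [DecidableEq V] (M N : V → V → ℤ)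
    (hnm : ∀ v w, ∑ i, N v i * M i w = if v = w then 1 else 0) (z : V → ℂˣ) (r : ℂˣ) (w0 : V) :
    pz M (zr z r (N w0)) = zr (pz M z) r (Pi.single w0 1) := by
  funext w
  unfold pz zr
  have h1 : ∀ i, (z i * r ^ N w0 i) ^ M i w = z i ^ M i w * r ^ (N w0 i * M i w) := fun i => by
    rw [mul_zpow, zpow_mul]
  simp only [h1]
  rw [Finset.prod_mul_distrib, DimB_sum, hnm, Pi.single_apply]
  simp only [eq_comm]

theorem dimB : SolPF → ZSplit → YSplit → CstBar → NmL → NmG → DimB := by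
  intro hSol hZ hY hC hNL hNG S T V _ _ _ _ Γ Λ cΓ cΛ M N x S0 S1 ε Gen Z q r z w0 h hφ
  have hpz := DimB_pz M N h.tdr.td.pre.nm z r w0
  have hNLa := hNL S T V Γ Λ cΓ cΛ M N x S0 S1 ε Gen Z q r z w0 h (N w0)
  have hNGb := hNG S T V Γ Λ cΓ cΛ M N x S0 S1 ε Gen Z q r z w0 h (Pi.single w0 1)
  have hNG0 := hNG S T V Γ Λ cΓ cΛ M N x S0 S1 ε Gen Z q r z w0 h (0 : V → ℤ)
  simp only [DimB_zr0, Pi.zero_apply, zpow_zero, mul_one] at hNG0
  have hGen : ∀ v ∈ Gen, ¬ St (bar Γ cΓ).graph x v := fun v hv =>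
    (h.mem v).1 (Finset.mem_union_left _ hv)
  have hyQ : ∀ v, QQ (bar Γ cΓ).graph x (zr (pz M z) r (Pi.single w0 1)) Gen v →
      zr (pz M z) r (Pi.single w0 1) v ≠ 1 := by
    rintro v (hv | hv)
    · exact hv.2
    · exact DimB_ne (hNGb.2.1 v (hGen v hv))
  have hzQ : ∀ v, QQ (bar Γ cΓ).graph x (zr z r (N w0)) Gen v → zr z r (N w0) v ≠ 1 := by
    rintro v (hv | hv)
    · exact hv.2
    · exact DimB_ne (hNLa.2.2.2.1 v (hGen v hv))
  have hst : St (bar Γ cΓ).graph x w0 := up_adj h.sd.clq h.up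
  have hne : pz M z w0 ≠ 1 := by
    refine DimB_ne fun h1 => ?_
    rw [hNG0.1 w0 hst] at h1
    have h5 := h.qind (nS M S0 S1 ε w0) (fun _ => 0) (by simpa using h1)
    exact h.ne h5.1
  have h2 := (hSol S V Γ cΓ h.tdr.cmΓ (zr (pz M z) r (Pi.single w0 1)) _ hyQ).2 hφ
  have hZ0 := hZ S T V Γ Λ cΓ cΛ M N x S0 S1 ε Gen Z q r z w0 h (N w0) (by
    rintro v hv ⟨u, hu, hvu⟩
    by_contra hN
    have hu' : ¬ St (bar Γ cΓ).graph x u := (h.mem u).1 (Finset.mem_union_right _ hu)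
    rcases h.tdr.td.domN w0 v hN u hvu with h3 | h3
    · rw [h3] at hu'
      exact hu' hst
    · exact hne (hNG0.2.2.2.2 w0 hst ⟨u, hu, h3.symm⟩))
  have hY0 := hY S T V Γ Λ cΓ cΛ M N x S0 S1 ε Gen Z q r z w0 h (Pi.single w0 1)
    (fun v hv => Pi.single_eq_of_ne hv _)
  have hchr := h.tdr.chrM (zr z r (N w0))
  rw [hpz] at hchr
  have hcst := hC S T V Γ Λ cΓ cΛ M N h.tdr (fun v => v ∈ Z)
  refine (hSol T V Λ cΛ h.tdr.cmΛ (zr z r (N w0)) _ hzQ).1 ?_
  rw [hZ0, hY0, hcst] at hchr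
  exact Nat.add_left_cancel hchr ▸ h2

end WGBar
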