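import Pool.Agent.Lib.MP_107652_al.Bar.Spec
import Pool.Agent.Lib.MP_107652_al.One.SolSplit
import Pool.Agent.Lib.MP_107652_al.One.SolGen
import Pool.Agent.Lib.MP_107652_al.One.Kill
import Pool.Agent.Lib.MP_107652_al.One.NrmE

/-!
# MP_107652_al, THEOREM R, module DimSplit: the dimension of the space of cocycles is a sum
-/

set_option autoImplicit false

open Finset

namespace WGBar

open WGirth WGTwin WGOne WGEven

private theorem DimSplit_odd {T V : Type} {Λ : LGraph T} {c : T → V} (hc : CMap Λ c) {s t : T}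
    (h : Λ.graph.Adj s t) (ho : ¬ Even (Λ.label s(s, t))) : c s = c t :=
  (hc.iff s t).mpr (SimpleGraph.Adj.reachable (G := oddGraph Λ) ⟨h, ho⟩)

private theorem DimSplit_unit {w : ℂˣ} (h : ‖(w : ℂ)‖ ≠ 1) : w ≠ 1 := by
  rintro rfl
  exact h (by simp)

private theorem DimSplit_sq {a : ℝ} (h0 : 0 ≤ a) (h : a ≠ 1) : a * a ≠ 1 := by
  intro h1
  exact h (by nlinarith)

theorem dimSplit : DimSplit := by
  intro T V _ _ _ Λ c hc z x w0 Gen Z hdj hmem hsep hst hw0 hone hZ hZZ
  have hZst : ∀ v ∈ Z, ¬ St (bar Λ c).graph x v := fun v hv =>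
    (hmem v).mp (Finset.mem_union_right _ hv)
  have hQZ : ∀ v ∈ Z, ¬ QQ (bar Λ c).graph x z Gen v := by
    rintro v hv (⟨h1, -⟩ | h1)
    · exact hZst v hv h1
    · exact Finset.disjoint_left.mp hdj h1 hv
  have hout : ∀ v, v ∉ Z → ¬ QQ (bar Λ c).graph x z Gen v →
      St (bar Λ c).graph x v ∧ z v = 1 := by
    intro v h1 h2
    have h3 : v ∉ Gen := fun h => h2 (Or.inr h)
    have h4 : St (bar Λ c).graph x v := by
      by_contra h5
      rcases Finset.mem_union.mp ((hmem v).mpr h5) with h6 | h6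
      · exact h3 h6
      · exact h1 h6
    refine ⟨h4, ?_⟩
    by_contra h5
    exact h2 (Or.inl ⟨h4, h5⟩)
  have hsplit := solSplit T Λ (fun t => z (c t)) (fun t => c t ∈ Z)
    (fun t => QQ (bar Λ c).graph x z Gen (c t))
    (fun s h => hQZ _ h.1 h.2)
    (by
      intro s t hs ht hadj
      have hne : c s ≠ c t := by
        intro h
        have hs' : c t ∈ Z := by
          rw [← h]
          exact hs
        exact hQZ _ hs' ht
      have hG : (bar Λ c).graph.Adj (c s) (c t) := ⟨hne, s, t, rfl, rfl, hadj⟩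
      rcases ht with ⟨h1, h2⟩ | h1
      · exact h2 (hone _ h1 ⟨c s, hs, hG.symm⟩)
      · exact hsep _ hs _ h1 hG)
    (by
      intro s t h
      have h1 : c s = c t := DimSplit_odd hc h.1 h.2
      rw [h1]
      exact ⟨Iff.rfl, Iff.rfl⟩)
    (fun s h1 h2 => (hout _ h1 h2).2)
    (by
      intro b hb s h1 h2
      obtain ⟨h3, h4⟩ := hout _ h1 h2
      obtain ⟨k1, k2⟩ := kill nrmE T Λ (fun t => z (c t)) b hb
      have h5 : (bar Λ c).graph.Adj (c s) w0 := by
        rcases hst _ h3 with h5 | h5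
        · exfalso
          rw [h5] at h4
          exact DimSplit_unit hw0 h4
        · exact h5
      obtain ⟨h6, s', t', h7, h8, h9⟩ := h5
      have h10 : Even (Λ.label s(s', t')) := by
        by_contra h10
        have h11 := DimSplit_odd hc h9 h10
        rw [h7, h8] at h11
        exact h6 h11
      have h11 : b s' = 0 := by
        refine k1 s' t' h9 h10 ?_ ?_
        · show z (c s') = 1
          rw [h7]
          exact h4
        · show ‖(z (c t') : ℂ)‖ ≠ 1
          rw [h8]
          exact hw0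
      have h12 : b s = b s' := by
        refine k2 s s' ((hc.iff s s').mp h7.symm) ?_
        intro t ht
        show z (c t) = 1
        rw [← (hc.iff s t).mpr ht]
        exact h4
      rw [h12, h11])
  rw [hsplit]
  congr 1
  refine solGen nrmE {t // c t ∈ Z} (sub Λ (fun t => c t ∈ Z)) (fun s => z (c s.1)) ?_ ?_ ?_
  · intro s
    exact DimSplit_unit (hZ _ s.2)
  · intro s t h
    have h1 : c s.1 = c t.1 := DimSplit_odd hc h.1 h.2
    refine ⟨?_, hZ _ s.2⟩
    show z (c s.1) = z (c t.1)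
    rw [h1]
  · intro s t h _
    show ‖(z (c s.1) : ℂ)‖ * ‖(z (c t.1) : ℂ)‖ ≠ 1
    by_cases h1 : c s.1 = c t.1
    · rw [← h1]
      exact DimSplit_sq (norm_nonneg _) (hZ _ s.2)
    · exact hZZ _ s.2 _ t.2 h1

end WGBar
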