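import Pool.Agent.Lib.MP_107652_al.Bar.Spec
import Pool.Agent.Lib.MP_107652_al.Twin.HeisGen

/-!
# MP_107652_al, THEOREM R, module HeisR: divisibility relations from Heisenberg groups
-/

set_option autoImplicit false

open Finset

namespace WGBar

open WGirth WGTwin WGOne WGEven

/-- an edge between two different components is even -/
private theorem HeisR_even {S V : Type} {Γ : LGraph S} {c : S → V} (hc : CMap Γ c) {s t : S}
    (hst : Γ.graph.Adj s t) (hne : c s ≠ c t) : Γ.label s(s, t) = 2 * (Γ.label s(s, t) / 2) := by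
  have h1 : Even (Γ.label s(s, t)) := by
    by_contra h
    exact hne ((hc.iff s t).2 (SimpleGraph.Adj.reachable (show (oddGraph Γ).Adj s t from ⟨hst, h⟩)))
  obtain ⟨k, hk⟩ := h1
  omega

/-- the relation of an even edge -/
private theorem HeisR_rel {S V W : Type} {Γ : LGraph S} {Λ : LGraph W} {c : S → V}
    (hc : CMap Γ c) (ψ : Artin Γ →* Artin Λ) {s t : S} (hst : Γ.graph.Adj s t)
    (hne : c s ≠ c t) :
    (ψ (gen Γ s) * ψ (gen Γ t)) ^ (Γ.label s(s, t) / 2) =
      (ψ (gen Γ t) * ψ (gen Γ s)) ^ (Γ.label s(s, t) / 2) := by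
  have h1 := gen_relO Γ hst
  rw [HeisR_even hc hst hne, alt_two_mul, alt_two_mul] at h1
  have h2 := congrArg ψ h1
  rw [map_pow, map_pow, map_mul, map_mul] at h2
  exact h2

theorem heisR : HeisR := by
  intro S V W _ _ _ Γ Λ c hc hΛ y hy ψ M hM
  have key : ∀ a b, a ≠ b → ∀ i j n, i ≠ j → (Λ.graph.Adj i j → n ∣ half Λ i j) →
      ∀ s t, c s = a → c t = b → Γ.graph.Adj s t →
      (n : ℤ) ∣ ((Γ.label s(s, t) / 2 : ℕ) : ℤ) * (M i a * M j b - M j a * M i b) := by
    intro a b hab i j n hij hn s t hs ht hst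
    have h1 := heisGen W Λ hΛ y hy.1 i j n hij hn (ψ (gen Γ s)) (ψ (gen Γ t))
      (Γ.label s(s, t) / 2) (HeisR_rel hc ψ hst (by rw [hs, ht]; exact hab))
    rw [← hM, ← hM, ← hM, ← hM, hs, ht] at h1
    exact h1
  refine ⟨fun a b hab i j hij => ?_, fun a b hab i j hij hna => ?_⟩
  · exact dvd_bar_mul Γ c a b (half Λ i j) _
      (key a b hab.1 i j (half Λ i j) hij.ne fun _ => dvd_rfl)
  · obtain ⟨hne, s, t, hs, ht, hst⟩ := hab
    have h1 := key a b hne i j 0 hij (fun h => absurd h hna) s t hs ht hst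
    rw [Nat.cast_zero, zero_dvd_iff, mul_eq_zero] at h1
    rcases h1 with h1 | h1
    · exfalso
      have h2 := Γ.two_le s(s, t) ((SimpleGraph.mem_edgeSet _).mpr hst)
      have h3 : Γ.label s(s, t) / 2 = 0 := by exact_mod_cast h1
      omega
    · exact h1

end WGBar
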