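import Pool.Agent.Lib.MP_107652_al.Bar.Spec

/-!
# MP_107652_al, THEOREM R: the combinatorics of the first case of the localisation lemma
-/

set_option autoImplicit false

open Finset

namespace WGBar

open WGirth WGTwin WGOne WGEven

theorem locOne : LocOne := by
  intro V _ G k x hx n ψ H w0 c hw0 hn0 hc hnc hψc cf hcf hsum
  have hst : ∀ w, GDom G x w → St G x w := fun w hw => up_adj hx hw
  -- `c` is adjacent to `w0`
  have hcw : G.Adj c w0 := by
    rcases up_star hx hw0 hc with h | h
    · exact absurd (by rw [h]) hψc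
    · exact h
  have hnn : n c + n w0 = 0 := (H c w0 hc (hst w0 hw0) hcw hnc hn0 hψc).1
  -- the main claim
  have key : ∀ w, GDom G x w → n w ≠ 0 →
      (ψ w = ψ w0 ∧ n w = n w0) ∨ (ψ w ≠ ψ w0 ∧ n w = - n w0) := by
    intro w hw hnw
    by_cases hψ : ψ w = ψ w0
    · left
      refine ⟨hψ, ?_⟩
      have hcw' : G.Adj c w := by
        rcases up_star hx hw hc with h | h
        · exact absurd (by rw [h, hψ]) hψc
        · exact h
      have h1 := (H c w hc (hst w hw) hcw' hnc hnw (by rw [hψ]; exact hψc)).1
      omega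
    · right
      refine ⟨hψ, ?_⟩
      have hww : G.Adj w w0 := by
        rcases up_up hx hw hw0 with h | h
        · exact absurd (by rw [h]) hψ
        · exact h
      have h1 := (H w w0 (hst w hw) (hst w0 hw0) hww hnw hn0 hψ).1
      omega
  -- `n w0` divides `1`
  have hdvd : n w0 ∣ 1 := by
    rw [← hsum]
    refine Finset.dvd_sum fun w _ => ?_
    by_cases hw : GDom G x w
    · refine Dvd.dvd.mul_left ?_ _
      by_cases hnw : n w = 0
      · rw [hnw]
        exact dvd_zero _
      · rcases key w hw hnw with h | h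
        · rw [h.2]
        · rw [h.2]
          exact (dvd_neg).mpr dvd_rfl
    · rw [hcf w hw, zero_mul]
      exact dvd_zero _
  have hun : n w0 = 1 ∨ n w0 = -1 := Int.isUnit_iff.mp (isUnit_of_dvd_one hdvd)
  refine ⟨fun w hw => ?_, fun w w' hw hw' hadj hk => ?_⟩
  · by_cases hnw : n w = 0
    · rw [hnw]
      norm_num
    · rcases key w hw hnw with h | h <;> rcases hun with h2 | h2 <;> rw [h.2, h2] <;> norm_num
  · by_cases hnw : n w = 0
    · rw [hnw, zero_mul]
    by_cases hnw' : n w' = 0
    · rw [hnw', mul_zero]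
    by_cases hψ : ψ w = ψ w'
    · rcases key w hw hnw with h | h <;> rcases key w' hw' hnw' with h' | h'
      · rw [h.2, h'.2]
        exact mul_self_nonneg _
      · exact absurd (hψ.symm.trans h.1) h'.1
      · exact absurd (hψ.trans h'.1) h.1
      · rw [h.2, h'.2]
        exact mul_self_nonneg _
    · exact absurd hk (H w w' (hst w hw) (hst w' hw') hadj hnw hnw' hψ).2

end WGBar
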