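import Pool.Agent.Lib.MP_107652_al.Bar.Spec
import Pool.Agent.Lib.MP_107652_al.Even.GenEx
import Pool.Agent.Lib.MP_107652_al.Even.PrimeEx
import Pool.Agent.Lib.MP_107652_al.Even.UpInv

set_option autoImplicit false

open Finset

namespace WGBar

open WGirth WGTwin WGOne WGEven

private theorem LocR_norm {a : ℝ} (ha : 0 < a) (h : ((a : ℝ) : ℂ) ≠ 0) :
    ‖((Units.mk0 ((a : ℝ) : ℂ) h : ℂˣ) : ℂ)‖ = a := by
  rw [Units.val_mk0, Complex.norm_real, Real.norm_of_nonneg ha.le]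

private theorem LocR_zr_zero {V : Type} (z : V → ℂˣ) (r : ℂˣ) (v : V) :
    zr z r (fun _ => 0) v = z v := by
  unfold zr
  rw [zpow_zero, mul_one]

/-- the data of the localisation lemma exist -/
private theorem LocR_data {S T V : Type} [Fintype S] [Fintype T] [Fintype V] [DecidableEq V]
    {Γ : LGraph S} {Λ : LGraph T} {cΓ : S → V} {cΛ : T → V} {M N : V → V → ℤ}
    (hT : TDR Γ Λ cΓ cΛ M N) {x : V} {S0 S1 : Finset V} {ε : V → ℤ} {z : V → ℂˣ}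
    (hD : SD (bar Γ cΓ).graph (half (bar Λ cΛ)) x S0 S1 ε z)
    (hcl : ∀ s ∈ S1, ∀ s' ∈ S1, s ≠ s' → (bar Γ cΓ).graph.Adj s s') :
    ∃ (Gen Z : Finset V) (q : Option V → ℝ) (r : ℂˣ) (z1 : V → ℂˣ) (w0 : V) (cf : V → ℤ),
      LD Γ Λ cΓ cΛ M N x S0 S1 ε Gen Z q r z1 w0 ∧
      (∀ w, ¬ GDom (bar Γ cΓ).graph x w → cf w = 0) ∧ ∑ w, cf w * nS M S0 S1 ε w = 1 := by
  classical
  obtain ⟨Gen, Z, hdj, hmem, hsep, -, hind⟩ := genEx V (bar Γ cΓ).graph x S1 hD.s1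
  obtain ⟨q, hq, hqi⟩ := primeEx (Option V)
  have hqc : ∀ o, ((q o : ℝ) : ℂ) ≠ 0 := fun o => Complex.ofReal_ne_zero.mpr (hq o).ne'
  have hdN : ∀ v l, N l v ≠ 0 → GDom (bar Γ cΓ).graph v l := fun v l h => hT.td.domN l v h
  obtain ⟨cf, hcf, hsum⟩ := upInv V (bar Γ cΓ).graph M N hT.td.pre.mn hdN (half (bar Λ cΛ)) x
    S0 S1 ε z hD
  obtain ⟨w0, hw0, hn0⟩ : ∃ w0, GDom (bar Γ cΓ).graph x w0 ∧ nS M S0 S1 ε w0 ≠ 0 := by
    by_contra h
    push Not at h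
    rw [sum_eq_zero (fun w _ => by
      by_cases hw : GDom (bar Γ cΓ).graph x w
      · rw [h w hw, mul_zero]
      · rw [hcf w hw, zero_mul])] at hsum
    exact absurd hsum (by norm_num)
  let z1 : V → ℂˣ := fun v => if v ∈ S0 ∪ S1 then z v else
    if St (bar Γ cΓ).graph x v then 1 else Units.mk0 ((q (some v) : ℝ) : ℂ) (hqc (some v))
  have hz1 : ∀ v ∈ S0 ∪ S1, z1 v = z v := fun v hv => if_pos hv
  have hst : ∀ v ∈ S0 ∪ S1, St (bar Γ cΓ).graph x v := by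
    intro v hv
    rcases Finset.mem_union.mp hv with h | h
    · rcases clq_adj hD.clq (hD.s0 v h) with h1 | h1
      · exact Or.inl h1
      · exact Or.inr h1.symm
    · exact hD.s1 v h
  refine ⟨Gen, Z, q, Units.mk0 ((q none : ℝ) : ℂ) (hqc none), z1, w0, cf, ?_, hcf, hsum⟩
  refine
    { tdr := hT
      sd :=
        { clq := hD.clq
          s0 := hD.s0
          s1 := hD.s1
          ne0 := hD.ne0
          ne1 := hD.ne1
          dis := hD.dis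
          eps := hD.eps
          nrm := fun s hs => by
            rw [hz1 s hs]
            exact hD.nrm s hs
          deg := fun s hs s' hs' => by
            rw [hz1 s (Finset.mem_union_left _ hs), hz1 s' (Finset.mem_union_right _ hs')]
            exact hD.deg s hs s' hs' }
      cl := hcl
      one := fun v hv hn => (if_neg hn).trans (if_pos hv)
      out := fun v hv => ?_
      qpos := hq
      qind := hqi
      rn := LocR_norm (hq none) (hqc none)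
      dj := hdj
      mem := hmem
      sep := hsep
      ind := hind
      up := hw0
      ne := hn0 }
  have h1 : z1 v = Units.mk0 ((q (some v) : ℝ) : ℂ) (hqc (some v)) :=
    (if_neg (fun h => hv (hst v h))).trans (if_neg hv)
  rw [h1]
  exact LocR_norm (hq (some v)) (hqc (some v))

theorem locR : DimA → DimB → CaseTwoG → PFV → LocOne → LocTwo → LocThree → NmG → NmL → LocR := by
  intro hA hB hC hP h1 h2 h3 hG hL S T V _ _ _ _ Γ Λ cΓ cΛ M N hT x S0 S1 ε z hD hcl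
  obtain ⟨Gen, Z, q, r, z1, w0, cf, hLD, hcf, hsum⟩ := LocR_data hT hD hcl
  obtain ⟨φ, hφ⟩ := hA S T V Γ Λ cΓ cΛ M N x S0 S1 ε Gen Z q r z1 w0 hLD
  obtain ⟨ψ, p1, p2, p3⟩ := hP S V Γ cΓ hT.cmΓ (pz M z1) _ φ hφ
  obtain ⟨g1, -, -, -, -⟩ := hG S T V Γ Λ cΓ cΛ M N x S0 S1 ε Gen Z q r z1 w0 hLD (fun _ => 0)
  have hl6 := (hL S T V Γ Λ cΓ cΛ M N x S0 S1 ε Gen Z q r z1 w0 hLD
    (fun _ => 0)).2.2.2.2.2
  have h20 : ∀ a : ℤ, (2 : ℝ) ^ a = 1 → a = 0 := by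
    intro a ha
    refine (hl6 a 0 ?_).1
    rw [zpow_zero, mul_one]
    exact ha
  have hn : ∀ w, St (bar Γ cΓ).graph x w →
      ‖(pz M z1 w : ℂ)‖ = (2 : ℝ) ^ nS M S0 S1 ε w := by
    intro w hw
    have h := g1 w hw
    rw [LocR_zr_zero, zpow_zero, mul_one] at h
    exact h
  have hn1 : ∀ w, St (bar Γ cΓ).graph x w → nS M S0 S1 ε w ≠ 0 → ‖(pz M z1 w : ℂ)‖ ≠ 1 := by
    intro w hw hne h
    rw [hn w hw] at h
    exact hne (h20 _ h)
  have hQn : ∀ w, St (bar Γ cΓ).graph x w → nS M S0 S1 ε w ≠ 0 →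
      QQ (bar Γ cΓ).graph x (pz M z1) Gen w := by
    intro w hw hne
    refine Or.inl ⟨hw, fun h => hn1 w hw hne ?_⟩
    rw [h, Units.val_one, norm_one]
  by_cases hc : ∃ c, St (bar Γ cΓ).graph x c ∧ nS M S0 S1 ε c ≠ 0 ∧ ψ c ≠ ψ w0
  · obtain ⟨c, hc1, hc2, hc3⟩ := hc
    refine h1 V (bar Γ cΓ).graph (half (bar Γ cΓ)) x hD.clq (nS M S0 S1 ε) ψ ?_ w0 c hLD.up
      hLD.ne hc1 hc2 hc3 cf hcf hsum
    intro v w hv hw hvw nv nw hne
    obtain ⟨k1, k2, k3⟩ := p3 v w hvw (hQn v hv nv) (hQn w hw nw) (hn1 v hv nv)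
      (hn1 w hw nw) hne
    rw [hn v hv, hn w hw, ← zpow_add₀ (by norm_num)] at k1
    refine ⟨h20 _ k1, fun h => ?_⟩
    rw [h, pow_one] at k3
    exact k2 k3
  · push Not at hc
    have hφ2 := hC S T V Γ Λ cΓ cΛ M N x S0 S1 ε Gen Z q r z1 w0 hLD φ ψ hφ p1 p2
      (fun c hc1 hc2 => hc c hc1 hc2)
    obtain ⟨φ', hφ'⟩ := hB S T V Γ Λ cΓ cΛ M N x S0 S1 ε Gen Z q r z1 w0 hLD ⟨φ, hφ2⟩
    obtain ⟨ψ', p1', -, p3'⟩ := hP T V Λ cΛ hT.cmΛ (zr z1 r (N w0)) _ φ' hφ'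
    obtain ⟨l1, l2, -, l4, -, l6⟩ := hL S T V Γ Λ cΓ cΛ M N x S0 S1 ε Gen Z q r z1 w0 hLD (N w0)
    have hQ : ∀ v, QQ (bar Γ cΓ).graph x (zr z1 r (N w0)) Gen v →
        ‖(zr z1 r (N w0) v : ℂ)‖ ≠ 1 := by
      intro v hv h
      rcases hv with ⟨hv1, hv2⟩ | hv
      · by_cases hs : v ∈ S0 ∪ S1
        · rw [l1 v hs] at h
          have h5 := (l6 _ _ h).1
          rcases hD.eps v hs with h6 | h6 <;> omega
        · obtain ⟨h5, h6⟩ := l2 v hv1 hs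
          rw [h5] at h
          refine hv2 (h6 (l6 0 _ ?_).2)
          rw [zpow_zero, one_mul]
          exact h
      · exact l4 v ((hLD.mem v).mp (Finset.mem_union_left _ hv)) h
    obtain ⟨κ, hκ⟩ := h2 S T V Γ Λ cΓ cΛ M N x S0 S1 ε Gen Z q r z1 w0 hLD (N w0) ψ' (by
      intro v w hvw hv hw hne
      rw [← hT.gr] at hvw
      exact (p3' v w hvw hv hw (hQ v hv) (hQ w hw) hne).1) (by
      obtain ⟨s, t, hs, ht, hst⟩ := hφ'.nc
      refine ⟨cΛ s, cΛ t, hs, ht, ?_⟩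
      rw [← p1' s hs (hQ _ hs), ← p1' t ht (hQ _ ht)]
      exact hst)
    obtain ⟨m1, m2⟩ := h3 V (bar Γ cΓ).graph x M N hT.td.pre.nm
      (fun v l h => hT.td.domM v l h) w0 S0 S1 ε κ hLD.up hκ
    exact ⟨m1, fun w w' hw hw' hww _ => m2 w w' hw hw' hww.ne⟩

end WGBar
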