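import Pool.Agent.Lib.MP_107652_al.Bar.Spec

/-!
# MP_107652_al, THEOREM R, module LocThree: matrix computation at the end of the second case
-/

set_option autoImplicit false

open Finset

namespace WGBar

open WGirth WGTwin WGOne WGEven

private theorem LocThree_key {V : Type} [Fintype V] [DecidableEq V] (G : SimpleGraph V) (x : V)
    (M N : V → V → ℤ) (hNM : ∀ v w, ∑ i, N v i * M i w = if v = w then 1 else 0)
    (hM : ∀ v l, M l v ≠ 0 → GDom G v l) (w0 : V) (S0 S1 : Finset V) (ε : V → ℤ) (κ : ℤ)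
    (hN : ∀ v, GDom G x v → N w0 v = κ * (if v ∈ S0 ∪ S1 then ε v else 0)) (w : V)
    (hw : GDom G x w) : κ * nS M S0 S1 ε w = if w0 = w then 1 else 0 := by
  rw [← hNM w0 w, nS, Finset.mul_sum, ← Finset.sum_subset (Finset.subset_univ (S0 ∪ S1))]
  · refine Finset.sum_congr rfl fun i hi => ?_
    by_cases h0 : M i w = 0
    · rw [h0, mul_zero, mul_zero, mul_zero]
    · rw [hN i (gdom_trans hw (hM w i h0)), if_pos hi, mul_assoc]
  · intro i _ hi
    by_cases h0 : M i w = 0
    · rw [h0, mul_zero]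
    · rw [hN i (gdom_trans hw (hM w i h0)), if_neg hi, mul_zero, zero_mul]

theorem locThree : LocThree := by
  intro V _ _ G x M N hNM hM w0 S0 S1 ε κ hw0 hN
  have key := LocThree_key G x M N hNM hM w0 S0 S1 ε κ hN
  have h0 : κ * nS M S0 S1 ε w0 = 1 := by
    rw [key w0 hw0, if_pos rfl]
  have hκ : κ ≠ 0 := by
    intro h
    rw [h, zero_mul] at h0
    exact zero_ne_one h0
  have hne : ∀ w, GDom G x w → w0 ≠ w → nS M S0 S1 ε w = 0 := by
    intro w hw hne
    have h1 := key w hw
    rw [if_neg hne] at h1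
    exact (mul_eq_zero.mp h1).resolve_left hκ
  constructor
  · intro w hw
    by_cases h : w0 = w
    · subst h
      have h2 : IsUnit (nS M S0 S1 ε w0) := IsUnit.of_mul_eq_one κ (by rw [mul_comm]; exact h0)
      rw [Int.isUnit_iff_abs_eq.mp h2]
    · rw [hne w hw h, abs_zero]
      exact zero_le_one
  · intro w w' hw hw' hww
    by_cases h : w0 = w
    · have h3 : w0 ≠ w' := fun h4 => hww (h.symm.trans h4)
      rw [hne w' hw' h3, mul_zero]
    · rw [hne w hw h, zero_mul]

end WGBar
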