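import Pool.Agent.Lib.MP_107652_al.Bar.Spec

/-!
# MP_107652_al, THEOREM R: combinatorics of the second case
-/

set_option autoImplicit false

open Finset

namespace WGBar

open WGirth WGTwin WGOne WGEven


theorem locTwo : NmL → LocTwo := by
  intro hN S T V _ _ _ _ Γ Λ cΓ cΛ M N x S0 S1 ε Gen Z q r z w0 h α ψ hψ hne
  obtain ⟨n1, n2, n3, n4, n5, n6⟩ := hN S T V Γ Λ cΓ cΛ M N x S0 S1 ε Gen Z q r z w0 h α
  have hx := h.sd.clq
  have hq : q none ≠ 0 := ne_of_gt (h.qpos none)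
  obtain ⟨s0, hs0⟩ := h.sd.ne0
  obtain ⟨s1, hs1⟩ := h.sd.ne1
  -- memberships
  have m0 : ∀ s ∈ S0, s ∈ S0 ∪ S1 := fun s hs => Finset.mem_union_left _ hs
  have m1 : ∀ s ∈ S1, s ∈ S0 ∪ S1 := fun s hs => Finset.mem_union_right _ hs
  have st0 : ∀ s ∈ S0, St (bar Γ cΓ).graph x s := by
    intro s hs
    rcases clq_adj hx (h.sd.s0 s hs) with h1 | h1
    · exact Or.inl h1
    · exact Or.inr h1.symm
  have st1 : ∀ s ∈ S1, St (bar Γ cΓ).graph x s := fun s hs => h.sd.s1 s hs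
  have hdis : ∀ s ∈ S0, ∀ s' ∈ S1, s ≠ s' := by
    intro s hs s' hs' he
    subst he
    exact Finset.disjoint_left.mp h.sd.dis hs hs'
  -- adjacency of `S0` and the star
  have adj0 : ∀ s ∈ S0, ∀ v, St (bar Γ cΓ).graph x v → v ≠ s → (bar Γ cΓ).graph.Adj s v := by
    intro s hs v hv hvs
    rcases star_tw hx (h.sd.s0 s hs) hv with h1 | h1
    · exact absurd h1 hvs
    · exact h1
  -- norm products
  have np : ∀ v ∈ S0 ∪ S1, ∀ w ∈ S0 ∪ S1,
      ‖(zr z r α v : ℂ)‖ * ‖(zr z r α w : ℂ)‖ = 1 → ε v + ε w = 0 ∧ α v + α w = 0 := by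
    intro v hv w hw h1
    apply n6
    rw [n1 v hv, n1 w hw] at h1
    rw [zpow_add₀ two_ne_zero, zpow_add₀ hq, ← h1]
    ring
  have epsn : ∀ v ∈ S0 ∪ S1, ε v ≠ 0 := by
    intro v hv h1
    rcases h.sd.eps v hv with h2 | h2 <;> omega
  -- the norms of `QQ`
  have qq : ∀ v ∈ S0 ∪ S1, QQ (bar Γ cΓ).graph x (zr z r α) Gen v := by
    intro v hv
    refine Or.inl ⟨?_, ?_⟩
    · rcases Finset.mem_union.mp hv with h1 | h1
      · exact st0 v h1
      · exact st1 v h1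
    · intro h1
      have h2 := n1 v hv
      rw [h1, Units.val_one, norm_one] at h2
      exact epsn v hv (n6 _ _ h2.symm).1
  have qG : ∀ v ∈ Gen, QQ (bar Γ cΓ).graph x (zr z r α) Gen v := fun v hv => Or.inr hv
  have outG : ∀ g ∈ Gen, ¬ St (bar Γ cΓ).graph x g :=
    fun g hg => (h.mem g).mp (Finset.mem_union_left _ hg)
  -- signs
  have sgn : ∀ s ∈ S0, ∀ s' ∈ S1, ε s + ε s' = 0 := by
    intro s hs s' hs'
    have hadj := adj0 s hs s' (st1 s' hs') (Ne.symm (hdis s hs s' hs'))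
    have hpos : 1 ≤ half (bar Λ cΛ) s s' := by
      apply (bar_even Λ cΛ).half_pos
      rw [h.tdr.gr]
      exact hadj
    obtain ⟨_, h1⟩ := h.sd.deg s hs s' hs'
    have h2 : ‖(z s : ℂ)‖ * ‖(z s' : ℂ)‖ = 1 := by
      rw [← norm_mul]
      exact Complex.norm_eq_one_of_pow_eq_one h1 (by omega)
    rw [h.sd.nrm s (m0 s hs), h.sd.nrm s' (m1 s' hs')] at h2
    have h3 : (2 : ℝ) ^ (ε s + ε s') * q none ^ (0 : ℤ) = 1 := by
      rw [zpow_add₀ two_ne_zero, zpow_zero, mul_one]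
      exact h2
    exact (n6 _ _ h3).1
  have e1 : ∀ s ∈ S1, ε s = ε s1 := by
    intro s hs
    have h1 := sgn s0 hs0 s hs
    have h2 := sgn s0 hs0 s1 hs1
    omega
  have e0 : ∀ s ∈ S0, ε s = ε s0 := by
    intro s hs
    have h1 := sgn s hs s1 hs1
    have h2 := sgn s0 hs0 s1 hs1
    omega
  -- the basic principle
  have eqψ : ∀ v w, (bar Γ cΓ).graph.Adj v w → QQ (bar Γ cΓ).graph x (zr z r α) Gen v →
      QQ (bar Γ cΓ).graph x (zr z r α) Gen w →
      ‖(zr z r α v : ℂ)‖ * ‖(zr z r α w : ℂ)‖ ≠ 1 → ψ v = ψ w := by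
    intro v w h1 h2 h3 h4
    by_contra h5
    exact h4 (hψ v w h1 h2 h3 h5)
  -- (a)
  have a1 : ∀ s ∈ S1, ψ s = ψ s1 := by
    intro s hs
    by_cases hss : s = s1
    · rw [hss]
    · apply eqψ s s1 (h.cl s hs s1 hs1 hss) (qq s (m1 s hs)) (qq s1 (m1 s1 hs1))
      intro h1
      have h2 := (np s (m1 s hs) s1 (m1 s1 hs1) h1).1
      have h3 := e1 s hs
      have h4 := epsn s1 (m1 s1 hs1)
      omega
  have a2 : ∀ g ∈ Gen, ψ g = ψ s1 := by
    apply h.ind (fun g => ψ g = ψ s1)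
    · rintro g hg ⟨s, hs, hgs⟩
      rw [← a1 s hs]
      exact eqψ g s hgs (qG g hg) (qq s (m1 s hs)) (n5 g s (outG g hg) hgs.ne)
    · intro g hg g' hg' hgg hP
      rw [← hP]
      exact (eqψ g g' hgg (qG g hg) (qG g' hg') (n5 g g' (outG g hg) hgg.ne)).symm
  -- (b)
  have b1 : ∀ s ∈ S0, ψ s = ψ s0 := by
    intro s hs
    rcases clq_adj2 hx (h.sd.s0 s hs) (h.sd.s0 s0 hs0) with hss | hss
    · rw [hss]
    · apply eqψ s s0 hss (qq s (m0 s hs)) (qq s0 (m0 s0 hs0))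
      intro h1
      have h2 := (np s (m0 s hs) s0 (m0 s0 hs0) h1).1
      have h3 := e0 s hs
      have h4 := epsn s0 (m0 s0 hs0)
      omega
  -- products with an element of the star outside of `S0 ∪ S1`
  have np2 : ∀ v ∈ S0 ∪ S1, ∀ w, St (bar Γ cΓ).graph x w → w ∉ S0 ∪ S1 →
      ‖(zr z r α v : ℂ)‖ * ‖(zr z r α w : ℂ)‖ ≠ 1 := by
    intro v hv w hw hw2 h1
    rw [n1 v hv, (n2 w hw hw2).1] at h1
    have h2 : (2 : ℝ) ^ ε v * q none ^ (α v + α w) = 1 := by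
      rw [zpow_add₀ hq, ← mul_assoc]
      exact h1
    exact epsn v hv (n6 _ _ h2).1
  have b2 : ∀ v, St (bar Γ cΓ).graph x v → v ∉ S0 ∪ S1 →
      QQ (bar Γ cΓ).graph x (zr z r α) Gen v → ψ v = ψ s0 := by
    intro v hv hv2 hQ
    have h1 : v ≠ s0 := fun h2 => hv2 (h2 ▸ m0 s0 hs0)
    exact (eqψ s0 v (adj0 s0 hs0 v hv h1) (qq s0 (m0 s0 hs0)) hQ
      (np2 s0 (m0 s0 hs0) v hv hv2)).symm
  have hQall : ∀ v, QQ (bar Γ cΓ).graph x (zr z r α) Gen v → ψ v = ψ s0 ∨ ψ v = ψ s1 := by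
    intro v hv
    rcases hv with hv | hv
    · by_cases hv2 : v ∈ S0 ∪ S1
      · rcases Finset.mem_union.mp hv2 with h1 | h1
        · exact Or.inl (b1 v h1)
        · exact Or.inr (a1 v h1)
      · exact Or.inl (b2 v hv.1 hv2 (Or.inl hv))
    · exact Or.inr (a2 v hv)
  have hc : ψ s0 ≠ ψ s1 := by
    intro hc
    obtain ⟨v, w, hv, hw, hvw⟩ := hne
    apply hvw
    rcases hQall v hv with h1 | h1 <;> rcases hQall w hw with h2 | h2
    · rw [h1, h2]
    · rw [h1, h2, hc]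
    · rw [h1, h2, hc]
    · rw [h1, h2]
  -- (c)
  have hα : ∀ s ∈ S0, ∀ s' ∈ S1, α s + α s' = 0 := by
    intro s hs s' hs'
    have hadj := adj0 s hs s' (st1 s' hs') (Ne.symm (hdis s hs s' hs'))
    have h1 := hψ s s' hadj (qq s (m0 s hs)) (qq s' (m1 s' hs')) (by
      rw [b1 s hs, a1 s' hs']
      exact hc)
    exact (np s (m0 s hs) s' (m1 s' hs') h1).2
  -- (d)
  have hd : ∀ v, GDom (bar Γ cΓ).graph x v → v ∉ S0 ∪ S1 → α v = 0 := by
    intro v hv hv2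
    by_contra h0
    have hst : St (bar Γ cΓ).graph x v := up_adj hx hv
    have hQ : QQ (bar Γ cΓ).graph x (zr z r α) Gen v := by
      refine Or.inl ⟨hst, ?_⟩
      intro h1
      have h2 := (n2 v hst hv2).1
      rw [h1, Units.val_one, norm_one] at h2
      have h3 : (2 : ℝ) ^ (0 : ℤ) * q none ^ α v = 1 := by
        rw [zpow_zero, one_mul]
        exact h2.symm
      exact h0 (n6 _ _ h3).2
    have h1 := b2 v hst hv2 hQ
    rcases up_star hx hv (st1 s1 hs1) with h2 | h2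
    · exact hv2 (h2 ▸ m1 s1 hs1)
    · have h3 := hψ s1 v h2 (qq s1 (m1 s1 hs1)) hQ (by
        rw [h1]
        exact Ne.symm hc)
      exact np2 s1 (m1 s1 hs1) v hst hv2 h3
  refine ⟨α s0 * ε s0, ?_⟩
  intro v hv
  have hsq : ε s0 * ε s0 = 1 := by
    rcases h.sd.eps s0 (m0 s0 hs0) with h1 | h1 <;> rw [h1] <;> norm_num
  by_cases hv2 : v ∈ S0 ∪ S1
  · rw [if_pos hv2]
    rcases Finset.mem_union.mp hv2 with h1 | h1
    · have h2 : α v = α s0 := by
        have h3 := hα v h1 s1 hs1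
        have h4 := hα s0 hs0 s1 hs1
        omega
      rw [h2, e0 v h1, mul_assoc, hsq, mul_one]
    · have h2 : α v = -α s0 := by
        have h3 := hα s0 hs0 v h1
        omega
      have h5 : ε v = -ε s0 := by
        have h6 := sgn s0 hs0 v h1
        omega
      rw [h2, h5, mul_neg, mul_assoc, hsq, mul_one]
  · rw [if_neg hv2, mul_zero]
    exact hd v hv hv2

end WGBar
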