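import Pool.Agent.Lib.MP_107652_al.Bar.Spec
import Pool.Agent.Lib.MP_107652_al.ExpHom
import Pool.Agent.Lib.MP_107652_al.One.OddEq

/-!
# MP_107652_al, Bar, module MatEx: the matrix of a homomorphism with respect to the odd components
-/

set_option autoImplicit false

open Finset

namespace WGBar

open WGirth WGTwin WGOne WGEven

theorem matEx : BarHom → MatEx := by
  intro hB S T V W _ _ _ _ _ Γ Λ cΓ cΛ hΓ hΛ φ
  obtain ⟨p, hp⟩ := hB T W Λ cΛ hΛ
  obtain ⟨y, -, hy2⟩ := expHom W (bar Λ cΛ) (bar_even Λ cΛ)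
  obtain ⟨r, hr⟩ : ∃ r : V → S, ∀ i, cΓ (r i) = i :=
    ⟨Function.surjInv hΓ.surj, Function.surjInv_eq hΓ.surj⟩
  obtain ⟨M, hM⟩ : ∃ M : W → V → ℤ, ∀ i v, M i v =
      Multiplicative.toAdd (y i (p (φ (gen Γ (r v))))) := ⟨_, fun _ _ => rfl⟩
  have hMs : ∀ i s, M i (cΓ s) = Multiplicative.toAdd (y i (p (φ (gen Γ s)))) := by
    intro i s
    have hs : SameC Γ (r (cΓ s)) s := (hΓ.iff _ _).1 (hr _)
    have h1 := oddEq.2 (Multiplicative ℤ) S Γ (((y i).comp p).comp φ) (r (cΓ s)) s hs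
    rw [hM]
    exact congrArg Multiplicative.toAdd h1
  refine ⟨M, ?_⟩
  intro A _ f z hz s
  obtain ⟨f', hf'⟩ := exists_hom (bar_even Λ cΛ) z (fun s t _ => by rw [mul_comm])
  have h1 : f = f'.comp p := hom_ext (fun t => by rw [MonoidHom.comp_apply, hp, hf', hz])
  rw [h1, MonoidHom.comp_apply, hy2 A f' (p (φ (gen Γ s)))]
  exact Finset.prod_congr rfl fun i _ => by rw [hf', hMs]

end WGBar
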