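import Pool.Agent.Lib.MP_107652_al.Bar.Spec
import Pool.Agent.Lib.MP_107652_al.Even.BlkGen

/-!
# MP_107652_al, THEOREM R: norms on the side of `Γ` (`NmG`)
-/

set_option autoImplicit false
set_option linter.unusedSectionVars false

open Finset

namespace WGBar

open WGirth WGTwin WGOne WGEven

section

variable {S T V : Type} [Fintype S] [Fintype T] [Fintype V] [DecidableEq V] {Γ : LGraph S}
  {Λ : LGraph T} {cΓ : S → V} {cΛ : T → V} {M N : V → V → ℤ} {x : V} {S0 S1 : Finset V}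
  {ε : V → ℤ} {Gen Z : Finset V} {q : Option V → ℝ} {r : ℂˣ} {z : V → ℂˣ} {w0 : V}

open Classical in
/-- the vertices outside of the star -/
private noncomputable def NmG_out (G : SimpleGraph V) (x : V) : Finset V :=
  Finset.univ.filter (fun v => ¬ St G x v)

private theorem NmG_mem_out {G : SimpleGraph V} {x v : V} : v ∈ NmG_out G x ↔ ¬ St G x v := by
  unfold NmG_out
  simp

private theorem NmG_domM (h : LD Γ Λ cΓ cΛ M N x S0 S1 ε Gen Z q r z w0) :
    ∀ v l, M l v ≠ 0 → GDom (bar Γ cΓ).graph v l := fun v l hne => h.tdr.td.domM v l hne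

private theorem NmG_domN (h : LD Γ Λ cΓ cΛ M N x S0 S1 ε Gen Z q r z w0) :
    ∀ v l, N l v ≠ 0 → GDom (bar Γ cΓ).graph v l := fun v l hne => h.tdr.td.domN l v hne

private theorem NmG_star (h : LD Γ Λ cΓ cΛ M N x S0 S1 ε Gen Z q r z w0) {s : V}
    (hs : s ∈ S0 ∪ S1) : St (bar Γ cΓ).graph x s := by
  rcases Finset.mem_union.mp hs with h0 | h1
  · rcases clq_adj h.sd.clq (h.sd.s0 s h0) with h2 | h2
    · exact Or.inl h2
    · exact Or.inr h2.symm
  · exact h.sd.s1 s h1

/-- the norm of the transformed character -/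
private theorem NmG_norm (h : LD Γ Λ cΓ cΛ M N x S0 S1 ε Gen Z q r z w0) (w : V) :
    ‖(pz M z w : ℂ)‖ = (2 : ℝ) ^ nS M S0 S1 ε w *
      ∏ i ∈ NmG_out (bar Γ cΓ).graph x, q (some i) ^ (M i w) := by
  have h2 : ‖(pz M z w : ℂ)‖ = ∏ i, ‖(z i : ℂ)‖ ^ (M i w) := by
    unfold pz
    rw [Units.coe_prod, norm_prod]
    refine Finset.prod_congr rfl fun i _ => ?_
    rw [Units.val_zpow_eq_zpow_val, norm_zpow]
  have hdis : Disjoint (S0 ∪ S1) (NmG_out (bar Γ cΓ).graph x) := by
    rw [Finset.disjoint_left]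
    intro s hs ho
    exact NmG_mem_out.mp ho (NmG_star h hs)
  have h3 : ∏ i, ‖(z i : ℂ)‖ ^ (M i w) =
      ∏ i ∈ (S0 ∪ S1) ∪ NmG_out (bar Γ cΓ).graph x, ‖(z i : ℂ)‖ ^ (M i w) := by
    symm
    refine Finset.prod_subset (Finset.subset_univ _) fun i _ hi => ?_
    rw [Finset.mem_union, not_or, NmG_mem_out, not_not] at hi
    rw [h.one i hi.2 hi.1, Units.val_one, norm_one, one_zpow]
  have h4 : ∏ i ∈ S0 ∪ S1, ‖(z i : ℂ)‖ ^ (M i w) = (2 : ℝ) ^ nS M S0 S1 ε w := by
    unfold nS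
    rw [Finset.prod_congr rfl (fun i hi => by
      rw [h.sd.nrm i hi, ← zpow_mul] : ∀ i ∈ S0 ∪ S1, ‖(z i : ℂ)‖ ^ (M i w) =
        (2 : ℝ) ^ (ε i * M i w))]
    generalize S0 ∪ S1 = S
    induction S using Finset.induction_on with
    | empty => simp
    | insert a s ha ih =>
      rw [Finset.prod_insert ha, Finset.sum_insert ha, ih, zpow_add₀ (two_ne_zero)]
  rw [h2, h3, Finset.prod_union hdis, h4]
  congr 1
  exact Finset.prod_congr rfl fun i hi => by rw [h.out i (NmG_mem_out.mp hi)]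

/-- the norm of the perturbed character -/
private theorem NmG_normr (h : LD Γ Λ cΓ cΛ M N x S0 S1 ε Gen Z q r z w0) (β : V → ℤ) (w : V) :
    ‖(zr (pz M z) r β w : ℂ)‖ = (2 : ℝ) ^ nS M S0 S1 ε w *
      (∏ i ∈ NmG_out (bar Γ cΓ).graph x, q (some i) ^ (M i w)) * q none ^ β w := by
  unfold zr
  rw [Units.val_mul, norm_mul, NmG_norm h w, Units.val_zpow_eq_zpow_val, norm_zpow, h.rn]

/-- independence -/
private theorem NmG_ind (h : LD Γ Λ cΓ cΛ M N x S0 S1 ε Gen Z q r z w0) (a e : ℤ) (b : V → ℤ)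
    (h1 : (2 : ℝ) ^ a * (∏ i ∈ NmG_out (bar Γ cΓ).graph x, q (some i) ^ (b i)) * q none ^ e = 1) :
    ∀ i ∈ NmG_out (bar Γ cΓ).graph x, b i = 0 := by
  classical
  have h2 := (h.qind a (fun o => Option.elim o e
    (fun i => if i ∈ NmG_out (bar Γ cΓ).graph x then b i else 0)) (by
      rw [Fintype.prod_option]
      simp only [Option.elim_none, Option.elim_some]
      have h3 : ∏ i, q (some i) ^ (if i ∈ NmG_out (bar Γ cΓ).graph x then b i else 0) =
          ∏ i ∈ NmG_out (bar Γ cΓ).graph x, q (some i) ^ (b i) := by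
        symm
        rw [← Finset.prod_subset (Finset.subset_univ (NmG_out (bar Γ cΓ).graph x))]
        · exact Finset.prod_congr rfl fun i hi => by rw [if_pos hi]
        · intro i _ hi
          rw [if_neg hi, zpow_zero]
      rw [h3, ← h1]
      ring)).2
  intro i hi
  have h3 := h2 (some i)
  simp only [Option.elim_some, if_pos hi] at h3
  exact h3

/-- the block on the vertices outside is invertible -/
private theorem NmG_blk (h : LD Γ Λ cΓ cΛ M N x S0 S1 ε Gen Z q r z w0) :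
    ∀ g, ¬ St (bar Γ cΓ).graph x g → ∀ g', ¬ St (bar Γ cΓ).graph x g' →
      ∑ i ∈ NmG_out (bar Γ cΓ).graph x, N g i * M i g' = if g = g' then 1 else 0 := by
  intro g hg g' hg'
  exact blkGen blkOut V (bar Γ cΓ).graph M N h.tdr.td.pre.nm (NmG_domM h) (NmG_domN h) x
    h.sd.clq (NmG_out (bar Γ cΓ).graph x) (fun g hg => NmG_mem_out.mp hg)
    (fun g _ i hi _ => NmG_mem_out.mpr hi) g (NmG_mem_out.mpr hg) g' (NmG_mem_out.mpr hg')

/-- `M i w = 0` for `w` in the star and `i` outside -/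
private theorem NmG_zero (h : LD Γ Λ cΓ cΛ M N x S0 S1 ε Gen Z q r z w0) (w : V)
    (hw : St (bar Γ cΓ).graph x w) (i : V) (hi : ¬ St (bar Γ cΓ).graph x i) : M i w = 0 :=
  blkOut V (bar Γ cΓ).graph M (NmG_domM h) x h.sd.clq w hw i hi

private theorem NmG_five (h : LD Γ Λ cΓ cΛ M N x S0 S1 ε Gen Z q r z w0) (w : V)
    (hw : St (bar Γ cΓ).graph x w) (u : V) (huZ : u ∈ Z) (hwu : (bar Γ cΓ).graph.Adj w u) :
    pz M z w = 1 := by
  have hu : ¬ St (bar Γ cΓ).graph x u := (h.mem u).mp (Finset.mem_union_right _ huZ)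
  unfold pz
  refine Finset.prod_eq_one fun i _ => ?_
  by_cases hi : St (bar Γ cΓ).graph x i
  · by_cases hiS : i ∈ S0 ∪ S1
    · have hM : M i w = 0 := by
        by_contra hne
        rcases NmG_domM h w i hne u hwu with h1 | h1
        · exact hu (h1 ▸ hi)
        · rcases Finset.mem_union.mp hiS with h2 | h2
          · rcases (h.sd.s0 i h2).1 u h1.symm with h3 | h3
            · exact hu (Or.inl h3)
            · exact hu (Or.inr h3.symm)
          · exact (h.sep u huZ).1 i h2 h1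
      rw [hM, zpow_zero]
    · rw [h.one i hi hiS, one_zpow]
  · rw [NmG_zero h w hw i hi, zpow_zero]

end

theorem nmG : NmG := by
  intro S T V _ _ _ _ Γ Λ cΓ cΛ M N x S0 S1 ε Gen Z q r z w0 h β
  refine ⟨?_, ?_, ?_, ?_, ?_⟩
  · intro w hw
    rw [NmG_normr h β w]
    have h1 : ∏ i ∈ NmG_out (bar Γ cΓ).graph x, q (some i) ^ (M i w) = 1 :=
      Finset.prod_eq_one fun i hi => by rw [NmG_zero h w hw i (NmG_mem_out.mp hi), zpow_zero]
    rw [h1, mul_one]
  · intro w hw h1
    rw [NmG_normr h β w] at h1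
    have h2 := NmG_ind h _ _ (fun i => M i w) h1
    have h3 := NmG_blk h w hw w hw
    rw [if_pos rfl] at h3
    have h4 : ∑ i ∈ NmG_out (bar Γ cΓ).graph x, N w i * M i w = 0 :=
      Finset.sum_eq_zero fun i hi => by rw [h2 i hi, mul_zero]
    rw [h4] at h3
    exact zero_ne_one h3
  · intro w u hw hu hne h1
    rw [NmG_normr h β w, NmG_normr h β u] at h1
    have hq : ∀ o, q o ≠ 0 := fun o => (h.qpos o).ne'
    have h2 := NmG_ind h (nS M S0 S1 ε w + nS M S0 S1 ε u) (β w + β u)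
      (fun i => M i w + M i u) (by
        rw [← h1, zpow_add₀ two_ne_zero, zpow_add₀ (hq none)]
        have h3 : ∏ i ∈ NmG_out (bar Γ cΓ).graph x, q (some i) ^ (M i w + M i u) =
            (∏ i ∈ NmG_out (bar Γ cΓ).graph x, q (some i) ^ (M i w)) *
            ∏ i ∈ NmG_out (bar Γ cΓ).graph x, q (some i) ^ (M i u) := by
          rw [← Finset.prod_mul_distrib]
          exact Finset.prod_congr rfl fun i _ => zpow_add₀ (hq _) _ _
        rw [h3]
        ring)
    have h3 := NmG_blk h w hw w hw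
    have h4 := NmG_blk h w hw u hu
    rw [if_pos rfl] at h3
    rw [if_neg hne] at h4
    have h5 : ∑ i ∈ NmG_out (bar Γ cΓ).graph x, N w i * M i w +
        ∑ i ∈ NmG_out (bar Γ cΓ).graph x, N w i * M i u = 0 := by
      rw [← Finset.sum_add_distrib]
      refine Finset.sum_eq_zero fun i hi => ?_
      rw [← mul_add, h2 i hi, mul_zero]
    rw [h3, h4] at h5
    norm_num at h5
  · intro w u hw hu h1
    rw [NmG_normr h β w, NmG_normr h β u] at h1
    have h0 : ∏ i ∈ NmG_out (bar Γ cΓ).graph x, q (some i) ^ (M i w) = 1 :=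
      Finset.prod_eq_one fun i hi => by rw [NmG_zero h w hw i (NmG_mem_out.mp hi), zpow_zero]
    have hq : ∀ o, q o ≠ 0 := fun o => (h.qpos o).ne'
    have h2 := NmG_ind h (nS M S0 S1 ε w + nS M S0 S1 ε u) (β w + β u)
      (fun i => M i u) (by
        rw [← h1, zpow_add₀ two_ne_zero, zpow_add₀ (hq none), h0]
        ring)
    have h3 := NmG_blk h u hu u hu
    rw [if_pos rfl] at h3
    have h4 : ∑ i ∈ NmG_out (bar Γ cΓ).graph x, N u i * M i u = 0 :=
      Finset.sum_eq_zero fun i hi => by rw [h2 i hi, mul_zero]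
    rw [h4] at h3
    exact zero_ne_one h3
  · rintro w hw ⟨u, huZ, hwu⟩
    exact NmG_five h w hw u huZ hwu

end WGBar
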