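import Pool.Agent.Lib.MP_107652_al.Bar.Spec

/-!
# MP_107652_al, THEOREM R, module NmL: norms on the side of `Λ`
-/

set_option autoImplicit false

open Finset

namespace WGBar

open WGirth WGTwin WGOne WGEven

private theorem NmL_ind {V : Type} [Fintype V] {q : Option V → ℝ}
    (hq : ∀ (a : ℤ) (b : Option V → ℤ), (2 : ℝ) ^ a * ∏ o, (q o) ^ (b o) = 1 →
      a = 0 ∧ ∀ o, b o = 0) (a e : ℤ) (c : V → ℤ)
    (h : (2 : ℝ) ^ a * (q none ^ e * ∏ w, q (some w) ^ c w) = 1) :
    a = 0 ∧ e = 0 ∧ ∀ w, c w = 0 := by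
  have h1 := hq a (fun o => Option.elim o e c) (by
    rw [Fintype.prod_option]
    exact h)
  exact ⟨h1.1, h1.2 none, fun w => h1.2 (some w)⟩

private theorem NmL_one {V : Type} [Fintype V] [DecidableEq V] (q : Option V → ℝ) (v : V) :
    ∏ w, q (some w) ^ (if w = v then (1 : ℤ) else 0) = q (some v) := by
  rw [Finset.prod_eq_single v]
  · rw [if_pos rfl, zpow_one]
  · intro w _ hw
    rw [if_neg hw, zpow_zero]
  · intro h
    exact absurd (Finset.mem_univ v) h

private theorem NmL_two {V : Type} [Fintype V] [DecidableEq V] (q : Option V → ℝ)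
    (hpos : ∀ o, 0 < q o) (v u : V) :
    ∏ w, q (some w) ^ ((if w = v then (1 : ℤ) else 0) + (if w = u then (1 : ℤ) else 0)) =
      q (some v) * q (some u) := by
  rw [← NmL_one q v, ← NmL_one q u, ← Finset.prod_mul_distrib]
  exact Finset.prod_congr rfl fun w _ => zpow_add₀ (hpos _).ne' _ _

private theorem NmL_norm {V : Type} {q : Option V → ℝ} {r : ℂˣ} (hr : ‖(r : ℂ)‖ = q none)
    (z : V → ℂˣ) (α : V → ℤ) (v : V) :
    ‖(zr z r α v : ℂ)‖ = ‖(z v : ℂ)‖ * q none ^ α v := by
  unfold zr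
  rw [Units.val_mul, Units.val_zpow_eq_zpow_val, norm_mul, norm_zpow, hr]

theorem nmL : NmL := by
  intro S T V _ _ _ _ Γ Λ cΓ cΛ M N x S0 S1 ε Gen Z q r z w0 h α
  have hn := NmL_norm h.rn z α
  have c1 : ∀ v ∈ S0 ∪ S1, ‖(zr z r α v : ℂ)‖ = (2 : ℝ) ^ ε v * q none ^ α v := by
    intro v hv
    rw [hn, h.sd.nrm v hv]
  have c2 : ∀ v, St (bar Γ cΓ).graph x v → v ∉ S0 ∪ S1 →
      ‖(zr z r α v : ℂ)‖ = q none ^ α v ∧ (α v = 0 → zr z r α v = 1) := by
    intro v hv hv'
    have h1 := h.one v hv hv'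
    refine ⟨?_, fun h2 => ?_⟩
    · rw [hn, h1, Units.val_one, norm_one, one_mul]
    · unfold zr
      rw [h1, h2, zpow_zero, one_mul]
  have c3 : ∀ v, ¬ St (bar Γ cΓ).graph x v →
      ‖(zr z r α v : ℂ)‖ = q (some v) * q none ^ α v := by
    intro v hv
    rw [hn, h.out v hv]
  refine ⟨c1, c2, c3, ?_, ?_, ?_⟩
  · intro v hv h1
    rw [c3 v hv] at h1
    have h2 := (NmL_ind h.qind 0 (α v) (fun w => if w = v then (1 : ℤ) else 0) (by
      rw [NmL_one, zpow_zero, one_mul, mul_comm]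
      exact h1)).2.2 v
    simp at h2
  · intro v w hv hvw h1
    rw [c3 v hv] at h1
    by_cases hw : St (bar Γ cΓ).graph x w
    · by_cases hw' : w ∈ S0 ∪ S1
      · rw [c1 w hw'] at h1
        have h2 := (NmL_ind h.qind (ε w) (α v + α w) (fun w => if w = v then (1 : ℤ) else 0) (by
          rw [NmL_one, zpow_add₀ (h.qpos none).ne']
          linear_combination h1)).2.2 v
        simp at h2
      · rw [(c2 w hw hw').1] at h1
        have h2 := (NmL_ind h.qind 0 (α v + α w) (fun w => if w = v then (1 : ℤ) else 0) (by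
          rw [NmL_one, zpow_add₀ (h.qpos none).ne', zpow_zero]
          linear_combination h1)).2.2 v
        simp at h2
    · rw [c3 w hw] at h1
      have h2 := (NmL_ind h.qind 0 (α v + α w)
        (fun u => (if u = v then (1 : ℤ) else 0) + (if u = w then (1 : ℤ) else 0)) (by
        rw [NmL_two q h.qpos, zpow_add₀ (h.qpos none).ne', zpow_zero]
        linear_combination h1)).2.2 v
      simp [hvw] at h2
  · intro a e h1
    have h2 := NmL_ind h.qind a e (fun _ => 0) (by
      simp only [zpow_zero, Finset.prod_const_one, mul_one]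
      exact h1)
    exact ⟨h2.1, h2.2.1⟩

end WGBar
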