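import Pool.Agent.Lib.MP_107652_al.Bar.Spec
import Pool.Agent.Lib.MP_107652_al.One.NrmE

/-!
# MP_107652_al, THEOREM R: the function `φ` of a `PF` lives on the odd components
-/

set_option autoImplicit false

open Finset

namespace WGBar

open WGirth WGTwin WGOne WGEven

private theorem PFV_walk {T V : Type} {Λ : LGraph T} {c : T → V} (hc : CMap Λ c) {z : V → ℂˣ}
    {Q : V → Prop} {φ : T → ℂ} (hP : PF Λ c z Q φ) {s t : T} (p : (oddGraph Λ).Walk s t) :
    Q (c s) → ‖(z (c s) : ℂ)‖ ≠ 1 → φ s = φ t := by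
  induction p with
  | nil => exact fun _ _ => rfl
  | @cons u v w huv p ih =>
    intro hQ hz
    have h1 : c u = c v := (hc.iff u v).mpr huv.reachable
    have h2 : φ u = φ v := by
      by_contra hne
      have h3 := hP.od u v huv.1 hQ (h1 ▸ hQ) hne huv.2
      have h4 := Λ.two_le s(u, v) ((SimpleGraph.mem_edgeSet _).mpr huv.1)
      exact nrmE.2 _ _ (by omega) hz h3
    rw [h2]
    exact ih (h1 ▸ hQ) (h1 ▸ hz)

/-- **PFV.** The function `φ` is constant on the odd components `v` with `‖z v‖ ≠ 1`; along the edges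
between different components where it is not constant, the numbers `z v * z w` are roots of unity of an
order dividing the half label of the component graph. -/
theorem pFV : PFV := by
  intro T V _ Λ c hc z Q φ hP
  have hr : ∀ v, c (Function.surjInv hc.surj v) = v := fun v => Function.surjInv_eq hc.surj v
  have h1 : ∀ s t, c s = c t → Q (c s) → ‖(z (c s) : ℂ)‖ ≠ 1 → φ s = φ t := by
    intro s t hst hQ hz
    obtain ⟨p⟩ := (hc.iff s t).mp hst
    exact PFV_walk hc hP p hQ hz
  have hev : ∀ s t, Λ.graph.Adj s t → c s ≠ c t → Even (Λ.label s(s, t)) := by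
    intro s t hst hne
    by_contra h
    exact hne ((hc.iff s t).mpr (SimpleGraph.Adj.reachable (G := oddGraph Λ) ⟨hst, h⟩))
  have h2 : ∀ s t, Λ.graph.Adj s t → Q (c s) → Q (c t) → c s ≠ c t → φ s ≠ φ t →
      ‖(z (c s) : ℂ)‖ * ‖(z (c t) : ℂ)‖ = 1 := by
    intro s t hst hQs hQt hne hφ
    by_contra hn
    have h3 := hP.ev s t hst hQs hQt hφ (hev s t hst hne)
    have h4 := Λ.two_le s(s, t) ((SimpleGraph.mem_edgeSet _).mpr hst)
    exact nrmE.1 _ _ _ (by omega) hn h3
  refine ⟨fun v => φ (Function.surjInv hc.surj v), ?_, h2, ?_⟩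
  · intro t hQ hz
    exact h1 t _ (hr (c t)).symm hQ hz
  · intro v w hvw hQv hQw hzv hzw hψ
    obtain ⟨hne, s0, t0, hs0, ht0, hst0⟩ := (bar_adj Λ c v w).mp hvw
    have key : ∀ s t, c s = v → c t = w → φ s ≠ φ t := by
      intro s t hs ht h
      apply hψ
      have h3 : φ s = φ (Function.surjInv hc.surj v) :=
        h1 s _ (by rw [hr, hs]) (by rw [hs]; exact hQv) (by rw [hs]; exact hzv)
      have h4 : φ t = φ (Function.surjInv hc.surj w) :=
        h1 t _ (by rw [hr, ht]) (by rw [ht]; exact hQw) (by rw [ht]; exact hzw)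
      exact h3.symm.trans (h.trans h4)
    have hsum : ∀ s t, c s = v → c t = w → Λ.graph.Adj s t →
        1 ≤ Λ.label s(s, t) / 2 ∧
          ∑ i ∈ range (Λ.label s(s, t) / 2), ((z v : ℂ) * z w) ^ i = 0 := by
      intro s t hs ht hst
      have h4 := Λ.two_le s(s, t) ((SimpleGraph.mem_edgeSet _).mpr hst)
      refine ⟨by omega, ?_⟩
      have h5 := hP.ev s t hst (by rw [hs]; exact hQv) (by rw [ht]; exact hQw) (key s t hs ht)
        (hev s t hst (by rw [hs, ht]; exact hne))
      rw [hs, ht] at h5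
      exact h5
    have hpow : ∀ s t, c s = v → c t = w → Λ.graph.Adj s t →
        ((z v : ℂ) * z w) ^ (Λ.label s(s, t) / 2) = 1 := by
      intro s t hs ht hst
      have h5 := geom_sum_mul ((z v : ℂ) * z w) (Λ.label s(s, t) / 2)
      rw [(hsum s t hs ht hst).2, zero_mul] at h5
      exact sub_eq_zero.mp h5.symm
    refine ⟨?_, ?_, ?_⟩
    · have h5 := h2 s0 t0 hst0 (by rw [hs0]; exact hQv) (by rw [ht0]; exact hQw)
        (by rw [hs0, ht0]; exact hne) (key s0 t0 hs0 ht0)
      rw [hs0, ht0] at h5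
      exact h5
    · intro hu
      obtain ⟨h5, h6⟩ := hsum s0 t0 hs0 ht0 hst0
      rw [hu] at h6
      simp only [one_pow, sum_const, card_range, nsmul_eq_mul, mul_one, Nat.cast_eq_zero] at h6
      omega
    · have h7 : orderOf ((z v : ℂ) * z w) ∣ half (bar Λ c) v w :=
        dvd_bar_half Λ c v w _ fun s t hs ht hst => orderOf_dvd_of_pow_eq_one (hpow s t hs ht hst)
      exact orderOf_dvd_iff_pow_eq_one.mp h7

end WGBar
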