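import Pool.Agent.Lib.MP_107652_al.Bar.Spec
import Pool.Agent.Lib.MP_107652_al.ExpHom

/-!
# MP_107652_al, THEOREM R, module PreR: the matrices of an isomorphism satisfy Pre
-/

set_option autoImplicit false

open Finset

namespace WGBar

open WGirth WGTwin WGOne WGEven

private theorem PreR_ite (c : Prop) [Decidable c] :
    Multiplicative.toAdd (if c then Multiplicative.ofAdd (1 : ℤ) else 1) =
      if c then 1 else 0 := by
  split_ifs <;> simp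

/-- the entries of the matrix as exponent sums -/
private theorem PreR_entry {S T V W : Type} [Fintype T] [Fintype W] [DecidableEq W]
    {Γ : LGraph S} {Λ : LGraph T} {cΓ : S → V} {cΛ : T → W} {ψ : Artin Γ →* Artin Λ}
    {M : W → V → ℤ} (hM : IsMat cΓ cΛ ψ M) {pΛ : Artin Λ →* Artin (bar Λ cΛ)}
    (hp : ∀ t, pΛ (gen Λ t) = gen (bar Λ cΛ) (cΛ t))
    {y : W → (Artin (bar Λ cΛ) →* Multiplicative ℤ)}
    (hy : ∀ i j, y i (gen (bar Λ cΛ) j) = if i = j then Multiplicative.ofAdd 1 else 1) (i : W)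
    (s : S) : M i (cΓ s) = Multiplicative.toAdd (y i ((pΛ.comp ψ) (gen Γ s))) := by
  have h1 := hM (Multiplicative ℤ) ((y i).comp pΛ)
    (fun j => if i = j then Multiplicative.ofAdd 1 else 1) (fun t => by
      show y i (pΛ (gen Λ t)) = _
      rw [hp, hy]) s
  have h2 : ((y i).comp pΛ) (ψ (gen Γ s)) = y i ((pΛ.comp ψ) (gen Γ s)) := rfl
  rw [← h2, h1, Finset.prod_eq_single i]
  · rw [if_pos rfl, toAdd_zpow]
    simp
  · intro j _ hj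
    rw [if_neg (Ne.symm hj), one_zpow]
  · intro h
    exact absurd (Finset.mem_univ i) h

/-- the product of the two matrices -/
private theorem PreR_prod {S T V W : Type} [Fintype S] [Fintype W] [DecidableEq V]
    {Γ : LGraph S} {Λ : LGraph T} {cΓ : S → V} {cΛ : T → W} (hc : Function.Surjective cΓ)
    {ψ : Artin Γ →* Artin Λ} {χ : Artin Λ →* Artin Γ} (hχ : ∀ g, χ (ψ g) = g)
    {M : W → V → ℤ} {N : V → W → ℤ} (hM : IsMat cΓ cΛ ψ M)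
    {pΓ : Artin Γ →* Artin (bar Γ cΓ)} (hp : ∀ s, pΓ (gen Γ s) = gen (bar Γ cΓ) (cΓ s))
    {x : V → (Artin (bar Γ cΓ) →* Multiplicative ℤ)}
    (hx : ∀ i j, x i (gen (bar Γ cΓ) j) = if i = j then Multiplicative.ofAdd 1 else 1)
    (hN : ∀ v t, N v (cΛ t) = Multiplicative.toAdd (x v ((pΓ.comp χ) (gen Λ t)))) (v w : V) :
    ∑ i, N v i * M i w = if v = w then 1 else 0 := by
  obtain ⟨s, rfl⟩ := hc w
  have h1 := hM (Multiplicative ℤ) ((x v).comp (pΓ.comp χ))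
    (fun i => Multiplicative.ofAdd (N v i)) (fun t => by
      show x v ((pΓ.comp χ) (gen Λ t)) = Multiplicative.ofAdd (N v (cΛ t))
      rw [hN]
      rfl) s
  have h2 : ((x v).comp (pΓ.comp χ)) (ψ (gen Γ s)) = x v (gen (bar Γ cΓ) (cΓ s)) := by
    show x v (pΓ (χ (ψ (gen Γ s)))) = _
    rw [hχ, hp]
  rw [h2, hx] at h1
  have h3 := congrArg Multiplicative.toAdd h1
  rw [toAdd_prod, PreR_ite] at h3
  rw [h3]
  refine Finset.sum_congr rfl fun i _ => ?_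
  rw [toAdd_zpow, smul_eq_mul, mul_comm]
  rfl

theorem preR : BarHom → HeisR → StarPR → StarQR → PreR := by
  intro hB hH hP hQ S T V W _ _ _ _ _ _ Γ Λ cΓ cΛ hΓ hΛ φ M N hM hN
  obtain ⟨pΓ, hpΓ⟩ := hB S V Γ cΓ hΓ
  obtain ⟨pΛ, hpΛ⟩ := hB T W Λ cΛ hΛ
  obtain ⟨x, hx⟩ := expHom V (bar Γ cΓ) (bar_even Γ cΓ)
  obtain ⟨y, hy⟩ := expHom W (bar Λ cΛ) (bar_even Λ cΛ)
  have hM1 : ∀ i s, M i (cΓ s) =
      Multiplicative.toAdd (y i ((pΛ.comp φ.toMonoidHom) (gen Γ s))) :=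
    PreR_entry hM hpΛ hy.1
  have hN1 : ∀ v t, N v (cΛ t) =
      Multiplicative.toAdd (x v ((pΓ.comp φ.symm.toMonoidHom) (gen Λ t))) :=
    PreR_entry hN hpΓ hx.1
  obtain ⟨m1, m2⟩ := hH S V W Γ (bar Λ cΛ) cΓ hΓ (bar_even Λ cΛ) y hy
    (pΛ.comp φ.toMonoidHom) M hM1
  obtain ⟨n1, n2⟩ := hH T W V Λ (bar Γ cΓ) cΛ hΛ (bar_even Γ cΓ) x hx
    (pΓ.comp φ.symm.toMonoidHom) N hN1
  refine ⟨⟨?_, ?_, m1, m2, n1, n2, ?_, ?_⟩, ?_, ?_⟩
  · exact PreR_prod hΓ.surj (ψ := φ.toMonoidHom) (χ := φ.symm.toMonoidHom)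
      (fun g => φ.symm_apply_apply g) hM hpΓ hx.1 hN1
  · exact PreR_prod hΛ.surj (ψ := φ.symm.toMonoidHom) (χ := φ.toMonoidHom)
      (fun g => φ.apply_symm_apply g) hN hpΛ hy.1 hM1
  · exact hP T V W (bar Γ cΓ) Λ cΛ (bar_even Γ cΓ) hΛ x hx (pΓ.comp φ.symm.toMonoidHom) N hN1
  · exact hP S W V (bar Λ cΛ) Γ cΓ (bar_even Λ cΛ) hΓ y hy (pΛ.comp φ.toMonoidHom) M hM1
  · exact hQ T V W (bar Γ cΓ) Λ cΛ (bar_even Γ cΓ) hΛ x hx (pΓ.comp φ.symm.toMonoidHom) N hN1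
  · exact hQ S W V (bar Λ cΛ) Γ cΓ (bar_even Λ cΛ) hΓ y hy (pΛ.comp φ.toMonoidHom) M hM1

end WGBar
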