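import Pool.Agent.Lib.MP_107652_al.Bar.Spec

/-!
# MP_107652_al, THEOREM R: a space of cocycles of dimension at least two and non constant functions
-/

set_option autoImplicit false

open Finset

namespace WGBar

open WGirth WGTwin WGOne WGEven

/-- the conditions `ev` and `od` of `PF` -/
private def SolPF_EO {T V : Type} (Λ : LGraph T) (c : T → V) (z : V → ℂˣ) (Q : V → Prop)
    (φ : T → ℂ) : Prop :=
  (∀ s t, Λ.graph.Adj s t → Q (c s) → Q (c t) → φ s ≠ φ t → Even (Λ.label s(s, t)) →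
    ∑ i ∈ range (Λ.label s(s, t) / 2), ((z (c s) : ℂ) * z (c t)) ^ i = 0) ∧
  (∀ s t, Λ.graph.Adj s t → Q (c s) → Q (c t) → φ s ≠ φ t → ¬ Even (Λ.label s(s, t)) →
    ∑ i ∈ range (Λ.label s(s, t)), (-(z (c s) : ℂ)) ^ i = 0)

/-- an odd edge joins two vertices of the same component -/
private theorem SolPF_odd {T V : Type} {Λ : LGraph T} {c : T → V} (hC : CMap Λ c) {s t : T}
    (hst : Λ.graph.Adj s t) (hm : ¬ Even (Λ.label s(s, t))) : c s = c t := by
  have h0 : (oddGraph Λ).Adj s t := ⟨hst, hm⟩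
  exact (hC.iff s t).2 h0.reachable

/-- the value of `1 - z` is not zero -/
private theorem SolPF_ne {V : Type} {z : V → ℂˣ} {v : V} (h : z v ≠ 1) : (1 - (z v : ℂ)) ≠ 0 := by
  intro h1
  apply h
  ext
  rw [Units.val_one]
  exact (sub_eq_zero.1 h1).symm

/-- `(1 - z) φ` is a cocycle iff the conditions `ev` and `od` hold -/
private theorem SolPF_iff {T V : Type} {Λ : LGraph T} {c : T → V} (hC : CMap Λ c)
    {z : V → ℂˣ} {Q : V → Prop} (hz : ∀ v, Q v → z v ≠ 1) (φ : T → ℂ) :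
    (fun t : {t // Q (c t)} => (1 - (z (c t.1) : ℂ)) * φ t.1) ∈
      Sol (sub Λ (fun t => Q (c t))) (fun t => z (c t.1)) ↔ SolPF_EO Λ c z Q φ := by
  constructor
  · intro h
    rw [mem_Sol] at h
    refine ⟨?_, ?_⟩
    · intro s t hst hs ht hne hev
      have h1 := h ⟨s, hs⟩ ⟨t, ht⟩ hst
      unfold RelE at h1
      rw [sub_label, if_pos hev] at h1
      have h2 : (∑ i ∈ range (Λ.label s(s, t) / 2), ((z (c s) : ℂ) * z (c t)) ^ i) *
          ((1 - (z (c s) : ℂ)) * (1 - (z (c t) : ℂ)) * (φ s - φ t)) = 0 := by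
        linear_combination h1
      rcases mul_eq_zero.1 h2 with h3 | h3
      · exact h3
      · exact absurd h3 (mul_ne_zero (mul_ne_zero (SolPF_ne (hz _ hs)) (SolPF_ne (hz _ ht)))
          (sub_ne_zero.2 hne))
    · intro s t hst hs ht hne hev
      have h1 := h ⟨s, hs⟩ ⟨t, ht⟩ hst
      unfold RelE at h1
      rw [sub_label, if_neg hev] at h1
      have hc := SolPF_odd hC hst hev
      have h2 : (∑ i ∈ range (Λ.label s(s, t)), (-(z (c s) : ℂ)) ^ i) *
          ((1 - (z (c s) : ℂ)) * (φ s - φ t)) = 0 := by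
        have h3 : (1 - (z (c s) : ℂ)) * (φ s - φ t) =
            (1 - (z (c s) : ℂ)) * φ s - (1 - (z (c t) : ℂ)) * φ t := by
          rw [← hc]
          ring
        rw [h3]
        exact h1
      rcases mul_eq_zero.1 h2 with h3 | h3
      · exact h3
      · exact absurd h3 (mul_ne_zero (SolPF_ne (hz _ hs)) (sub_ne_zero.2 hne))
  · rintro ⟨hE, hO⟩
    rw [mem_Sol]
    intro s t hst
    obtain ⟨s, hs⟩ := s
    obtain ⟨t, ht⟩ := t
    have hst' : Λ.graph.Adj s t := hst
    unfold RelE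
    rw [sub_label]
    by_cases hev : Even (Λ.label s(s, t))
    · rw [if_pos hev]
      by_cases hφ : φ s = φ t
      · change (∑ i ∈ range (Λ.label s(s, t) / 2), ((z (c s) : ℂ) * z (c t)) ^ i) *
          ((1 - (z (c t) : ℂ)) * ((1 - (z (c s) : ℂ)) * φ s) -
            (1 - (z (c s) : ℂ)) * ((1 - (z (c t) : ℂ)) * φ t)) = 0
        rw [hφ]
        ring
      · have h1 := hE s t hst' hs ht hφ hev
        change (∑ i ∈ range (Λ.label s(s, t) / 2), ((z (c s) : ℂ) * z (c t)) ^ i) *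
          ((1 - (z (c t) : ℂ)) * ((1 - (z (c s) : ℂ)) * φ s) -
            (1 - (z (c s) : ℂ)) * ((1 - (z (c t) : ℂ)) * φ t)) = 0
        rw [h1, zero_mul]
    · rw [if_neg hev]
      have hc := SolPF_odd hC hst' hev
      change (∑ i ∈ range (Λ.label s(s, t)), (-(z (c s) : ℂ)) ^ i) *
        ((1 - (z (c s) : ℂ)) * φ s - (1 - (z (c t) : ℂ)) * φ t) = 0
      by_cases hφ : φ s = φ t
      · rw [hφ, hc, sub_self, mul_zero]
      · rw [hO s t hst' hs ht hφ hev, zero_mul]

theorem solPF : SolPF := by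
  intro T V _ Λ c hC z Q hz
  have hw : (fun t : {t // Q (c t)} => (1 - (z (c t.1) : ℂ)) * 1) ∈
      Sol (sub Λ (fun t => Q (c t))) (fun t => z (c t.1)) :=
    (SolPF_iff hC hz (fun _ => 1)).2
      ⟨fun s t _ _ _ h => absurd rfl h, fun s t _ _ _ h => absurd rfl h⟩
  constructor
  · intro h2
    have hex : ∃ b : Sol (sub Λ (fun t => Q (c t))) (fun t => z (c t.1)),
        ¬ ∃ x : ℂ, x • (⟨_, hw⟩ : Sol (sub Λ (fun t => Q (c t))) (fun t => z (c t.1))) = b := by
      by_contra hN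
      push Not at hN
      have h1 := finrank_le_one _ hN
      omega
    obtain ⟨⟨b, hb⟩, hn⟩ := hex
    classical
    obtain ⟨φ, hφ⟩ : ∃ φ : T → ℂ, ∀ t : {t // Q (c t)}, φ t.1 = b t / (1 - (z (c t.1) : ℂ)) :=
      ⟨fun t => if h : Q (c t) then b ⟨t, h⟩ / (1 - (z (c t) : ℂ)) else 0,
        fun t => dif_pos t.2⟩
    have hbφ : (fun t : {t // Q (c t)} => (1 - (z (c t.1) : ℂ)) * φ t.1) = b := by
      funext t
      rw [hφ t]
      exact mul_div_cancel₀ _ (SolPF_ne (hz _ t.2))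
    have hEO : SolPF_EO Λ c z Q φ := by
      rw [← SolPF_iff hC hz, hbφ]
      exact hb
    refine ⟨φ, hEO.1, hEO.2, ?_⟩
    by_contra hc
    push Not at hc
    apply hn
    by_cases hne : ∃ t0, Q (c t0)
    · obtain ⟨t0, ht0⟩ := hne
      refine ⟨φ t0, Subtype.ext (funext fun t => ?_)⟩
      change φ t0 * ((1 - (z (c t.1) : ℂ)) * 1) = b t
      rw [← congrFun hbφ t, hc t0 t.1 ht0 t.2]
      ring
    · exact ⟨0, Subtype.ext (funext fun t => absurd ⟨t.1, t.2⟩ hne)⟩
  · rintro ⟨φ, hφ⟩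
    have hb : (fun t : {t // Q (c t)} => (1 - (z (c t.1) : ℂ)) * φ t.1) ∈
        Sol (sub Λ (fun t => Q (c t))) (fun t => z (c t.1)) := by
      rw [SolPF_iff hC hz]
      exact ⟨hφ.ev, hφ.od⟩
    obtain ⟨s, t, hs, ht, hst⟩ := hφ.nc
    have hli : LinearIndependent ℂ
        ![(⟨_, hw⟩ : Sol (sub Λ (fun t => Q (c t))) (fun t => z (c t.1))), ⟨_, hb⟩] := by
      rw [LinearIndependent.pair_iff]
      intro x y hxy
      have h3 := congrFun (congrArg Subtype.val hxy) ⟨s, hs⟩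
      have h4 := congrFun (congrArg Subtype.val hxy) ⟨t, ht⟩
      have h5 : x * ((1 - (z (c s) : ℂ)) * 1) + y * ((1 - (z (c s) : ℂ)) * φ s) = 0 := h3
      have h6 : x * ((1 - (z (c t) : ℂ)) * 1) + y * ((1 - (z (c t) : ℂ)) * φ t) = 0 := h4
      have h7 : x + y * φ s = 0 := by
        have h : (1 - (z (c s) : ℂ)) * (x + y * φ s) = 0 := by linear_combination h5
        exact (mul_eq_zero.1 h).resolve_left (SolPF_ne (hz _ hs))
      have h8 : x + y * φ t = 0 := by
        have h : (1 - (z (c t) : ℂ)) * (x + y * φ t) = 0 := by linear_combination h6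
        exact (mul_eq_zero.1 h).resolve_left (SolPF_ne (hz _ ht))
      have h9 : y = 0 := by
        have h : y * (φ s - φ t) = 0 := by linear_combination h7 - h8
        exact (mul_eq_zero.1 h).resolve_right (sub_ne_zero.2 hst)
      rw [h9, zero_mul, add_zero] at h7
      exact ⟨h7, h9⟩
    have h := hli.fintype_card_le_finrank
    rwa [Fintype.card_fin] at h

end WGBar
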