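import Pool.Agent.Lib.MP_107652_al.Bar.Spec
import Pool.Agent.Lib.MP_107652_al.Twin.StarEx
import Pool.Agent.Lib.MP_107652_al.Twin.RelL
import Pool.Agent.Lib.MP_107652_al.Twin.ResNil
import Pool.Agent.Lib.MP_107652_al.Twin.SGen

/-!
# MP_107652_al, THEOREM R: representations over `F_p[[X]]`, pulled back to an arbitrary Artin group
-/

set_option autoImplicit false

open Finset

namespace WGBar

open WGirth WGTwin WGOne WGEven

/-- two affine maps with the same linear part -/
private theorem StarCore_alt {R : Type} [CommRing R] (m : ℕ) (g h : AR R) (e : g.a = h.a) :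
    (alt m g h).a = g.a ^ m ∧ (alt m h g).a = g.a ^ m ∧
      (alt m g h).b - (alt m h g).b = (∑ i ∈ range m, (-(g.a : R)) ^ i) * (g.b - h.b) := by
  induction m with
  | zero => simp [alt]
  | succ m ih =>
    obtain ⟨h1, h2, h3⟩ := ih
    refine ⟨?_, ?_, ?_⟩
    · show g.a * (alt m h g).a = _
      rw [h2, pow_succ']
    · show h.a * (alt m g h).a = _
      rw [h1, ← e, pow_succ']
    · show (g.b + g.a * (alt m h g).b) - (h.b + h.a * (alt m g h).b) = _
      rw [← e, Finset.sum_range_succ']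
      have e2 : ∑ i ∈ range m, (-(g.a : R)) ^ (i + 1) =
          -(g.a : R) * ∑ i ∈ range m, (-(g.a : R)) ^ i := by
        rw [Finset.mul_sum]
        refine Finset.sum_congr rfl fun i _ => ?_
        ring
      rw [e2, pow_zero]
      linear_combination -(g.a : R) * h3

/-- the cyclotomic factor of an odd relation does not vanish -/
private theorem StarCore_ne {R : Type} [CommRing R] [IsDomain R] {X : R}
    (sep : ∀ x : R, (∀ m : ℕ, X ^ m ∣ x) → x = 0) {a : R} (ha : X ∣ 1 - a) {m : ℕ}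
    (hm : ¬ Even m) : ∑ i ∈ range m, (-a) ^ i ≠ 0 := by
  intro h
  have h1 : X ∣ ∑ i ∈ range m, (-a) ^ i - ∑ i ∈ range m, (-1 : R) ^ i := by
    rw [← Finset.sum_sub_distrib]
    refine Finset.dvd_sum fun i _ => ?_
    refine dvd_trans ?_ (sub_dvd_pow_sub_pow (-a) (-1) i)
    have h2 : -a - -1 = 1 - a := by ring
    rw [h2]
    exact ha
  rw [h, neg_one_geom_sum, if_neg hm, zero_sub, dvd_neg] at h1
  exact one_ne_zero (sep 1 fun k => ((isUnit_of_dvd_one h1).pow k).dvd)

/-- **StarCore** -/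
theorem starCore : StarCore := by
  classical
  intro S V W _ _ _ _ _ Γ Λ c hc x hx ψ N hN p R _ _ X t hR f d hd hne Sf Tf M' hSf hsum
  obtain ⟨g₀, h₀, hne⟩ := hne
  have hlin := StarExAux.lin_exp hx t f d hd
  have hX : ∀ g, X ∣ 1 - ((f g).a : R) := by
    intro g
    rw [hlin g]
    exact StarExAux.dvd_one_sub hR.unit _
  have hva : ∀ s, (f (ψ (gen Λ s))).a = t ^ (∑ v, d v * N v (c s)) := by
    intro s
    rw [hlin]
    exact congrArg (fun n => t ^ n) (Finset.sum_congr rfl fun v _ => by rw [hN])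
  -- the values are constant on the components
  have hodd : ∀ s s', (oddGraph Λ).Adj s s' → f (ψ (gen Λ s)) = f (ψ (gen Λ s')) := by
    intro s s' hss
    have hcc : c s = c s' := (hc.iff s s').mpr hss.reachable
    have ha : (f (ψ (gen Λ s))).a = (f (ψ (gen Λ s'))).a := by rw [hva, hva, hcc]
    have h1 := gen_relO Λ hss.1
    have h2 := congrArg (fun z => f (ψ z)) h1
    simp only [map_alt] at h2
    obtain ⟨_, _, h3⟩ := StarCore_alt (Λ.label s(s, s')) _ _ ha
    rw [h2, sub_self] at h3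
    have h4 := StarCore_ne hR.sep (hX (ψ (gen Λ s))) hss.2
    have h5 := (mul_eq_zero.mp h3.symm).resolve_left h4
    exact AR.ext ha (sub_eq_zero.mp h5)
  have hreach : ∀ s s', (oddGraph Λ).Walk s s' → f (ψ (gen Λ s)) = f (ψ (gen Λ s')) := by
    intro s s' w
    induction w with
    | nil => rfl
    | cons h _ ih => exact (hodd _ _ h).trans ih
  have hsame : ∀ s s', c s = c s' → f (ψ (gen Λ s)) = f (ψ (gen Λ s')) := by
    intro s s' h
    obtain ⟨w⟩ := (hc.iff s s').mp h
    exact hreach s s' w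
  obtain ⟨r, hr⟩ : ∃ r : W → S, ∀ w, c (r w) = w :=
    ⟨Function.surjInv hc.surj, Function.surjInv_eq hc.surj⟩
  obtain ⟨F, hFdef⟩ : ∃ F : W → AR R, F = fun w => f (ψ (gen Λ (r w))) := ⟨_, rfl⟩
  have hF : ∀ s, f (ψ (gen Λ s)) = F (c s) := by
    intro s
    rw [hFdef]
    exact hsame _ _ (hr (c s)).symm
  have hFa : ∀ w, (F w).a = t ^ (∑ v, d v * N v w) := by
    intro w
    have h1 := hva (r w)
    rw [hF, hr] at h1
    exact h1
  refine ⟨F, hFa, ?_, ?_⟩
  · intro w u hwu
    obtain ⟨hne', s₀, t₀, hs₀, ht₀, hst₀⟩ := (bar_adj Λ c w u).mp hwu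
    by_cases hcomm : F w * F u = F u * F w
    · exact Or.inl hcomm
    right
    have key : ∀ s s', c s = w → c s' = u → Λ.graph.Adj s s' →
        (∑ v, d v * N v w) + (∑ v, d v * N v u) = 0 ∧ p ∣ Λ.label s(s, s') / 2 := by
      intro s s' hs hs' hadj
      have hev : Even (Λ.label s(s, s')) := by
        by_contra hno
        have h1 : (oddGraph Λ).Adj s s' := ⟨hadj, hno⟩
        have h2 : c s = c s' := (hc.iff s s').mpr h1.reachable
        exact hne' (by rw [← hs, ← hs', h2])
      obtain ⟨k, hk⟩ := hev.two_dvd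
      have hk1 : 1 ≤ k := by
        have h1 := Λ.two_le s(s, s') ((SimpleGraph.mem_edgeSet _).mpr hadj)
        omega
      have h1 := gen_relO Λ hadj
      have h2 := congrArg (fun z => f (ψ z)) h1
      simp only [map_alt] at h2
      rw [hk, alt_two_mul, alt_two_mul, hF, hF, hs, hs'] at h2
      rcases relL p R X t hR _ _ _ _ k (hFa w) (hFa u) hk1 h2 with h3 | ⟨h3, h4⟩
      · exact absurd h3 hcomm
      · refine ⟨h3, ?_⟩
        rw [hk, Nat.mul_div_cancel_left k (by norm_num)]
        exact h4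
    exact ⟨(key s₀ t₀ hs₀ ht₀ hst₀).1,
      dvd_bar_half Λ c w u p fun s s' hs hs' hadj => (key s s' hs hs' hadj).2⟩
  · by_contra hcon
    have hall : ∀ w ∈ Tf, ∀ u ∈ Tf, F w * F u = F u * F w := by
      intro w hw u hu
      by_contra h
      exact hcon ⟨w, hw, u, hu, h⟩
    have hrinj : Function.Injective r := fun a b hab => by
      rw [← hr a, ← hr b, hab]
    have hH := StarExAux.closure_comm f {y | ∃ w ∈ Tf.image r, y = ψ (gen Λ w)} (by
      rintro y ⟨s, hs, rfl⟩ y' ⟨s', hs', rfl⟩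
      obtain ⟨w, hw, rfl⟩ := Finset.mem_image.mp hs
      obtain ⟨w', hw', rfl⟩ := Finset.mem_image.mp hs'
      rw [hF, hF, hr, hr]
      exact hall w hw w' hw')
    have hS := sGen V S Γ Λ x hx ψ (AR R) f Sf (Tf.image r) (fun s v => M' (c s) v) hSf (by
      intro s hs s' hs'
      rw [Finset.sum_image fun a _ b _ hab => hrinj hab, ← hsum s hs s' hs']
      refine Finset.sum_congr rfl fun w _ => ?_
      have h1 : mat x ψ s' (r w) = N s' w := by
        show Multiplicative.toAdd (x s' (ψ (gen Λ (r w)))) = N s' w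
        rw [← hN, hr]
      rw [h1, hr])
    exact hne (resNil R X hR.sep (Artin Γ) f
      (Subgroup.closure {y | ∃ w ∈ Tf.image r, y = ψ (gen Λ w)}) hX hS hH g₀ h₀)

end WGBar
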