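import Pool.Agent.Lib.MP_107652_al.Bar.Spec

/-!
# MP_107652_al, THEOREM R: module StarPF
-/

set_option autoImplicit false

open Finset

namespace WGBar

open WGirth WGTwin WGOne WGEven

section

variable {S T V : Type} [Fintype S] [Fintype T] [Fintype V] [DecidableEq V]
  {Γ : LGraph S} {Λ : LGraph T} {cΓ : S → V} {cΛ : T → V} {M N : V → V → ℤ} {x : V}
  {S0 S1 : Finset V} {ε : V → ℤ} {Gen Z : Finset V} {q : Option V → ℝ} {r : ℂˣ} {z : V → ℂˣ}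
  {w0 : V}

private theorem StarPF_edge (h : LD Γ Λ cΓ cΛ M N x S0 S1 ε Gen Z q r z w0) {s t : T}
    (hst : Λ.graph.Adj s t) (hQ : QQ (bar Γ cΓ).graph x z Gen (cΛ t)) (hs : cΛ s ∈ S0)
    (ht : cΛ t ∉ S0) :
    ∑ i ∈ range (Λ.label s(s, t) / 2), ((z (cΛ s) : ℂ) * z (cΛ t)) ^ i = 0 := by
  have hne : cΛ s ≠ cΛ t := fun he => ht (he ▸ hs)
  have hadj0 : (bar Λ cΛ).graph.Adj (cΛ s) (cΛ t) := ⟨hne, s, t, rfl, rfl, hst⟩
  have hadj : (bar Γ cΓ).graph.Adj (cΛ s) (cΛ t) := by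
    rw [← h.tdr.gr]
    exact hadj0
  have htw := h.sd.s0 _ hs
  have hSt : St (bar Γ cΓ).graph x (cΛ t) :=
    star_tw (clq_tw h.sd.clq htw) (gtw_symm htw) (Or.inr hadj)
  have hz : z (cΛ t) ≠ 1 := by
    rcases hQ with h1 | h1
    · exact h1.2
    · exact absurd hSt ((h.mem _).mp (Finset.mem_union_left _ h1))
  have hmem : cΛ t ∈ S1 := by
    by_contra hcon
    apply hz
    apply h.one _ hSt
    rw [Finset.mem_union]
    exact fun h2 => h2.elim ht hcon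
  obtain ⟨h1, h2⟩ := h.sd.deg _ hs _ hmem
  obtain ⟨k, hk⟩ := bar_half_dvd Λ cΛ hst
  have h3 : ((z (cΛ s) : ℂ) * z (cΛ t)) ^ (Λ.label s(s, t) / 2) = 1 := by
    rw [hk, pow_mul, h2, one_pow]
  have h4 := geom_sum_mul ((z (cΛ s) : ℂ) * z (cΛ t)) (Λ.label s(s, t) / 2)
  rw [h3, sub_self] at h4
  exact (mul_eq_zero.mp h4).resolve_right (sub_ne_zero.mpr h1)

private theorem StarPF_ne (h : LD Γ Λ cΓ cΛ M N x S0 S1 ε Gen Z q r z w0) {v : V}
    (hv : v ∈ S0 ∪ S1) : z v ≠ 1 := by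
  intro h1
  have h2 := h.sd.nrm v hv
  rw [h1, Units.val_one, norm_one] at h2
  rcases h.sd.eps v hv with h3 | h3
  · rw [h3, zpow_one] at h2
    norm_num at h2
  · rw [h3, zpow_neg_one] at h2
    norm_num at h2

end

open Classical in
theorem starPF : StarPF := by
  intro S T V _ _ _ _ Γ Λ cΓ cΛ M N x S0 S1 ε Gen Z q r z w0 h
  refine ⟨fun t => if cΛ t ∈ S0 then 1 else 0, ?_, ?_, ?_⟩
  · intro s t hst hs ht hne _
    by_cases h1 : cΛ s ∈ S0
    · by_cases h2 : cΛ t ∈ S0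
      · rw [if_pos h1, if_pos h2] at hne
        exact absurd rfl hne
      · exact StarPF_edge h hst ht h1 h2
    · by_cases h2 : cΛ t ∈ S0
      · have h3 := StarPF_edge h hst.symm hs h2 h1
        rw [Sym2.eq_swap, mul_comm (z (cΛ t) : ℂ)] at h3
        exact h3
      · rw [if_neg h1, if_neg h2] at hne
        exact absurd rfl hne
  · intro s t hst _ _ hne hodd
    exfalso
    apply hne
    have h1 : cΛ s = cΛ t := (h.tdr.cmΛ.iff s t).mpr
      (SimpleGraph.Adj.reachable (G := oddGraph Λ) ⟨hst, hodd⟩)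
    rw [h1]
  · obtain ⟨s0, hs0⟩ := h.sd.ne0
    obtain ⟨s1, hs1⟩ := h.sd.ne1
    obtain ⟨s, rfl⟩ := h.tdr.cmΛ.surj s0
    obtain ⟨t, rfl⟩ := h.tdr.cmΛ.surj s1
    have h2 : cΛ t ∉ S0 := fun h3 => (Finset.disjoint_left.mp h.sd.dis) h3 hs1
    refine ⟨s, t, Or.inl ⟨?_, StarPF_ne h (Finset.mem_union_left _ hs0)⟩,
      Or.inl ⟨h.sd.s1 _ hs1, StarPF_ne h (Finset.mem_union_right _ hs1)⟩, ?_⟩
    · rcases clq_adj h.sd.clq (h.sd.s0 _ hs0) with h3 | h3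
      · exact Or.inl h3
      · exact Or.inr h3.symm
    · rw [if_pos hs0, if_neg h2]
      exact one_ne_zero

end WGBar
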