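import Pool.Agent.Lib.MP_107652_al.Bar.Spec
import Pool.Agent.Lib.MP_107652_al.Twin.StarEx
import Pool.Agent.Lib.MP_107652_al.Twin.GoodEx
import Pool.Agent.Lib.MP_107652_al.Twin.RelL
import Pool.Agent.Lib.MP_107652_al.Twin.RepP

/-!
# MP_107652_al, THEOREM R: star representations in characteristic `p`, restricted to a clique
-/

set_option autoImplicit false

open Finset

namespace WGBar

open WGirth WGTwin WGOne WGEven

open WGTwin.StarExAux in
/-- **StarQR**. -/
theorem starQR : StarCore → StarQR := by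
  intro hcore S V W _ _ _ _ _ Γ Λ c hΓ hc x hx ψ N hN
  intro p hp a b hab hpab Sf T M' haS hbS hsum hadj hT
  by_contra hcon
  obtain ⟨R, iR, iD, X, t, hR⟩ := goodEx p hp
  have hbA : b ∉ ({a} : Finset V) := by
    rw [Finset.mem_singleton]
    exact hab.ne.symm
  obtain ⟨f, hfa, hf1, g₀, h₀, hne⟩ := repP p R X t hR V Γ hΓ a b hab hpab {a}
    (Finset.mem_singleton_self a) hbA
    (by
      intro y hy z hz h
      rw [Finset.mem_singleton.1 hy, Finset.mem_singleton.1 hz] at h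
      exact h.ne rfl) (fun _ => 0)
  obtain ⟨d, hd⟩ : ∃ d : V → ℤ, d = fun v =>
      if v = a then (1 : ℤ) else if v = b then -1 else if v ∈ ({a} : Finset V) then 0 else 0 :=
    ⟨_, rfl⟩
  have hfa' : ∀ v, (f (gen Γ v)).a = t ^ d v := fun v => by rw [hd]; exact hfa v
  have hnn : ∀ w, ∑ v, d v * N v w = N a w - N b w := by
    intro w
    rw [hd]
    refine (sum_nn N a b {a} hab.ne hbA (fun _ => 0) w).trans ?_
    simp [nn]
  obtain ⟨F, hFa, hFc, w₁, hw₁, w₂, hw₂, hF12⟩ := hcore S V W Γ Λ c hc x hx ψ N hN p R X t hR f d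
    hfa' ⟨g₀, h₀, hne⟩ Sf T M'
    (fun v hv => hf1 v (fun h => hv (h ▸ hbS)) (fun h => by
      rw [Finset.mem_singleton] at h
      exact hv (h ▸ haS))) hsum
  have hFa' : ∀ w, (F w).a = t ^ (N a w - N b w) := fun w => by rw [hFa, hnn]
  obtain ⟨v0, hv0, hv0n⟩ := hT
  have hv0a : (F v0).a ≠ 1 := fun h => hv0n (hR.inf _ ((hFa' v0).symm.trans h))
  -- every element of `T` commutes with `v0`
  have h1 : ∀ u ∈ T, F v0 * F u = F u * F v0 := by
    intro u hu
    by_cases huv : v0 = u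
    · rw [huv]
    · rcases hFc v0 u (hadj v0 hv0 u hu huv) with h | ⟨h, h'⟩
      · exact h
      · rw [hnn, hnn] at h
        exact absurd ⟨v0, hv0, u, hu, huv, hv0n, h, h'⟩ hcon
  exact hF12 (cTL R _ _ _ hv0a (h1 _ hw₁) (h1 _ hw₂))

end WGBar
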