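import Pool.Agent.Lib.MP_107652_al.Bar.SpecW

set_option autoImplicit false

namespace WGBar

open WGirth WGOne

theorem pW0 : W0 := by
  refine ⟨?_, ?_⟩
  · intro S I Γ comp hc u v huv
    obtain ⟨w⟩ := (hc.iff u v).1 huv
    clear huv
    induction w with
    | nil =>
      refine ⟨SimpleGraph.Walk.nil, fun e he => ?_⟩
      rw [SimpleGraph.Walk.edges_nil] at he
      exact absurd he List.not_mem_nil
    | cons h p ih =>
      obtain ⟨q, hq⟩ := ih
      refine ⟨SimpleGraph.Walk.cons h.1 q, ?_⟩
      intro e he
      rw [SimpleGraph.Walk.edges_cons, List.mem_cons] at he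
      rcases he with rfl | he
      · exact h.2
      · exact hq e he
  · intro S Γ hno s t h w hw
    classical
    have hcyc : (SimpleGraph.Walk.cons h w.bypass).IsCycle :=
      (SimpleGraph.Walk.cons_isCycle_iff _ _).2
        ⟨w.bypass_isPath, fun he => hw (w.edges_bypass_subset_edges he)⟩
    have h1 := hno s _ hcyc
    refine ⟨w.bypass, w.bypass_isPath, w.edges_bypass_subset_edges, hcyc, h1 _ ?_, fun e he => h1 e ?_⟩
    · rw [SimpleGraph.Walk.edges_cons]
      exact List.mem_cons_self
    · rw [SimpleGraph.Walk.edges_cons]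
      exact List.mem_cons_of_mem _ he

end WGBar
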