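import Pool.Agent.Lib.MP_107652_al.Bar.SpecW

set_option autoImplicit false

namespace WGBar

open WGirth WGOne

theorem pW1 : W0 → W1 := by
  intro hW0
  refine ⟨?_, ?_⟩
  · intro S I Γ comp hc hno s t h he hst
    obtain ⟨w, hw⟩ := hW0.1 S I Γ comp hc t s hst.symm
    have hnot : s(s, t) ∉ w.edges := fun h1 => hw _ h1 he
    obtain ⟨r, -, hr1, -, -, hr2⟩ := hW0.2 S Γ hno s t h w hnot
    cases r with
    | nil => exact h.ne rfl
    | @cons _ x _ h' r' =>
      have h3 : s(t, x) ∈ (SimpleGraph.Walk.cons h' r').edges := by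
        rw [SimpleGraph.Walk.edges_cons]
        exact List.mem_cons_self
      exact hw _ (hr1 h3) (hr2 _ h3)
  · intro S I Γ comp hc hno s t s' t' h h' hs ht hne
    have he : Even (Γ.label s(s, t)) := by
      by_contra ho
      exact hne (comp_eq_of_odd hc h ho)
    by_contra hcon
    have hdiff : s(s, t) ≠ s(s', t') := by
      intro h1
      rcases Sym2.eq_iff.1 h1 with ⟨rfl, rfl⟩ | ⟨rfl, rfl⟩
      · exact hcon ⟨rfl, rfl⟩
      · exact hne ht.symm
    obtain ⟨w1, hw1⟩ := hW0.1 S I Γ comp hc t t' ht
    obtain ⟨w2, hw2⟩ := hW0.1 S I Γ comp hc s' s hs.symm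
    let w : Γ.graph.Walk t s := w1.append (SimpleGraph.Walk.cons h'.symm w2)
    have hw : ∀ e ∈ w.edges, ¬ Even (Γ.label e) ∨ e = s(t', s') := by
      intro e hmem
      rw [SimpleGraph.Walk.edges_append, SimpleGraph.Walk.edges_cons, List.mem_append,
        List.mem_cons] at hmem
      rcases hmem with h1 | h1 | h1
      · exact Or.inl (hw1 e h1)
      · exact Or.inr h1
      · exact Or.inl (hw2 e h1)
    have hnot : s(s, t) ∉ w.edges := by
      intro h1
      rcases hw _ h1 with h2 | h2
      · exact h2 he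
      · exact hdiff (h2.trans Sym2.eq_swap)
    obtain ⟨r, hr0, hr1, -, -, hr2⟩ := hW0.2 S Γ hno s t h w hnot
    have hall : ∀ e ∈ r.edges, e = s(t', s') := by
      intro e hmem
      rcases hw e (hr1 hmem) with h2 | h2
      · exact absurd (hr2 e hmem) h2
      · exact h2
    have hnd := hr0.isTrail.edges_nodup
    cases r with
    | nil => exact h.ne rfl
    | cons h1 r1 =>
      have e1 := hall _ (by rw [SimpleGraph.Walk.edges_cons]; exact List.mem_cons_self)
      cases r1 with
      | nil => exact hdiff (Sym2.eq_swap.trans (e1.trans Sym2.eq_swap))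
      | cons h2 r2 =>
        have e2 := hall _ (by
          rw [SimpleGraph.Walk.edges_cons, SimpleGraph.Walk.edges_cons]
          exact List.mem_cons_of_mem _ List.mem_cons_self)
        rw [SimpleGraph.Walk.edges_cons, SimpleGraph.Walk.edges_cons, List.nodup_cons] at hnd
        refine hnd.1 ?_
        rw [e1, ← e2]
        exact List.mem_cons_self

end WGBar
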