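import Pool.Agent.Lib.MP_107652_al.Bar.SpecW

/-!
# Labels of the component graph
-/

set_option autoImplicit false

namespace WGBar

open WGirth WGOne

theorem pW2 : W1 → W2 := by
  rintro ⟨h1a, h1b⟩
  refine ⟨?_, ?_⟩
  · intro S I _ Γ comp hc ho s t hst hne
    have hd1 := bar_half_dvd Γ comp hst
    have hd2 : Γ.label s(s, t) / 2 ∣ half (bar Γ comp) (comp s) (comp t) := by
      refine dvd_bar_half Γ comp (comp s) (comp t) _ fun s' t' hs' ht' hst' => ?_
      obtain ⟨h3, h4⟩ := h1b S I Γ comp hc ho s t s' t' hst hst' hs'.symm ht'.symm hne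
      rw [h3, h4]
    have hh := Nat.dvd_antisymm hd1 hd2
    have hev : Even (Γ.label s(s, t)) := by
      by_contra h
      exact hne (comp_eq_of_odd hc hst h)
    have hadj : (bar Γ comp).graph.Adj (comp s) (comp t) := ⟨hne, s, t, rfl, rfl, hst⟩
    rw [(bar_even Γ comp).label_eq hadj, hh]
    obtain ⟨k, hk⟩ := hev
    omega
  · intro S I Γ comp hc ho e e'
    induction e using Sym2.ind with
    | _ s t =>
      induction e' using Sym2.ind with
      | _ s' t' =>
        intro he he' hev hev' hmap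
        rw [SimpleGraph.mem_edgeSet] at he he'
        have hne := h1a S I Γ comp hc ho s t he hev
        rw [Sym2.map_mk, Sym2.map_mk] at hmap
        rcases Sym2.eq_iff.mp hmap with ⟨h3, h4⟩ | ⟨h3, h4⟩
        · obtain ⟨h5, h6⟩ := h1b S I Γ comp hc ho s t s' t' he he' h3 h4 hne
          rw [h5, h6]
        · obtain ⟨h5, h6⟩ := h1b S I Γ comp hc ho s t t' s' he he'.symm h3 h4 hne
          rw [h5, h6, Sym2.eq_swap]

end WGBar
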