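import Pool.Agent.Lib.MP_107652_al.Bar.SpecW

/-!
# THEOREM R, girth part: lifting of walks
-/

set_option autoImplicit false

open Finset

namespace WGBar

open WGirth WGOne

private theorem W3_lift (hW0 : W0) {S I : Type} [Fintype S] (Γ : LGraph S) (comp : S → I)
    (hc : CMap Γ comp) {C D : I} (p : (bar Γ comp).graph.Walk C D) :
    ∀ u v : S, comp u = C → comp v = D →
      ∃ w : Γ.graph.Walk u v, ∀ e ∈ w.edges, ¬ Even (Γ.label e) ∨ e.map comp ∈ p.edges := by
  induction p with
  | nil =>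
    intro u v hu hv
    obtain ⟨w, hw⟩ := hW0.1 S I Γ comp hc u v (hu.trans hv.symm)
    exact ⟨w, fun e he => Or.inl (hw e he)⟩
  | @cons C C' D h q ih =>
    intro u v hu hv
    obtain ⟨-, s, t, hs, ht, hst⟩ := h
    obtain ⟨w1, hw1⟩ := hW0.1 S I Γ comp hc u s (hu.trans hs.symm)
    obtain ⟨w2, hw2⟩ := ih t v ht hv
    refine ⟨w1.append (SimpleGraph.Walk.cons hst w2), fun e he => ?_⟩
    rw [SimpleGraph.Walk.edges_append, List.mem_append, SimpleGraph.Walk.edges_cons,
      List.mem_cons] at he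
    rcases he with he | he | he
    · exact Or.inl (hw1 e he)
    · refine Or.inr ?_
      rw [he, SimpleGraph.Walk.edges_cons, Sym2.map_mk, hs, ht]
      exact List.mem_cons_self
    · rcases hw2 e he with h1 | h1
      · exact Or.inl h1
      · refine Or.inr ?_
        rw [SimpleGraph.Walk.edges_cons]
        exact List.mem_cons_of_mem _ h1

private theorem W3_image (hW1 : W1) {S I : Type} [Fintype S] (Γ : LGraph S) (comp : S → I)
    (hc : CMap Γ comp) (ho : NoOdd Γ) {u v : S} (p : Γ.graph.Walk u v) :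
    (∀ e ∈ p.edges, Even (Γ.label e)) →
      ∃ q : (bar Γ comp).graph.Walk (comp u) (comp v), q.edges = p.edges.map (Sym2.map comp) := by
  induction p with
  | nil =>
    intro _
    exact ⟨SimpleGraph.Walk.nil, rfl⟩
  | @cons u x v h q ih =>
    intro he
    rw [SimpleGraph.Walk.edges_cons] at he
    have h1 : Even (Γ.label s(u, x)) := he _ List.mem_cons_self
    obtain ⟨r, hr⟩ := ih fun e h2 => he e (List.mem_cons_of_mem _ h2)
    have hne := hW1.1 S I Γ comp hc ho u x h h1
    refine ⟨SimpleGraph.Walk.cons (show (bar Γ comp).graph.Adj (comp u) (comp x) from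
      ⟨hne, u, x, rfl, rfl, h⟩) r, ?_⟩
    rw [SimpleGraph.Walk.edges_cons, SimpleGraph.Walk.edges_cons, List.map_cons, hr, Sym2.map_mk]

theorem pW3 : W0 → W1 → W3 := fun hW0 hW1 =>
  ⟨fun _ _ _ Γ comp hc _ _ p u v hu hv => W3_lift hW0 Γ comp hc p u v hu hv,
    fun _ _ _ Γ comp hc ho _ _ p hp => W3_image hW1 Γ comp hc ho p hp⟩

end WGBar
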