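import Pool.Agent.Lib.MP_107652_al.Bar.SpecW

/-!
# MP_107652_al, THEOREM R: comparison of lists of edges (module W4, helper23)
-/

set_option autoImplicit false

namespace WGBar

open WGirth WGOne

theorem pW4 : W4 := by
  intro α β l m g a b hl hg hm hab
  have h1 : (l.map g).Nodup := hl.map_on hg
  have h2 : l.map g ⊆ m := by
    intro y hy
    obtain ⟨x, hx, rfl⟩ := List.mem_map.1 hy
    exact hm x hx
  have h3 := List.subperm_of_subset h1 h2
  have h4 := h3.length_le
  have h5 := h3.countP_le b
  rw [List.length_map] at h4
  rw [List.countP_map] at h5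
  have h6 : l.countP a = l.countP (b ∘ g) := by
    refine List.countP_congr fun x hx => ?_
    rw [hab x hx]
    rfl
  omega

end WGBar
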