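import Pool.Agent.Lib.MP_107652_al.Bar.SpecW

set_option autoImplicit false

namespace WGBar

open WGirth WGOne

theorem pW5 : W0 → W1 → W2 → W3 → W4 → W5 := by
  intro h0 h1 h2 h3 h4 S I _ Γ comp hc ho C c hcyc
  cases c with
  | nil => exact absurd rfl hcyc.ne_nil
  | @cons _ D _ h q =>
    rw [SimpleGraph.Walk.cons_isCycle_iff] at hcyc
    obtain ⟨hq, hnot⟩ := hcyc
    obtain ⟨hCD, s, t, hs, ht, hst⟩ := (bar_adj Γ comp C D).mp h
    subst hs
    subst ht
    obtain ⟨w, hw⟩ := h3.1 S I Γ comp hc _ _ q t s rfl rfl
    have hev : Even (Γ.label s(s, t)) := by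
      by_contra hodd
      exact hCD (comp_eq_of_odd hc hst hodd)
    have hnw : s(s, t) ∉ w.edges := by
      intro hmem
      rcases hw _ hmem with h5 | h5
      · exact h5 hev
      · rw [Sym2.map_mk] at h5
        exact hnot h5
    obtain ⟨r, hr, hsub, hrc, _, hre⟩ := h0.2 S Γ ho s t hst w hnw
    refine ⟨s, SimpleGraph.Walk.cons hst r, hrc, ?_⟩
    have himg : ∀ e ∈ r.edges, e.map comp ∈ q.edges := by
      intro e he
      rcases hw e (hsub he) with h5 | h5
      · exact absurd (hre e he) h5
      · exact h5
    have hall : ∀ e ∈ (SimpleGraph.Walk.cons hst r).edges, Even (Γ.label e) := by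
      intro e he
      rw [SimpleGraph.Walk.edges_cons, List.mem_cons] at he
      rcases he with rfl | he
      · exact hev
      · exact hre e he
    have hes : ∀ e ∈ (SimpleGraph.Walk.cons hst r).edges, e ∈ Γ.graph.edgeSet := fun e he =>
      SimpleGraph.Walk.edges_subset_edgeSet _ he
    have key := h4 (Sym2 S) (Sym2 I) (SimpleGraph.Walk.cons hst r).edges
      (SimpleGraph.Walk.cons h q).edges (Sym2.map comp)
      (fun e => decide (3 ≤ Γ.label e)) (fun e => decide (3 ≤ (bar Γ comp).label e))
      hrc.isTrail.edges_nodup
      (fun x hx y hy hxy => h2.2 S I Γ comp hc ho x y (hes x hx) (hes y hy) (hall x hx)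
        (hall y hy) hxy)
      (fun x hx => by
        rw [SimpleGraph.Walk.edges_cons, List.mem_cons] at hx ⊢
        rcases hx with rfl | hx
        · left
          rw [Sym2.map_mk]
        · right
          exact himg x hx)
      (fun x hx => by
        have e1 := hes x hx
        have e2 := hall x hx
        clear hx
        induction x using Sym2.ind with
        | _ a b =>
          rw [SimpleGraph.mem_edgeSet] at e1
          have hne := h1.1 S I Γ comp hc ho a b e1 e2
          have hl := h2.1 S I Γ comp hc ho a b e1 hne
          have hm : Sym2.map comp s(a, b) = s(comp a, comp b) := Sym2.map_mk _ _ _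
          simp only [hm, hl])
    unfold weight
    rw [← SimpleGraph.Walk.length_edges, ← SimpleGraph.Walk.length_edges]
    exact key

end WGBar
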