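import Pool.Agent.Lib.MP_107652_al.Bar.SpecW

/-!
# MP_107652_al, THEOREM R, module W6: a cycle of the graph gives a cycle of the component graph
-/

set_option autoImplicit false

namespace WGBar

open WGirth WGOne

theorem pW6 : W1 → W2 → W3 → W6 := by
  classical
  intro h1 h2 h3 S I _ Γ comp hc ho v d hd
  have hev : ∀ e ∈ d.edges, Even (Γ.label e) := ho v d hd
  obtain ⟨q, hq⟩ := h3.2 S I Γ comp hc ho v v d hev
  have hinj : ∀ e ∈ d.edges, ∀ e' ∈ d.edges, Sym2.map comp e = Sym2.map comp e' → e = e' :=
    fun e he e' he' hee => h2.2 S I Γ comp hc ho e e' (d.edges_subset_edgeSet he)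
      (d.edges_subset_edgeSet he') (hev e he) (hev e' he') hee
  have htr : q.IsTrail := by
    rw [SimpleGraph.Walk.isTrail_def, hq]
    exact List.Nodup.map_on hinj hd.isCircuit.isTrail.edges_nodup
  have hlen : q.length = d.length := by
    rw [← SimpleGraph.Walk.length_edges, ← SimpleGraph.Walk.length_edges, hq, List.length_map]
  have hne : q ≠ .nil := by
    intro hn
    rw [hn, SimpleGraph.Walk.length_nil] at hlen
    have := hd.three_le_length
    omega
  refine ⟨comp v, q.cycleBypass, htr.isCycle_cycleBypass hne, ?_⟩
  have hsub := q.edges_cycleBypass_sublist_edges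
  have e1 : q.cycleBypass.length ≤ q.length := q.length_cycleBypass_le_length
  have e2 := hsub.countP_le (p := fun e => decide (3 ≤ (bar Γ comp).label e))
  have e3 : q.edges.countP (fun e => decide (3 ≤ (bar Γ comp).label e)) =
      d.edges.countP (fun e => decide (3 ≤ Γ.label e)) := by
    rw [hq, List.countP_map]
    refine List.countP_congr fun e he => ?_
    have hee := hev e he
    have hes := d.edges_subset_edgeSet he
    induction e using Sym2.ind with
    | _ a b =>
      rw [SimpleGraph.mem_edgeSet] at hes
      have hne' := h1.1 S I Γ comp hc ho a b hes hee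
      have hl := h2.1 S I Γ comp hc ho a b hes hne'
      simp only [Function.comp_apply, Sym2.map_mk, decide_eq_true_eq]
      rw [hl]
  unfold weight
  omega

end WGBar
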