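import Pool.Agent.Lib.MP_107652_al.Bar.Spec

/-!
# MP_107652_al, THEOREM R: application of DimSplit on the side of `Γ`
-/

set_option autoImplicit false

open Finset

namespace WGBar

open WGirth WGTwin WGOne WGEven

private theorem YSplit_prod {V : Type} [Fintype V] [DecidableEq V] (q : Option V → ℝ) (m : ℤ) :
    ∏ o, (q o) ^ (if o = none then m else 0 : ℤ) = q none ^ m := by
  rw [Finset.prod_eq_single (none : Option V)]
  · rw [if_pos rfl]
  · intro o _ ho
    rw [if_neg ho, zpow_zero]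
  · intro h
    exact absurd (Finset.mem_univ _) h

theorem ySplit : DimSplit → NmG → YSplit := by
  intro hD hN S T V _ _ _ _ Γ Λ cΓ cΛ M N x S0 S1 ε Gen Z q r z w0 ld β hβ
  have hcl : Clq (bar Γ cΓ).graph x := ld.sd.clq
  have hw0 : St (bar Γ cΓ).graph x w0 := up_adj hcl ld.up
  have hq : ∀ m : ℤ, (2 : ℝ) ^ nS M S0 S1 ε w0 * q none ^ m ≠ 1 := by
    intro m h
    have h1 := (ld.qind (nS M S0 S1 ε w0) (fun o => if o = none then m else 0) (by
      rw [YSplit_prod]
      exact h)).1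
    exact ld.ne h1
  obtain ⟨n1, n2, n3, n4, n5⟩ := hN S T V Γ Λ cΓ cΛ M N x S0 S1 ε Gen Z q r z w0 ld β
  obtain ⟨m1, -⟩ := hN S T V Γ Λ cΓ cΛ M N x S0 S1 ε Gen Z q r z w0 ld 0
  have hZ : ∀ v ∈ Z, ¬ St (bar Γ cΓ).graph x v := fun v hv =>
    (ld.mem v).1 (Finset.mem_union_right _ hv)
  refine hD S V Γ cΓ ld.tdr.cmΓ (zr (pz M z) r β) x w0 Gen Z ld.dj ld.mem
    (fun v hv g hg => (ld.sep v hv).2 g hg) (fun v hv => up_star hcl ld.up hv) ?_ ?_
    (fun v hv => n2 v (hZ v hv)) (fun v hv u hu hvu => n3 v u (hZ v hv) (hZ u hu) hvu)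
  · rw [n1 w0 hw0]
    exact hq _
  · intro v hv hu
    have h1 : pz M z v = 1 := n5 v hv hu
    have h2 : v ≠ w0 := by
      rintro rfl
      have h3 := m1 v hv
      have h4 : zr (pz M z) r (0 : V → ℤ) v = 1 := by
        unfold zr
        rw [h1, Pi.zero_apply, zpow_zero, mul_one]
      rw [h4] at h3
      refine hq 0 ?_
      rw [Pi.zero_apply] at h3
      rw [← h3, Units.val_one, norm_one]
    unfold zr
    rw [h1, hβ v h2, zpow_zero, mul_one]

end WGBar
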