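import Pool.Agent.Lib.MP_107652_al.Bar.Assm
import Pool.Agent.Lib.MP_107652_al.Bar.BarHom
import Pool.Agent.Lib.MP_107652_al.Bar.BarIso
import Pool.Agent.Lib.MP_107652_al.Bar.CaseTwoG
import Pool.Agent.Lib.MP_107652_al.Bar.CstBar
import Pool.Agent.Lib.MP_107652_al.Bar.DimA
import Pool.Agent.Lib.MP_107652_al.Bar.DimB
import Pool.Agent.Lib.MP_107652_al.Bar.DimSplit
import Pool.Agent.Lib.MP_107652_al.Bar.HeisR
import Pool.Agent.Lib.MP_107652_al.Bar.LocOne
import Pool.Agent.Lib.MP_107652_al.Bar.LocR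
import Pool.Agent.Lib.MP_107652_al.Bar.LocThree
import Pool.Agent.Lib.MP_107652_al.Bar.LocTwo
import Pool.Agent.Lib.MP_107652_al.Bar.MatEx
import Pool.Agent.Lib.MP_107652_al.Bar.NmG
import Pool.Agent.Lib.MP_107652_al.Bar.NmL
import Pool.Agent.Lib.MP_107652_al.Bar.PFV
import Pool.Agent.Lib.MP_107652_al.Bar.PreR
import Pool.Agent.Lib.MP_107652_al.Bar.SolPF
import Pool.Agent.Lib.MP_107652_al.Bar.StarCore
import Pool.Agent.Lib.MP_107652_al.Bar.StarPF
import Pool.Agent.Lib.MP_107652_al.Bar.StarPR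
import Pool.Agent.Lib.MP_107652_al.Bar.StarQR
import Pool.Agent.Lib.MP_107652_al.Bar.StarStR
import Pool.Agent.Lib.MP_107652_al.Bar.TDREx
import Pool.Agent.Lib.MP_107652_al.Bar.W0
import Pool.Agent.Lib.MP_107652_al.Bar.W1
import Pool.Agent.Lib.MP_107652_al.Bar.W2
import Pool.Agent.Lib.MP_107652_al.Bar.W3
import Pool.Agent.Lib.MP_107652_al.Bar.W4
import Pool.Agent.Lib.MP_107652_al.Bar.W5
import Pool.Agent.Lib.MP_107652_al.Bar.W6
import Pool.Agent.Lib.MP_107652_al.Bar.YSplit
import Pool.Agent.Lib.MP_107652_al.Bar.ZSplit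

/-!
# MP_107652_al, THEOREM R: the weighted girth of the component graph is an isomorphism invariant

`theoremR`: for arbitrary finite labelled graphs `Γ`, `Λ` with isomorphic Artin groups the graphs of the odd
components have equal weighted girth. `wgbar`: if no odd edge of `Γ` lies on a cycle, then the weighted
girth of `Γ` is that of its component graph. `theoremRcor`: the corollary.
-/

set_option autoImplicit false

namespace WGBar

open WGirth WGTwin WGOne WGEven

/-- **Theorem R.** -/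
theorem theoremR (S T V W : Type) [Fintype S] [Fintype T] (Γ : LGraph S) (Λ : LGraph T)
    (cΓ : S → V) (cΛ : T → W) (hΓ : CMap Γ cΓ) (hΛ : CMap Λ cΛ) (e : Artin Γ ≃* Artin Λ) :
    wgirth (bar Γ cΓ) = wgirth (bar Λ cΛ) := by
  have hH : BarHom := barHom
  have hPR : StarPR := starPR starCore
  have hQR : StarQR := starQR starCore
  have hPre : PreR := preR hH heisR hPR hQR
  have hTD : TDREx := tDREx (matEx hH) hPre
  have hZ : ZSplit := zSplit dimSplit nmL
  have hY : YSplit := ySplit dimSplit nmG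
  have hA : DimA := dimA starPF solPF hZ hY cstBar nmL nmG
  have hB : DimB := dimB solPF hZ hY cstBar nmL nmG
  have hLoc : LocR := locR hA hB (caseTwoG nmG) pFV locOne (locTwo nmL) locThree nmG nmL
  exact assm hTD (starStR hLoc) wgTD barIso S T V W Γ Λ cΓ cΛ hΓ hΛ e

/-- the weighted girth of the component graph, if no odd edge lies on a cycle -/
theorem wgbar {S I : Type} [Fintype S] (Γ : LGraph S) (comp : S → I) (hc : CMap Γ comp)
    (ho : NoOdd Γ) : wgirth Γ = wgirth (bar Γ comp) := by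
  have h0 : W0 := pW0
  have h1 : W1 := pW1 h0
  have h2 : W2 := pW2 h1
  have h3 : W3 := pW3 h0 h1
  exact wgbar_of (pW5 h0 h1 h2 h3 pW4) (pW6 h1 h2 h3) Γ comp hc ho

/-- the odd components -/
theorem cmap_mk {S : Type} (Γ : LGraph S) : CMap Γ (oddGraph Γ).connectedComponentMk :=
  ⟨fun c => Quot.exists_rep c, fun _ _ => SimpleGraph.ConnectedComponent.eq⟩

/-- **Corollary.** If no odd edge of `Γ` and no odd edge of `Λ` lies on a cycle and the Artin groups are
isomorphic, then the weighted girths are equal. -/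
theorem theoremRcor (S T : Type) [Finite S] [Finite T] (Γ : LGraph S) (Λ : LGraph T)
    (hΓ : NoOdd Γ) (hΛ : NoOdd Λ) (e : Artin Γ ≃* Artin Λ) : wgirth Γ = wgirth Λ := by
  haveI := Fintype.ofFinite S
  haveI := Fintype.ofFinite T
  rw [wgbar Γ _ (cmap_mk Γ) hΓ, wgbar Λ _ (cmap_mk Λ) hΛ]
  exact theoremR S T _ _ Γ Λ _ _ (cmap_mk Γ) (cmap_mk Λ) e

end WGBar
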