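import Pool.Agent.Lib.MP_107652_al.Bar.Base

/-!
# MP_107652_al, THEOREM R (all Artin groups). Statements with complete proofs in the docstrings

Definitions: `Bar/Base.lean` (read it first), `One/BaseA.lean`, `One/BaseB.lean` (`exists_homO`, `gen_relO`,
`oddGraph`, `SameC`, `CMap`, `Sol`, `Cst`, `RelE`, `sub`), `Even/Basic.lean` (`GDom`, `GTw`, `Clq`, `up_star`,
`up_adj`, `up_up`, `star_tw`, `clq_adj`, `GStar`, `Core`), `Even/Spec.lean` (`SD`, `nS`), `Twin/Spec.lean` (`IsExp`,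
`mat`, `nn`, `StarP`, `Pre`, `TD`, `Dom`, `AR`, `Good`). Theorems which may be imported:
`WGirth.expHom` (ExpHom.lean); `WGTwin.heisGen`, `goodEx`, `relL`, `cTL`, `resNil`, `sGen`, `repP`, `permEx`, `degLe`,
`domM`, `domN`, `domTr`, `adjIso`, `classInv`, and the namespace `WGTwin.StarExAux` (files of the folder Twin);
`WGEven.blkOut`, `blkGen`, `genEx`, `primeEx`, `upInv` (files of Even); `WGOne.oddEq`, `solEq`, `solSplit`, `solGen`,
`cstEq`, `kill`, `nrmE` (files of One). An odd edge joins two vertices of the same component: if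
`s`, `t` are adjacent with odd label then `(oddGraph Λ).Adj s t`, so `SameC Λ s t` and `comp s = comp t` (`CMap.iff`).
-/

set_option autoImplicit false

open Finset

namespace WGBar

open WGirth WGTwin WGOne WGEven

/-! ## Group part -/

/-- **BarHom.** Proof. `exists_homO` with `g s = gen (comp s)`. For an edge `s, t` with `comp s = comp t` both sides
are equal. Otherwise the label is even, `2 k`; with `h = half (bar Λ comp) (comp s) (comp t)`, `h ∣ k`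
(`bar_half_dvd`), and `(gen i * gen j) ^ h = (gen j * gen i) ^ h` (`gen_rel`, `bar_even`); raise to the power
`k / h` and use `alt_two_mul`. -/
def BarHom : Prop := ∀ (S I : Type) [Fintype S] (Λ : LGraph S) (comp : S → I), CMap Λ comp →
  ∃ p : Artin Λ →* Artin (bar Λ comp), ∀ s, p (gen Λ s) = gen (bar Λ comp) (comp s)

/-- **MatEx.** Proof (from BarHom; model: One/PreEx0.lean). `p` from BarHom for `Λ`, `y` from `expHom` for
`bar Λ cΛ`, `r : V → S` a section of `cΓ` (`Function.surjInv`). `M i v = toAdd (y i (p (φ (gen (r v)))))`; for all `s`,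
`M i (cΓ s) = toAdd (y i (p (φ (gen s))))` by OddEq (second part, for `((y i).comp p).comp φ`). Let `f`, `z` be
given; there is `f' : Artin (bar Λ cΛ) →* A` with `f' (gen i) = z i` (`exists_hom`, `mul_comm`), and `f = f'.comp p`
(`hom_ext`); apply the second property of `expHom` to `f'` and `p (φ (gen s))`. -/
def MatEx : Prop := ∀ (S T V W : Type) [Fintype S] [Fintype T] [Fintype V] [Fintype W]
  [DecidableEq W] (Γ : LGraph S) (Λ : LGraph T) (cΓ : S → V) (cΛ : T → W), CMap Γ cΓ →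
  CMap Λ cΛ → ∀ φ : Artin Γ →* Artin Λ, ∃ M : W → V → ℤ, IsMat cΓ cΛ φ M

/-- **HeisR.** Proof. Let `a`, `b` be adjacent in `bar Γ c`. For every edge `s, t` with `c s = a`, `c t = b` the label
is even, `2 k`, `k ≥ 1`, and with `g = ψ (gen s)`, `h = ψ (gen t)`: `(g h)^k = (h g)^k` (`gen_relO`, `alt_two_mul`,
mapped by `ψ`). `heisGen` for `Λ`, `x = y`: first claim, `n = half Λ i j`: `n ∣ k * det` for all these edges, with
`det = M i a * M j b - M j a * M i b`; `dvd_bar_mul`. Second claim: `n = 0` for one such edge (`i`, `j` are not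
adjacent, so the condition is empty): `k * det = 0`. -/
def HeisR : Prop := ∀ (S V W : Type) [Fintype S] [Fintype W] [DecidableEq W] (Γ : LGraph S)
  (Λ : LGraph W) (c : S → V), CMap Γ c → IsEven Λ → ∀ y : W → (Artin Λ →* Multiplicative ℤ),
  IsExp Λ y → ∀ (ψ : Artin Γ →* Artin Λ) (M : W → V → ℤ),
  (∀ i s, M i (c s) = Multiplicative.toAdd (y i (ψ (gen Γ s)))) →
  (∀ a b, (bar Γ c).graph.Adj a b → ∀ i j, Λ.graph.Adj i j →
    (half Λ i j : ℤ) ∣ half (bar Γ c) a b * (M i a * M j b - M j a * M i b)) ∧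
  ∀ a b, (bar Γ c).graph.Adj a b → ∀ i j, i ≠ j → ¬ Λ.graph.Adj i j →
    M i a * M j b - M j a * M i b = 0

/-- **StarCore.** Representations of `Artin Γ` (`Γ` even) over a domain of characteristic `p` whose linear
parts are powers of `t = 1 + X`, pulled back to an arbitrary Artin group. Proof. Let `r : W → S` be a section of
`c`, `F w = f (ψ (gen (r w)))`. (a) By `lin_exp` (`WGTwin.StarExAux`) `(f (ψ (gen s))).a = t ^ (∑ v, d v * N v (c s))` and
for every `g : Artin Γ` the linear part `(f g).a` is a power of `t`, so `X ∣ 1 - (f g).a` (`dvd_one_sub`).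
(b) `f (ψ (gen s)) = F (c s)` for all `s`: it is enough that the values at the ends of an odd edge `s, t`
(label `m`) agree (path induction for `SameC`). The linear parts agree by (a), call them `a`. By induction on
`m`: `(alt m g h).b - (alt m h g).b = (∑ i < m, (-a)^i) * (g.b - h.b)` and `(alt m g h).a = a^m` if `g.a = h.a = a` (from
`alt (m+1) g h = g * alt m h g`; model: One/AltRel.lean). `gen_relO` gives `(∑ i < m, (-a)^i) * (g.b - h.b) = 0`. The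
factor is not zero: `X ∣ a - 1`, so modulo `X` it is `∑ i < m, (-1)^i = 1` (`m` odd), so if it were zero then
`X ∣ 1`, so `X ^ k ∣ 1` for all `k` and `1 = 0` by `Good.sep`. (c) Let `w, u` be adjacent in `bar Λ c`. If `F w`, `F u` do
not commute, then for every edge `s, t` over `w, u` (even label `2 k`, `k ≥ 1`) the relation gives
`(F w * F u)^k = (F u * F w)^k` and `relL` gives `p ∣ k` and that the sum of the exponents is `0`; so
`p ∣ half (bar Λ c) w u` (`dvd_bar_half`), and there is such an edge. (d) Suppose that all `F w`, `w ∈ Tf`, commute.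
`sGen` for `Γ`, `Λ`, `x`, `ψ`, `f`, the finite sets `Sf` and `Tf.image r` (`r` is injective) and the matrix
`fun s v => M' (c s) v` (`mat x ψ v s = N v (c s)`, `Finset.sum_image`). `closure_comm`, `resNil`: the image of `f` is
commutative, a contradiction (end of the proof of Twin/StarEx.lean). -/
def StarCore : Prop := ∀ (S V W : Type) [Fintype S] [Fintype V] [DecidableEq V] [Fintype W]
  [DecidableEq W] (Γ : LGraph V) (Λ : LGraph S) (c : S → W), CMap Λ c →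
  ∀ x : V → (Artin Γ →* Multiplicative ℤ), IsExp Γ x →
  ∀ (ψ : Artin Λ →* Artin Γ) (N : V → W → ℤ),
  (∀ v s, N v (c s) = Multiplicative.toAdd (x v (ψ (gen Λ s)))) →
  ∀ (p : ℕ) (R : Type) [CommRing R] [IsDomain R] (X : R) (t : Rˣ), Good p R X t →
  ∀ (f : Artin Γ →* AR R) (d : V → ℤ), (∀ v, (f (gen Γ v)).a = t ^ d v) →
  (∃ g h, f g * f h ≠ f h * f g) → ∀ (Sf : Finset V) (Tf : Finset W) (M' : W → V → ℤ),
  (∀ v, v ∉ Sf → f (gen Γ v) = 1) →
  (∀ s ∈ Sf, ∀ s' ∈ Sf, ∑ w ∈ Tf, N s' w * M' w s = if s' = s then 1 else 0) →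
  ∃ F : W → AR R, (∀ w, (F w).a = t ^ (∑ v, d v * N v w)) ∧
    (∀ w u, (bar Λ c).graph.Adj w u → F w * F u = F u * F w ∨
      ((∑ v, d v * N v w) + (∑ v, d v * N v u) = 0 ∧ p ∣ half (bar Λ c) w u)) ∧
    ∃ w ∈ Tf, ∃ u ∈ Tf, F w * F u ≠ F u * F w

/-- **StarPR.** Proof (from StarCore; model: Twin/StarEx.lean). `R, X, t` from `goodEx`, `f` from `repP` for the
star `A`, `b`, `m`; `d v` = the exponent in `repP`; `∑ v, d v * N v w = nn N a b A m w` (`StarExAux.sum_nn`). StarCore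
with `Sf = S`, `Tf = T1 ∪ T2`. Suppose that the claim is false. Then `F v`, `F u` commute for `v ∈ T1`, `u ∈ T2`; with
`v0 ∈ T1` of exponent `≠ 0` (`(F v0).a ≠ 1` by `Good.inf`) `cTL` shows that all `F u`, `u ∈ T2`, commute, with `u0 ∈ T2`
all `F v`, `v ∈ T1`; so all elements of `T1 ∪ T2` commute: contradiction. -/
def StarPR : Prop := ∀ (S V W : Type) [Fintype S] [Fintype V] [DecidableEq V] [Fintype W]
  [DecidableEq W] (Γ : LGraph V) (Λ : LGraph S) (c : S → W), IsEven Γ → CMap Λ c →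
  ∀ x : V → (Artin Γ →* Multiplicative ℤ), IsExp Γ x →
  ∀ (ψ : Artin Λ →* Artin Γ) (N : V → W → ℤ),
  (∀ v s, N v (c s) = Multiplicative.toAdd (x v (ψ (gen Λ s)))) → StarP Γ (bar Λ c) N

/-- **StarQR.** Proof (from StarCore; model: Even/StarQEx.lean). As StarPR with `A = {a}`, `m = 0`; the exponent is
`N a w - N b w`. Let `v0 ∈ T` with exponent `≠ 0`. If the claim is false every `F u`, `u ∈ T`, commutes with `F v0`, so
all commute (`cTL`): contradiction. -/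
def StarQR : Prop := ∀ (S V W : Type) [Fintype S] [Fintype V] [DecidableEq V] [Fintype W]
  [DecidableEq W] (Γ : LGraph V) (Λ : LGraph S) (c : S → W), IsEven Γ → CMap Λ c →
  ∀ x : V → (Artin Γ →* Multiplicative ℤ), IsExp Γ x →
  ∀ (ψ : Artin Λ →* Artin Γ) (N : V → W → ℤ),
  (∀ v s, N v (c s) = Multiplicative.toAdd (x v (ψ (gen Λ s)))) → StarQ Γ (bar Λ c) N

/-- **PreR.** Proof (from BarHom, HeisR, StarPR, StarQR). `pΓ`, `pΛ` from BarHom, `x`, `y` from `expHom` for `bar Γ cΓ`,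
`bar Λ cΛ`. (1) `M i (cΓ s) = toAdd (y i (pΛ (φ (gen s))))`: apply `IsMat` to `f = (y i).comp pΛ` and
`z j = if i = j then ofAdd 1 else 1`. In the same way `N v (cΛ t) = toAdd (x v (pΓ (φ.symm (gen t))))`. (2) `nm`: let
`f = ((x v).comp pΓ).comp φ.symm`, so `f (gen t) = ofAdd (N v (cΛ t))` by (1) and `f (φ (gen s)) = x v (pΓ (gen s))`, and
`IsMat` for `f` and `z i = ofAdd (N v i)` gives `δ = ∑ i, N v i * M i (cΓ s)`; `cΓ` is surjective. `mn` in the same way.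
(3) `heisM`, `heisM0`: HeisR for `Γ`, `bar Λ cΛ`, `ψ = pΛ.comp φ`. `heisN`, `heisN0`: HeisR for `Λ`, `bar Γ cΓ`,
`ψ = pΓ.comp φ.symm`. `starN` and the first StarQ: StarPR, StarQR for `bar Γ cΓ`, `Λ`, `ψ = pΓ.comp φ.symm`; `starM` and
the second StarQ: for `bar Λ cΛ`, `Γ`, `ψ = pΛ.comp φ`. -/
def PreR : Prop := ∀ (S T V W : Type) [Fintype S] [Fintype T] [Fintype V] [DecidableEq V]
  [Fintype W] [DecidableEq W] (Γ : LGraph S) (Λ : LGraph T) (cΓ : S → V) (cΛ : T → W),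
  CMap Γ cΓ → CMap Λ cΛ → ∀ (φ : Artin Γ ≃* Artin Λ) (M : W → V → ℤ) (N : V → W → ℤ),
  IsMat cΓ cΛ φ.toMonoidHom M → IsMat cΛ cΓ φ.symm.toMonoidHom N →
  Pre (bar Γ cΓ) (bar Λ cΛ) M N ∧ StarQ (bar Γ cΓ) (bar Λ cΛ) N ∧ StarQ (bar Λ cΛ) (bar Γ cΓ) M

/-- **TDREx.** Proof (from MatEx, PreR; model: One/DatEx.lean). `V = (oddGraph Γ).ConnectedComponent`,
`W = (oddGraph Λ).ConnectedComponent` (finite), `cΓ`, `c0` the components. MatEx: `M0`, `N0`; PreR: `Pre`. `permEx`: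
`σ : V ≃ W` with `M0 (σ v) v ≠ 0`; `domM degLe permEx`, `domN domTr`, `adjIso domTr` (Twin). Put `cΛ = σ.symm ∘ c0`,
`M v w = M0 (σ v) w`, `N v w = N0 v (σ w)`. These satisfy `IsMat cΓ cΛ φ M` (for `z : V → A` use `z ∘ σ.symm` and
`Equiv.prod_comp`) and `IsMat cΛ cΓ φ.symm N`, so PreR for `cΓ`, `cΛ` gives `Pre (bar Γ cΓ) (bar Λ cΛ) M N` and the two
StarQ. `adj`: `(bar Λ cΛ).graph.Adj a b` iff `(bar Λ c0).graph.Adj (σ a) (σ b)`. `domM`, `domN`: `Dom` for `bar Λ c0`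
corresponds to `Dom` for `bar Γ cΓ` under `σ`. `chrM`: `χ : Artin Λ →* ℂˣ` with `χ (gen t) = z (cΛ t)` (`exists_homO`; as
`DatEx_rel` in One/DatEx.lean), `solEq` for `φ` and `χ`, and `χ (φ (gen s)) = pz M z (cΓ s)` by `IsMat`. `chrN`: the
same for `φ.symm`. -/
def TDREx : Prop := ∀ (S T : Type) [Fintype S] [Fintype T] (Γ : LGraph S) (Λ : LGraph T)
  (_ : Artin Γ ≃* Artin Λ), ∃ (V : Type) (_ : Fintype V) (_ : DecidableEq V) (cΓ : S → V)
  (cΛ : T → V) (M N : V → V → ℤ), TDR Γ Λ cΓ cΛ M N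

/-- **BarIso.** The component graph does not depend on the names of the components. Proof. Both `c` and `c'`
are surjective with the same fibres, so there is `π : V ≃ W` with `π (c s) = c' s` (e.g. `Equiv.ofBijective` of
`fun v => c' (surjInv v)`). `wgIso` (Twin/WgIso.lean): the adjacency and the labels agree because
`s(c' p.1, c' p.2) = s(π a, π b)` iff `s(c p.1, c p.2) = s(a, b)`, so the sets `eset` are equal. -/
def BarIso : Prop := ∀ (S V W : Type) [Fintype S] (Γ : LGraph S) (c : S → V) (c' : S → W),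
  CMap Γ c → CMap Γ c' → wgirth (bar Γ c) = wgirth (bar Γ c')

/-! ## Cocycles -/

/-- **SolPF.** Proof. Let `Λ' = sub Λ _`, `w t = 1 - z (c t)`, not zero on `Λ'`, `w ∈ Sol Λ'` (even edges: clear; odd
edges: `z` agrees at both ends). For `φ : T → ℂ` the function `b t = w t * φ t` is in `Sol Λ'` iff `ev` and `od` hold:
for an even edge `RelE` reads `E * (w t * (w s * φ s) - w s * (w t * φ t)) = 0`, for an odd edge (where `c s = c t`)
`E * w s * (φ s - φ t) = 0`. (→) Some `b ∈ Sol Λ'` is not a multiple of `w` (otherwise the dimension is `≤ 1`: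
`finrank_le_one`); let `φ t = b t / w t` on `Λ'` and `0` elsewhere; if `φ` were constant on `Λ'` then `b` would be a
multiple of `w`. (←) `w` and `w φ` are linearly independent (`LinearIndependent.pair_iff`), so the dimension
is at least 2 (`LinearIndependent.fintype_card_le_finrank`). -/
def SolPF : Prop := ∀ (T V : Type) [Finite T] (Λ : LGraph T) (c : T → V), CMap Λ c →
  ∀ (z : V → ℂˣ) (Q : V → Prop), (∀ v, Q v → z v ≠ 1) →
  (2 ≤ Module.finrank ℂ (Sol (sub Λ (fun t => Q (c t))) (fun t => z (c t.1))) ↔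
    ∃ φ : T → ℂ, PF Λ c z Q φ)

/-- **PFV.** Proof. `ψ v = φ (r v)` for a section `r` of `c`. (1) Let `Q v`, `‖z v‖ ≠ 1`. If `s, t` is an odd edge in
the component `v` then `φ s = φ t`: otherwise `od` gives `∑ i < m, (-z v)^i = 0`, against `nrmE` (second part,
`m ≥ 1`). By path induction (`SameC`, all vertices of the path are in the component `v`) `φ` is constant on the
component. (2) The label of `s, t` is even, `2 k`, `k ≥ 1` (`two_le`), the geometric sum vanishes by `ev`, and `nrmE`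
(first part). (3) For every edge `s, t` over `v, w`: `φ s = ψ v ≠ ψ w = φ t`, so with `u = z v * z w` and `k = label / 2`:
`∑ i < k, u^i = 0`, so `u^k = 1` (`geom_sum_mul`) and `u ≠ 1` (otherwise the sum is `k ≠ 0`). So `orderOf u ∣ k` for
all these edges, hence `orderOf u ∣ half (bar Λ c) v w` (`dvd_bar_half`). One edge exists; norms by (2). -/
def PFV : Prop := ∀ (T V : Type) [Fintype T] (Λ : LGraph T) (c : T → V), CMap Λ c →
  ∀ (z : V → ℂˣ) (Q : V → Prop) (φ : T → ℂ), PF Λ c z Q φ → ∃ ψ : V → ℂ,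
  (∀ t, Q (c t) → ‖(z (c t) : ℂ)‖ ≠ 1 → φ t = ψ (c t)) ∧
  (∀ s t, Λ.graph.Adj s t → Q (c s) → Q (c t) → c s ≠ c t → φ s ≠ φ t →
    ‖(z (c s) : ℂ)‖ * ‖(z (c t) : ℂ)‖ = 1) ∧
  ∀ v w, (bar Λ c).graph.Adj v w → Q v → Q w → ‖(z v : ℂ)‖ ≠ 1 → ‖(z w : ℂ)‖ ≠ 1 →
    ψ v ≠ ψ w → ‖(z v : ℂ)‖ * ‖(z w : ℂ)‖ = 1 ∧ (z v : ℂ) * z w ≠ 1 ∧
      ((z v : ℂ) * z w) ^ half (bar Λ c) v w = 1

/-- **DimSplit.** Proof. Write `G` for the graph of `bar Λ c`. `solSplit` with `P t = (c t ∈ Z)`, `Q t = QQ .. (c t)`.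
Disjoint: `Z` and `Gen` are disjoint and outside of the star. No edge `s, t` between `P` and `Q`: `c s ≠ c t`, so they
are adjacent in `G`; `c t ∈ Gen` is excluded by hypothesis; `c t` in the star with `z ≠ 1` and adjacent to `c s ∈ Z` is
excluded. Odd edges stay in a component. Outside of `P`, `Q`: `c t` is in the star (otherwise in `Gen ∪ Z`) and
`z (c t) = 1`. Then `b t = 0` for `b ∈ Sol`: `c t ≠ w0` (`‖z w0‖ ≠ 1`), so `c t ~ w0` in `G` and there is an edge `s', t'` of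
`Λ` with `c s' = c t`, `c t' = w0`, even label; `kill` (first part): `b s' = 0`; `kill` (second part, `SameC t s'`):
`b t = b s'`. Finally `solGen` for `sub Λ P`: `z ≠ 1` and `‖z‖ ≠ 1` there; for an even edge inside a component
`‖z‖ * ‖z‖ ≠ 1` as well. -/
def DimSplit : Prop := ∀ (T V : Type) [Fintype T] [Fintype V] [DecidableEq V] (Λ : LGraph T)
  (c : T → V), CMap Λ c → ∀ (z : V → ℂˣ) (x w0 : V) (Gen Z : Finset V), Disjoint Gen Z →
  (∀ v, v ∈ Gen ∪ Z ↔ ¬ St (bar Λ c).graph x v) →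
  (∀ v ∈ Z, ∀ g ∈ Gen, ¬ (bar Λ c).graph.Adj v g) →
  (∀ v, St (bar Λ c).graph x v → v = w0 ∨ (bar Λ c).graph.Adj v w0) → ‖(z w0 : ℂ)‖ ≠ 1 →
  (∀ v, St (bar Λ c).graph x v → (∃ u ∈ Z, (bar Λ c).graph.Adj v u) → z v = 1) →
  (∀ v ∈ Z, ‖(z v : ℂ)‖ ≠ 1) →
  (∀ v ∈ Z, ∀ u ∈ Z, v ≠ u → ‖(z v : ℂ)‖ * ‖(z u : ℂ)‖ ≠ 1) →
  Module.finrank ℂ (Sol Λ (fun t => z (c t))) =
    Module.finrank ℂ (Cst (sub Λ (fun t => c t ∈ Z))) +
    Module.finrank ℂ (Sol (sub Λ (fun t => QQ (bar Λ c).graph x z Gen (c t)))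
      (fun t => z (c t.1)))

/-- **CstBar.** Proof. `cstEq` for the graph `bar Γ cΓ` and `Γ`, and for `bar Γ cΓ` and `Λ` (its graph is that of
`bar Λ cΛ`, `TD.adj`). -/
def CstBar : Prop := ∀ (S T V : Type) [Fintype S] [Fintype T] [Fintype V] [DecidableEq V]
  (Γ : LGraph S) (Λ : LGraph T) (cΓ : S → V) (cΛ : T → V) (M N : V → V → ℤ),
  TDR Γ Λ cΓ cΛ M N → ∀ P : V → Prop,
  Module.finrank ℂ (Cst (sub Γ (fun s => P (cΓ s)))) =
    Module.finrank ℂ (Cst (sub Λ (fun t => P (cΛ t))))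

/-! ## The localisation lemma -/

/-- **NmL.** Norms on the side of `Λ`. Proof. `zr z r α v = z v * r ^ α v`, `LD.rn`, `SD.nrm`, `LD.one`, `LD.out`. The last
three claims: `LD.qind` (for products split off the factors; for `b : Option V → ℤ` use
`∏ o, q o ^ b o = q none ^ b none * ∏ v, q (some v) ^ b (some v)`, `Fintype.prod_option`, and
`Pi.single`-like functions). -/
def NmL : Prop := ∀ (S T V : Type) [Fintype S] [Fintype T] [Fintype V] [DecidableEq V]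
  (Γ : LGraph S) (Λ : LGraph T) (cΓ : S → V) (cΛ : T → V) (M N : V → V → ℤ) (x : V)
  (S0 S1 : Finset V) (ε : V → ℤ) (Gen Z : Finset V) (q : Option V → ℝ) (r : ℂˣ) (z : V → ℂˣ)
  (w0 : V), LD Γ Λ cΓ cΛ M N x S0 S1 ε Gen Z q r z w0 → ∀ α : V → ℤ,
  (∀ v ∈ S0 ∪ S1, ‖(zr z r α v : ℂ)‖ = (2 : ℝ) ^ ε v * q none ^ α v) ∧
  (∀ v, St (bar Γ cΓ).graph x v → v ∉ S0 ∪ S1 →
    ‖(zr z r α v : ℂ)‖ = q none ^ α v ∧ (α v = 0 → zr z r α v = 1)) ∧
  (∀ v, ¬ St (bar Γ cΓ).graph x v → ‖(zr z r α v : ℂ)‖ = q (some v) * q none ^ α v) ∧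
  (∀ v, ¬ St (bar Γ cΓ).graph x v → ‖(zr z r α v : ℂ)‖ ≠ 1) ∧
  (∀ v w, ¬ St (bar Γ cΓ).graph x v → v ≠ w → ‖(zr z r α v : ℂ)‖ * ‖(zr z r α w : ℂ)‖ ≠ 1) ∧
  ∀ a e : ℤ, (2 : ℝ) ^ a * q none ^ e = 1 → a = 0 ∧ e = 0

/-- **NmG.** Norms on the side of `Γ`. Proof. Write `y = pz M z`, `G` for the graph of `bar Γ cΓ`. `‖y w‖` is the product
over `i` of `‖z i‖ ^ M i w`: for `i ∈ S0 ∪ S1` this is `2 ^ (ε i * M i w)`, for the other `i` in the star of `x` it is `1`, for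
`i` outside of the star `q (some i) ^ M i w`. So `‖y w‖ = 2 ^ nS w * ∏ (i outside), q (some i) ^ M i w`. (1) For `w` in the
star `M i w = 0` for `i` outside (`blkOut`; `M i w ≠ 0` gives `GDom G w i` by `TD.domM`). (2)-(4): the block of `M` on
the vertices outside of the star is invertible: `blkGen` for the set of all vertices outside (`mem`). (2) some
`M i w ≠ 0`, `i` outside; (3) some `M i w + M i u ≠ 0` (multiply by `N w i` and sum: `1 + 0`); (4) as (2) for `u`, since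
`M i w = 0`. Now `LD.qind`. (5) `y w = ∏ i, z i ^ M i w`: factors with `i` outside have `M i w = 0`, those with `i` in the
star, `i ∉ S0 ∪ S1`, have `z i = 1`; for `i ∈ S0 ∪ S1`, `M i w ≠ 0` gives `GDom G w i`, so `u = i` or `u ~ i` for the
neighbour `u ∈ Z` of `w`; `u ≠ i` since `u` is outside of the star; `i ∈ S1` contradicts `LD.sep`, `i ∈ S0` is a twin of
`x`, so `u` would be in the star of `x` (`star_tw` for the clique vertex `i`, or `GTw`). -/
def NmG : Prop := ∀ (S T V : Type) [Fintype S] [Fintype T] [Fintype V] [DecidableEq V]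
  (Γ : LGraph S) (Λ : LGraph T) (cΓ : S → V) (cΛ : T → V) (M N : V → V → ℤ) (x : V)
  (S0 S1 : Finset V) (ε : V → ℤ) (Gen Z : Finset V) (q : Option V → ℝ) (r : ℂˣ) (z : V → ℂˣ)
  (w0 : V), LD Γ Λ cΓ cΛ M N x S0 S1 ε Gen Z q r z w0 → ∀ β : V → ℤ,
  (∀ w, St (bar Γ cΓ).graph x w →
    ‖(zr (pz M z) r β w : ℂ)‖ = (2 : ℝ) ^ nS M S0 S1 ε w * q none ^ β w) ∧
  (∀ w, ¬ St (bar Γ cΓ).graph x w → ‖(zr (pz M z) r β w : ℂ)‖ ≠ 1) ∧
  (∀ w u, ¬ St (bar Γ cΓ).graph x w → ¬ St (bar Γ cΓ).graph x u → w ≠ u →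
    ‖(zr (pz M z) r β w : ℂ)‖ * ‖(zr (pz M z) r β u : ℂ)‖ ≠ 1) ∧
  (∀ w u, St (bar Γ cΓ).graph x w → ¬ St (bar Γ cΓ).graph x u →
    ‖(zr (pz M z) r β w : ℂ)‖ * ‖(zr (pz M z) r β u : ℂ)‖ ≠ 1) ∧
  ∀ w, St (bar Γ cΓ).graph x w → (∃ u ∈ Z, (bar Γ cΓ).graph.Adj w u) → pz M z w = 1

/-- **ZSplit.** Proof (from DimSplit, NmL). DimSplit for `Λ`, `cΛ`, the character `zr z r α` and, in the role of
`w0`, some `s0 ∈ S0` (rewrite the graph of `bar Λ cΛ` with `TDR.gr`). `v` in the star of `x` is `s0` or adjacent to `s0`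
(`star_tw`). `‖zr .. s0‖ = 2 ^ ε s0 * q none ^ α s0 ≠ 1` (last claim of NmL, `ε s0 = ± 1`). Let `v` be in the star, adjacent to
`u ∈ Z`: `v ∉ S0` (`u` would be in the star of `x`), `v ∉ S1` (`LD.sep`), so `z v = 1`, and `α v = 0` by hypothesis. -/
def ZSplit : Prop := ∀ (S T V : Type) [Fintype S] [Fintype T] [Fintype V] [DecidableEq V]
  (Γ : LGraph S) (Λ : LGraph T) (cΓ : S → V) (cΛ : T → V) (M N : V → V → ℤ) (x : V)
  (S0 S1 : Finset V) (ε : V → ℤ) (Gen Z : Finset V) (q : Option V → ℝ) (r : ℂˣ) (z : V → ℂˣ)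
  (w0 : V), LD Γ Λ cΓ cΛ M N x S0 S1 ε Gen Z q r z w0 → ∀ α : V → ℤ,
  (∀ v, St (bar Γ cΓ).graph x v → (∃ u ∈ Z, (bar Γ cΓ).graph.Adj v u) → α v = 0) →
  Module.finrank ℂ (Sol Λ (fun t => zr z r α (cΛ t))) =
    Module.finrank ℂ (Cst (sub Λ (fun t => cΛ t ∈ Z))) +
    Module.finrank ℂ (Sol (sub Λ (fun t => QQ (bar Γ cΓ).graph x (zr z r α) Gen (cΛ t)))
      (fun t => zr z r α (cΛ t.1)))

/-- **YSplit.** Proof (from DimSplit, NmG). DimSplit for `Γ`, `cΓ`, the character `zr (pz M z) r β` and `w0`: `up_star`;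
`‖zr .. w0‖ = 2 ^ nS w0 * q none ^ β w0 ≠ 1` (`LD.ne`, `LD.qind`; `w0` is in the star by `up_adj`). Let `v` be in the star,
adjacent to an element of `Z`: `pz M z v = 1` (NmG), so `v ≠ w0` (`pz M z w0` has norm `2 ^ nS w0 ≠ 1`, NmG for
`β = 0`), so `β v = 0`. -/
def YSplit : Prop := ∀ (S T V : Type) [Fintype S] [Fintype T] [Fintype V] [DecidableEq V]
  (Γ : LGraph S) (Λ : LGraph T) (cΓ : S → V) (cΛ : T → V) (M N : V → V → ℤ) (x : V)
  (S0 S1 : Finset V) (ε : V → ℤ) (Gen Z : Finset V) (q : Option V → ℝ) (r : ℂˣ) (z : V → ℂˣ)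
  (w0 : V), LD Γ Λ cΓ cΛ M N x S0 S1 ε Gen Z q r z w0 → ∀ β : V → ℤ,
  (∀ v, v ≠ w0 → β v = 0) →
  Module.finrank ℂ (Sol Γ (fun s => zr (pz M z) r β (cΓ s))) =
    Module.finrank ℂ (Cst (sub Γ (fun s => cΓ s ∈ Z))) +
    Module.finrank ℂ (Sol (sub Γ (fun s => QQ (bar Γ cΓ).graph x (zr (pz M z) r β) Gen (cΓ s)))
      (fun s => zr (pz M z) r β (cΓ s.1)))

/-- **StarPF.** Proof. `φ t = if cΛ t ∈ S0 then 1 else 0`. Let `s, t` be an edge with `φ s ≠ φ t`, both in `QQ`; by symmetry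
`cΛ s ∈ S0`, `cΛ t ∉ S0` (the sum in `ev` is symmetric). They are adjacent in the graph of `bar Λ cΛ`, which is that of
`bar Γ cΓ`. `cΛ t ∈ Gen` is impossible: it is outside of the star of `x`, which is the star of `cΛ s`. So `cΛ t` is in the
star with `z ≠ 1`, so in `S1` (`LD.one`). `SD.deg`: `u = z (cΛ s) * z (cΛ t) ≠ 1`, `u ^ half (bar Λ cΛ) .. = 1`, and the
half label divides `label / 2` (`bar_half_dvd`), so `u ^ (label / 2) = 1` and the geometric sum vanishes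
(`geom_sum_mul`). `od`: an odd edge has `cΛ s = cΛ t`, so `φ s = φ t`. `nc`: vertices over elements of `S0` and `S1`
(`z ≠ 1` since the norm is `2` or `1/2`; elements of `S0` are in the star: `clq_adj`). -/
def StarPF : Prop := ∀ (S T V : Type) [Fintype S] [Fintype T] [Fintype V] [DecidableEq V]
  (Γ : LGraph S) (Λ : LGraph T) (cΓ : S → V) (cΛ : T → V) (M N : V → V → ℤ) (x : V)
  (S0 S1 : Finset V) (ε : V → ℤ) (Gen Z : Finset V) (q : Option V → ℝ) (r : ℂˣ) (z : V → ℂˣ)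
  (w0 : V), LD Γ Λ cΓ cΛ M N x S0 S1 ε Gen Z q r z w0 →
  ∃ φ : T → ℂ, PF Λ cΛ z (QQ (bar Γ cΓ).graph x z Gen) φ

/-- **DimA.** Proof (from StarPF, SolPF, ZSplit, YSplit, CstBar, NmL, NmG). `zr z r 0 = z`, `zr (pz M z) r 0 = pz M z`.
`z ≠ 1` on `QQ .. z Gen` (NmL for `Gen`), so StarPF and SolPF: the second summand in ZSplit (`α = 0`) is `≥ 2`. By
`TDR.chrM` the left sides of ZSplit and YSplit (`β = 0`) agree, by CstBar (`P v = (v ∈ Z)`) the first summands agree.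
So the second summand in YSplit is `≥ 2`; SolPF (`pz M z ≠ 1` on `QQ .. (pz M z) Gen` by NmG). -/
def DimA : Prop := ∀ (S T V : Type) [Fintype S] [Fintype T] [Fintype V] [DecidableEq V]
  (Γ : LGraph S) (Λ : LGraph T) (cΓ : S → V) (cΛ : T → V) (M N : V → V → ℤ) (x : V)
  (S0 S1 : Finset V) (ε : V → ℤ) (Gen Z : Finset V) (q : Option V → ℝ) (r : ℂˣ) (z : V → ℂˣ)
  (w0 : V), LD Γ Λ cΓ cΛ M N x S0 S1 ε Gen Z q r z w0 →
  ∃ φ : S → ℂ, PF Γ cΓ (pz M z) (QQ (bar Γ cΓ).graph x (pz M z) Gen) φ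

/-- **DimB.** Proof (from SolPF, ZSplit, YSplit, CstBar, NmL, NmG). Let `z' = zr z r (N w0)`,
`y' = zr (pz M z) r (Pi.single w0 1)`. `pz M z' = y'`: `∏ i, (z i * r ^ N w0 i) ^ M i w = pz M z w * r ^ (∑ i, N w0 i * M i w)`
and `Pre.nm`. So by `TDR.chrM` the left sides of YSplit (`β = Pi.single w0 1`) and ZSplit (`α = N w0`) agree, the first
summands by CstBar. Hypothesis of ZSplit: `v` in the star, adjacent to `u ∈ Z`, and `N w0 v ≠ 0` would give
`GDom v w0` (`TD.domN`: `N v l ≠ 0` gives `Dom l v`), so `u = w0` (impossible, `w0` is in the star) or `u ~ w0`; but then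
`pz M z w0 = 1` (NmG), against `‖pz M z w0‖ = 2 ^ nS w0`. SolPF for `Γ`, `y'` (`y' ≠ 1` on `QQ .. y' Gen`) and for `Λ`, `z'`
(`z' ≠ 1` on `QQ .. z' Gen`: NmL for `Gen`). -/
def DimB : Prop := ∀ (S T V : Type) [Fintype S] [Fintype T] [Fintype V] [DecidableEq V]
  (Γ : LGraph S) (Λ : LGraph T) (cΓ : S → V) (cΛ : T → V) (M N : V → V → ℤ) (x : V)
  (S0 S1 : Finset V) (ε : V → ℤ) (Gen Z : Finset V) (q : Option V → ℝ) (r : ℂˣ) (z : V → ℂˣ)
  (w0 : V), LD Γ Λ cΓ cΛ M N x S0 S1 ε Gen Z q r z w0 →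
  (∃ φ : S → ℂ, PF Γ cΓ (zr (pz M z) r (Pi.single w0 1))
    (QQ (bar Γ cΓ).graph x (zr (pz M z) r (Pi.single w0 1)) Gen) φ) →
  ∃ φ' : T → ℂ, PF Λ cΛ (zr z r (N w0)) (QQ (bar Γ cΓ).graph x (zr z r (N w0)) Gen) φ'

/-- **CaseTwoG.** Proof (from NmG). Write `y = pz M z`, `y' = zr y r (Pi.single w0 1)`. `y' v = y v` for `v ≠ w0`,
`y w0 ≠ 1` and `y' w0 ≠ 1` (norms `2 ^ nS w0`, `2 ^ nS w0 * q none`; `w0` is in the star), so `QQ .. y' Gen` and
`QQ .. y Gen` agree. Let `s, t` be an edge in `QQ` with `φ s ≠ φ t`. Claim: `cΓ s ≠ w0` and `cΓ t ≠ w0`. Suppose `cΓ s = w0` (the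
other case is symmetric). `‖y w0‖ ≠ 1`, so `φ s = ψ w0` by `h1`. If `cΓ t = w0` then `φ t = ψ w0` too: contradiction.
Otherwise `h2` gives `‖y w0‖ * ‖y (cΓ t)‖ = 1`. If `cΓ t` is outside of the star this contradicts NmG (fourth claim). If
`cΓ t` is in the star, its norm is not `1`, so `nS (cΓ t) ≠ 0` (NmG), `φ t = ψ (cΓ t)` by `h1` and `ψ (cΓ t) = ψ w0` by
hypothesis: contradiction. So `y' = y` at both ends and `ev`, `od` for `y'` are those for `y`. -/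
def CaseTwoG : Prop := ∀ (S T V : Type) [Fintype S] [Fintype T] [Fintype V] [DecidableEq V]
  (Γ : LGraph S) (Λ : LGraph T) (cΓ : S → V) (cΛ : T → V) (M N : V → V → ℤ) (x : V)
  (S0 S1 : Finset V) (ε : V → ℤ) (Gen Z : Finset V) (q : Option V → ℝ) (r : ℂˣ) (z : V → ℂˣ)
  (w0 : V), LD Γ Λ cΓ cΛ M N x S0 S1 ε Gen Z q r z w0 → ∀ (φ : S → ℂ) (ψ : V → ℂ),
  PF Γ cΓ (pz M z) (QQ (bar Γ cΓ).graph x (pz M z) Gen) φ →
  (∀ s, QQ (bar Γ cΓ).graph x (pz M z) Gen (cΓ s) → ‖(pz M z (cΓ s) : ℂ)‖ ≠ 1 →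
    φ s = ψ (cΓ s)) →
  (∀ s t, Γ.graph.Adj s t → QQ (bar Γ cΓ).graph x (pz M z) Gen (cΓ s) →
    QQ (bar Γ cΓ).graph x (pz M z) Gen (cΓ t) → cΓ s ≠ cΓ t → φ s ≠ φ t →
    ‖(pz M z (cΓ s) : ℂ)‖ * ‖(pz M z (cΓ t) : ℂ)‖ = 1) →
  (∀ c, St (bar Γ cΓ).graph x c → nS M S0 S1 ε c ≠ 0 → ψ c = ψ w0) →
  PF Γ cΓ (zr (pz M z) r (Pi.single w0 1))
    (QQ (bar Γ cΓ).graph x (zr (pz M z) r (Pi.single w0 1)) Gen) φ

/-- **LocOne.** Proof. `w0` is in the star (`up_adj`), every element of the star is `w0` or adjacent to `w0`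
(`up_star`). `c ~ w0` (`c ≠ w0` since `ψ c ≠ ψ w0`), so `n c = - n w0`. Let `GDom x w`, `n w ≠ 0`. If `ψ w ≠ ψ w0` then
`w ~ w0` and `n w = - n w0`. If `ψ w = ψ w0` then `ψ w ≠ ψ c`, `c = w` is excluded, so `c ~ w` (`up_star`) and
`n w = - n c = n w0`. So `n w0 ∣ n w` for all `w` with `GDom x w`, and `∑ cf w * n w = 1` gives `n w0 ∣ 1`: `|n w| ≤ 1`.
Let `w, w'` be adjacent, `k w w' = 1`, `n w * n w' < 0`. Then both are not zero and `n w = - n w'`, so one of them is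
`n w0` and the other is `- n w0 ≠ n w0`; by the cases above exactly one of `ψ w`, `ψ w'` is `ψ w0`, so `ψ w ≠ ψ w'`, and
the hypothesis gives `k w w' ≠ 1`: contradiction. -/
def LocOne : Prop := ∀ (V : Type) [Fintype V] (G : SimpleGraph V) (k : V → V → ℕ) (x : V),
  Clq G x → ∀ (n : V → ℤ) (ψ : V → ℂ), (∀ v w, St G x v → St G x w → G.Adj v w → n v ≠ 0 →
    n w ≠ 0 → ψ v ≠ ψ w → n v + n w = 0 ∧ k v w ≠ 1) →
  ∀ w0 c, GDom G x w0 → n w0 ≠ 0 → St G x c → n c ≠ 0 → ψ c ≠ ψ w0 →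
  ∀ cf : V → ℤ, (∀ w, ¬ GDom G x w → cf w = 0) → ∑ w, cf w * n w = 1 →
  (∀ w, GDom G x w → |n w| ≤ 1) ∧
    ∀ w w', GDom G x w → GDom G x w' → G.Adj w w' → k w w' = 1 → 0 ≤ n w * n w'

/-- **LocTwo.** Proof (from NmL). Write `z' = zr z r α`, `G` for the graph. Signs: for `s ∈ S0`, `s' ∈ S1` we have
`ε s' = - ε s` (`SD.deg`: the product `z s * z s'` is a root of unity, so `2 ^ ε s * 2 ^ ε s' = 1`; the exponent
`k' s s'` is `≥ 1` because `s ~ s'`, see below, `half_pos`), so `ε` is constant on `S0` and constant on `S1` (both not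
empty). Adjacency: elements of `S0` are twins of `x`, so every vertex of the star of `x` is equal or adjacent to
each `s ∈ S0` (`star_tw`). Vertices in `QQ`: `S0 ∪ S1` (norm `2 ^ (± 1) * q none ^ _ ≠ 1`), `Gen`, and `v` in the star
outside of `S0 ∪ S1` with `α v ≠ 0` (and only these: `α v = 0` gives `z' v = 1`). An edge of `G` inside `QQ` whose norm
product is not `1` has equal values of `ψ`. (a) Edges in `S1` (`LD.cl`) have norm product
`2 ^ (2 ε) * q none ^ _ ≠ 1`, edges `g, s'` and `g, g'` with `g ∈ Gen` have norm product `≠ 1` (NmL, fifth claim). By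
`LD.ind` for `P g = (ψ g = ψ s1)`: `ψ` has the constant value `c1 = ψ s1` on `S1 ∪ Gen`. (b) In the same way `ψ = c0` on
`S0` (a clique: `clq_adj2`), and for `v` in the star, `v ∉ S0 ∪ S1`, `α v ≠ 0`: the edge `v, s0` has norm product
`2 ^ (± 1) * _ ≠ 1`, so `ψ v = c0`. `ψ` is not constant on `QQ`, so `c0 ≠ c1`. (c) Let `s ∈ S0`, `s' ∈ S1`: they are adjacent
(`star_tw`, disjoint) and `ψ s ≠ ψ s'`, so `2 ^ (ε s + ε s') * q none ^ (α s + α s') = 1`, `α s' = - α s`. So `α = a` on `S0` and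
`α = -a` on `S1`. (d) Let `GDom x v`, `v ∉ S0 ∪ S1`, `α v ≠ 0`: `v` is in the star (`up_adj`), `ψ v = c0 ≠ c1 = ψ s1`, `v ~ s1`
(`up_star`), so the norm product is `1`, but it is `2 ^ (± 1) * _`: contradiction. So `α v = 0`. Take `κ = a * ε s0`. -/
def LocTwo : Prop := ∀ (S T V : Type) [Fintype S] [Fintype T] [Fintype V] [DecidableEq V]
  (Γ : LGraph S) (Λ : LGraph T) (cΓ : S → V) (cΛ : T → V) (M N : V → V → ℤ) (x : V)
  (S0 S1 : Finset V) (ε : V → ℤ) (Gen Z : Finset V) (q : Option V → ℝ) (r : ℂˣ) (z : V → ℂˣ)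
  (w0 : V), LD Γ Λ cΓ cΛ M N x S0 S1 ε Gen Z q r z w0 → ∀ (α : V → ℤ) (ψ : V → ℂ),
  (∀ v w, (bar Γ cΓ).graph.Adj v w → QQ (bar Γ cΓ).graph x (zr z r α) Gen v →
    QQ (bar Γ cΓ).graph x (zr z r α) Gen w → ψ v ≠ ψ w →
    ‖(zr z r α v : ℂ)‖ * ‖(zr z r α w : ℂ)‖ = 1) →
  (∃ v w, QQ (bar Γ cΓ).graph x (zr z r α) Gen v ∧ QQ (bar Γ cΓ).graph x (zr z r α) Gen w ∧
    ψ v ≠ ψ w) →
  ∃ κ : ℤ, ∀ v, GDom (bar Γ cΓ).graph x v → α v = κ * (if v ∈ S0 ∪ S1 then ε v else 0)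

/-- **LocThree.** Proof. Let `GDom x w`. `M i w ≠ 0` gives `GDom w i`, so `GDom x i` (`gdom_trans`). So
`(if w0 = w then 1 else 0) = ∑ i, N w0 i * M i w = ∑ i, κ * (if i ∈ S0 ∪ S1 then ε i else 0) * M i w = κ * nS M S0 S1 ε w`. For
`w = w0`: `κ * nS w0 = 1`, so `κ` and `nS w0` are `± 1`; for `w ≠ w0`: `nS w = 0`. -/
def LocThree : Prop := ∀ (V : Type) [Fintype V] [DecidableEq V] (G : SimpleGraph V) (x : V)
  (M N : V → V → ℤ), (∀ v w, ∑ i, N v i * M i w = if v = w then 1 else 0) →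
  (∀ v l, M l v ≠ 0 → GDom G v l) → ∀ (w0 : V) (S0 S1 : Finset V) (ε : V → ℤ) (κ : ℤ),
  GDom G x w0 → (∀ v, GDom G x v → N w0 v = κ * (if v ∈ S0 ∪ S1 then ε v else 0)) →
  (∀ w, GDom G x w → |nS M S0 S1 ε w| ≤ 1) ∧
    ∀ w w', GDom G x w → GDom G x w' → w ≠ w' → 0 ≤ nS M S0 S1 ε w * nS M S0 S1 ε w'

/-- **LocR.** The localisation lemma. Proof (from DimA, DimB, CaseTwoG, PFV, LocOne, LocTwo, LocThree, NmG, NmL and
`genEx`, `primeEx`, `upInv`). Write `G` for the graph of `bar Γ cΓ`. `genEx` for `x`, `S1`: `Gen`, `Z`. `primeEx` for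
`Option V`: `q`. `r` = a unit with norm `q none` (the real number `q none`). Replace `z` by
`z1 v = if v ∈ S0 ∪ S1 then z v else if St G x v then 1 else (the real number q (some v))`; `SD` still holds. `upInv`: `cf`
with `∑ cf w * nS w = 1`, so some `w0` with `GDom x w0` has `nS w0 ≠ 0`. This gives `LD .. z1 w0`. DimA: `φ`; PFV for `Γ`:
`ψ`. Write `n = nS M S0 S1 ε`. If there is `c` in the star with `n c ≠ 0`, `ψ c ≠ ψ w0`: LocOne with `k = half (bar Γ cΓ)`; its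
hypothesis: for adjacent `v, w` in the star with `n v, n w ≠ 0` the norms `2 ^ n v`, `2 ^ n w` are not `1`, so both are in
`QQ` and PFV (3) gives `2 ^ (n v + n w) = 1` and `k v w ≠ 1` (`u ≠ 1`, `u ^ k = 1`). Otherwise CaseTwoG, DimB: `φ'`; PFV for
`Λ`, `zr z1 r (N w0)` (graphs agree, `TDR.gr`): `ψ'`. All vertices in `QQ .. (zr z1 r (N w0)) Gen` have norm `≠ 1`: in the
star and in `S0 ∪ S1`: `2 ^ (± 1) * _`; in the star, not in `S0 ∪ S1`: `q none ^ α v` with `α v ≠ 0` (otherwise the value is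
`1`); in `Gen`: NmL. So `φ' t = ψ' (cΛ t)` on `QQ`, `ψ'` is not constant (`PF.nc`), and PFV (3) is the hypothesis of
LocTwo. LocTwo with `α = N w0` gives `κ`, LocThree finishes (adjacent vertices are different). -/
def LocR : Prop := ∀ (S T V : Type) [Fintype S] [Fintype T] [Fintype V] [DecidableEq V]
  (Γ : LGraph S) (Λ : LGraph T) (cΓ : S → V) (cΛ : T → V) (M N : V → V → ℤ),
  TDR Γ Λ cΓ cΛ M N → ∀ (x : V) (S0 S1 : Finset V) (ε : V → ℤ) (z : V → ℂˣ),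
  SD (bar Γ cΓ).graph (half (bar Λ cΛ)) x S0 S1 ε z →
  (∀ s ∈ S1, ∀ s' ∈ S1, s ≠ s' → (bar Γ cΓ).graph.Adj s s') →
  (∀ w, GDom (bar Γ cΓ).graph x w → |nS M S0 S1 ε w| ≤ 1) ∧
    ∀ w w', GDom (bar Γ cΓ).graph x w → GDom (bar Γ cΓ).graph x w' →
      (bar Γ cΓ).graph.Adj w w' → half (bar Γ cΓ) w w' = 1 →
      0 ≤ nS M S0 S1 ε w * nS M S0 S1 ε w'

/-! ## The end -/

/-- **StarStR.** Proof (from LocR). Copy Even/StarSt.lean with `Γ` replaced by `bar Γ cΓ`, `Λ` by `bar Λ cΛ` (both are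
even: `bar_even`), `LocS` by LocR (new condition: `S1` is a clique; it is `{j}`, `{i}` or `{j, l}` with `j ~ l`), and in
the part `s3` the StarQEx by `TDR.qM` (with `M' = N`, `S = T = cls i`; the graph of `bar Λ cΛ` is that of
`bar Γ cΓ`: `TD.adj`). -/
def StarStR : Prop := ∀ (S T V : Type) [Fintype S] [Fintype T] [Fintype V] [DecidableEq V]
  (Γ : LGraph S) (Λ : LGraph T) (cΓ : S → V) (cΛ : T → V) (M N : V → V → ℤ),
  TDR Γ Λ cΓ cΛ M N → GStar (bar Γ cΓ).graph (half (bar Γ cΓ)) (half (bar Λ cΛ)) M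

/-- **WgTD.** Proof: copy Even/Final.lean, Even/CoreEx.lean (statement proved by helper41, file WgTD.lean). -/
def WgTD : Prop := ∀ (V : Type) [Fintype V] [DecidableEq V] (Γ Λ : LGraph V) (M N : V → V → ℤ),
  IsEven Γ → IsEven Λ → TD Γ Λ M N → GStar Γ.graph (half Γ) (half Λ) M →
  GStar Γ.graph (half Λ) (half Γ) N → wgirth Γ = wgirth Λ

end WGBar
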