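import Pool.Agent.Lib.MP_107652_al.Bar.Base

/-!
# MP_107652_al, THEOREM R: the weighted girth of the component graph. Statements and proofs

Let `Γ` be a finite labelled graph such that no odd edge lies on a cycle. Then the weighted girth of `Γ`
equals the weighted girth of its component graph `bar Γ comp` (theorem `wgbar` at the end).

All modules import this file and have the names W0, W1, W2, W3, W4, W5, W6 (folder Bar, namespace WGBar,
`open WGirth WGOne`). The statements used are hypotheses.
-/

set_option autoImplicit false
set_option linter.unusedSectionVars false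

open Finset

namespace WGBar

open WGirth WGOne

/-- no odd edge lies on a cycle -/
def NoOdd {S : Type} (Γ : LGraph S) : Prop :=
  ∀ (v : S) (p : Γ.graph.Walk v v), p.IsCycle → ∀ e ∈ p.edges, Even (Γ.label e)

/-- the ends of an odd edge are in one component -/
theorem comp_eq_of_odd {S I : Type} {Γ : LGraph S} {comp : S → I} (hc : CMap Γ comp) {s t : S}
    (h : Γ.graph.Adj s t) (ho : ¬ Even (Γ.label s(s, t))) : comp s = comp t :=
  (hc.iff s t).2 (SimpleGraph.Adj.reachable (show (oddGraph Γ).Adj s t from ⟨h, ho⟩))

/-- **W0. Walks in a component, and closing a walk to a cycle.**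

PROOF. First part: `(hc.iff u v).1` gives `(oddGraph Γ).Reachable u v`, hence a walk `w` of
`oddGraph Γ` from `u` to `v`. By induction on `w`: there is a walk of `Γ` all of whose edges are odd
(`nil`: `nil`, there is no edge; `cons h p` with `h : (oddGraph Γ).Adj u x`: take
`SimpleGraph.Walk.cons h.1 q` where `q` is the walk for `p`; the edges are `s(u, x)`, which is odd by
`h.2`, and the edges of `q`; `SimpleGraph.Walk.edges_cons`, `List.mem_cons`).
(Alternatively use `SimpleGraph.Walk.mapLe` and `edges_mapLe` or `edges_map` with `oddGraph Γ ≤ Γ.graph`,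
`SimpleGraph.Walk.edges_subset_edgeSet`.)

Second part: let `r := w.bypass` (needs `DecidableEq S`, use `classical`). Then `r` is a path
(`SimpleGraph.Walk.bypass_isPath`) and `r.edges ⊆ w.edges`
(`SimpleGraph.Walk.edges_bypass_subset`). So `s(s, t) ∉ r.edges` and
`SimpleGraph.Walk.cons_isCycle_iff` shows that `cons h r` is a cycle. Now `NoOdd` for this cycle: all
edges of `cons h r` are even, in particular `s(s, t)` and all edges of `r`
(`SimpleGraph.Walk.edges_cons`, `List.mem_cons`). -/
def W0 : Prop :=
  (∀ (S I : Type) (Γ : LGraph S) (comp : S → I), CMap Γ comp → ∀ u v : S, comp u = comp v →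
    ∃ w : Γ.graph.Walk u v, ∀ e ∈ w.edges, ¬ Even (Γ.label e)) ∧
  ∀ (S : Type) (Γ : LGraph S), NoOdd Γ → ∀ (s t : S) (h : Γ.graph.Adj s t)
    (w : Γ.graph.Walk t s), s(s, t) ∉ w.edges → ∃ r : Γ.graph.Walk t s, r.IsPath ∧
      r.edges ⊆ w.edges ∧ (SimpleGraph.Walk.cons h r).IsCycle ∧ Even (Γ.label s(s, t)) ∧
      ∀ e ∈ r.edges, Even (Γ.label e)

/-- **W1. An even edge joins two different components, and it is the only edge between them.**

PROOF. First part. Let `s, t` be adjacent with even label and suppose `comp s = comp t`. By the first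
part of W0 there is a walk `w` of `Γ` from `t` to `s` with odd edges only. As the label of `s(s, t)` is
even, `s(s, t) ∉ w.edges`. The second part of W0 gives `r : Walk t s` with `r.edges ⊆ w.edges` and all
edges of `r` even. The edges of `r` are odd (they are edges of `w`) and even, so `r` has no edge:
`cases r`: if `r = nil` then `t = s`, contradicting `h.ne`; if `r = cons h' r'` then its first edge is odd
and even, a contradiction.

Second part. Let `s ~ t`, `s' ~ t'`, `comp s = comp s'`, `comp t = comp t'`, `comp s ≠ comp t`. Both edges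
are even (`by_contra` and `comp_eq_of_odd`). Suppose it is not true that `s = s'` and `t = t'`. Then
`s(s, t) ≠ s(s', t')`: by `Sym2.eq_iff` otherwise `s = s'` and `t = t'`, or `s = t'` and `t = s'`; in the
latter case `comp s = comp t' = comp t`, a contradiction. By the first part of W0 there are walks
`w1 : Walk t t'` and `w2 : Walk s' s` with odd edges only. Let
`w := w1.append (SimpleGraph.Walk.cons hst'.symm w2) : Walk t s` (`hst' : Adj s' t'`). Each edge of `w` is
odd or equal to `s(t', s')` (`SimpleGraph.Walk.edges_append`, `edges_cons`, `List.mem_append`,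
`List.mem_cons`). So `s(s, t) ∉ w.edges` (it is even and different from `s(s', t') = s(t', s')`,
`Sym2.eq_swap`). The second part of W0 gives a path `r : Walk t s` with `r.edges ⊆ w.edges` whose edges
are all even; so all edges of `r` are equal to `s(t', s')`. `cases r`: if `r = nil` then `t = s`,
contradicting `hst.ne`. If `r = cons h1 r1` with `h1 : Adj t x`, then `s(t, x) = s(t', s')` and `cases r1`:
if `r1 = nil` then `x = s` and `s(t, s) = s(t', s')`, so `s(s, t) = s(s', t')`, a contradiction. If
`r1 = cons h2 r2`, then its first edge is also equal to `s(t', s')`, so the first two edges of `r` are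
equal, which contradicts that the edges of a path (trail) have no duplicates
(`SimpleGraph.Walk.IsPath.isTrail`, `IsTrail.edges_nodup`, or `SimpleGraph.Walk.cons_isPath_iff` and
`isTrail_def`; `List.nodup_cons`). -/
def W1 : Prop :=
  (∀ (S I : Type) (Γ : LGraph S) (comp : S → I), CMap Γ comp → NoOdd Γ → ∀ s t : S,
    Γ.graph.Adj s t → Even (Γ.label s(s, t)) → comp s ≠ comp t) ∧
  ∀ (S I : Type) (Γ : LGraph S) (comp : S → I), CMap Γ comp → NoOdd Γ → ∀ s t s' t' : S,
    Γ.graph.Adj s t → Γ.graph.Adj s' t' → comp s = comp s' → comp t = comp t' →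
    comp s ≠ comp t → s = s' ∧ t = t'

/-- **W2. Labels of the component graph, and the map of the even edges is injective.**

PROOF. First part. Both sides: let `n := Γ.label s(s, t) / 2`. By `bar_half_dvd Γ comp hst` the number
`half (bar Γ comp) (comp s) (comp t)` divides `n`. By `dvd_bar_half Γ comp (comp s) (comp t) n` the number
`n` divides `half (bar Γ comp) (comp s) (comp t)`: if `comp s' = comp s`, `comp t' = comp t` and `s' ~ t'`,
then `s' = s` and `t' = t` by the second part of W1, so `n ∣ Γ.label s(s', t') / 2 = n`. So the two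
numbers are equal (`Nat.dvd_antisymm`). Now `Γ.label s(s, t)` is even (otherwise `comp s = comp t` by
`comp_eq_of_odd`), so it is `2 * n`; and `(bar Γ comp).label s(comp s, comp t) = 2 * half ...` by
`(bar_even Γ comp).label_eq` (with the adjacency `⟨hne, s, t, rfl, rfl, hst⟩`).

Second part. Let `e, e'` be edges of `Γ` with even labels and `e.map comp = e'.map comp`. Write
`e = s(s, t)`, `e' = s(s', t')` (`Sym2.ind`, `SimpleGraph.mem_edgeSet`). By the first part of W1,
`comp s ≠ comp t`. By `Sym2.map_mk` (or `Sym2.map_pair_eq`) and `Sym2.eq_iff` either `comp s = comp s'`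
and `comp t = comp t'`, then the second part of W1 gives `s = s'`, `t = t'`; or `comp s = comp t'` and
`comp t = comp s'`, then the second part of W1 for `s' , t'` exchanged (`hst'.symm`) gives `s = t'`,
`t = s'`, so `s(s, t) = s(t', s') = s(s', t')` (`Sym2.eq_swap`). -/
def W2 : Prop :=
  (∀ (S I : Type) [Fintype S] (Γ : LGraph S) (comp : S → I), CMap Γ comp → NoOdd Γ → ∀ s t : S,
    Γ.graph.Adj s t → comp s ≠ comp t →
    (bar Γ comp).label s(comp s, comp t) = Γ.label s(s, t)) ∧
  ∀ (S I : Type) (Γ : LGraph S) (comp : S → I), CMap Γ comp → NoOdd Γ → ∀ e e' : Sym2 S,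
    e ∈ Γ.graph.edgeSet → e' ∈ Γ.graph.edgeSet → Even (Γ.label e) → Even (Γ.label e') →
    e.map comp = e'.map comp → e = e'

/-- **W3. Lifting of walks, and images of even walks.**

PROOF. First part, by induction on `p` for all `u, v`. `nil`: then `comp u = comp v` and the first part
of W0 gives a walk with odd edges only. `cons h q` with `h : (bar Γ comp).graph.Adj C C'` and
`q : Walk C' D`: by `bar_adj` there are `s, t` with `comp s = C`, `comp t = C'` and `s ~ t`. The first part
of W0 gives a walk `w1 : Walk u s` with odd edges only; the induction hypothesis gives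
`w2 : Walk t v` for `q`. Take `w1.append (SimpleGraph.Walk.cons hst w2)`: its edges are the odd edges of
`w1`, the edge `s(s, t)` with image `s(comp s, comp t) = s(C, C')`, which is the first edge of `cons h q`
(`Sym2.map_mk`), and the edges of `w2` (`SimpleGraph.Walk.edges_append`, `edges_cons`).

Second part, by induction on `p`. `nil`: `nil`. `cons h q` with `h : Γ.graph.Adj u x`: the label of
`s(u, x)` is even, so `comp u ≠ comp x` by the first part of W1, so `comp u` and `comp x` are adjacent in
`bar Γ comp` (`⟨hne, u, x, rfl, rfl, h⟩`); take `cons` of this adjacency and the walk for `q`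
(`SimpleGraph.Walk.edges_cons`, `List.map_cons`, `Sym2.map_mk`). -/
def W3 : Prop :=
  (∀ (S I : Type) [Fintype S] (Γ : LGraph S) (comp : S → I), CMap Γ comp → ∀ (C D : I)
    (p : (bar Γ comp).graph.Walk C D) (u v : S), comp u = C → comp v = D →
    ∃ w : Γ.graph.Walk u v, ∀ e ∈ w.edges, ¬ Even (Γ.label e) ∨ e.map comp ∈ p.edges) ∧
  ∀ (S I : Type) [Fintype S] (Γ : LGraph S) (comp : S → I), CMap Γ comp → NoOdd Γ → ∀ (u v : S)
    (p : Γ.graph.Walk u v), (∀ e ∈ p.edges, Even (Γ.label e)) →
    ∃ q : (bar Γ comp).graph.Walk (comp u) (comp v), q.edges = p.edges.map (Sym2.map comp)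

/-- **W4. Comparison of lists of edges.** (Pure list combinatorics.)

PROOF. `l.map g` has no duplicates (`List.Nodup.map_on` or `List.inj_on_of_nodup_map`:
`List.nodup_map_iff_inj_on`), and it is a subset of `m`. So there is a sublist up to permutation:
`List.subperm_of_subset : l.Nodup → l ⊆ m → l <+~ m` (for `l.map g`). Hence
`(l.map g).length ≤ m.length` (`List.Subperm.length_le`) and
`(l.map g).countP b ≤ m.countP b` (`List.Subperm.countP_le`). Finally `List.length_map`,
`List.countP_map : (l.map g).countP b = l.countP (b ∘ g)` and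
`l.countP a = l.countP (b ∘ g)` by `List.countP_congr` and the hypothesis `a e = b (g e)`. -/
def W4 : Prop :=
  ∀ (α β : Type) (l : List α) (m : List β) (g : α → β) (a : α → Bool) (b : β → Bool),
    l.Nodup → (∀ x ∈ l, ∀ y ∈ l, g x = g y → x = y) → (∀ x ∈ l, g x ∈ m) →
    (∀ x ∈ l, a x = b (g x)) → l.length + l.countP a ≤ m.length + m.countP b

/-- **W5. A cycle of the component graph gives a cycle of `Γ` of at most the same weight.**

PROOF. Let `c` be a cycle at `C`. `cases c`: it is not `nil` (`SimpleGraph.Walk.IsCycle.not_nil` or
`simp at hc`), so `c = cons h q` with `h : (bar Γ comp).graph.Adj C D` and `q : Walk D C`, and by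
`SimpleGraph.Walk.cons_isCycle_iff` `q` is a path and `s(C, D) ∉ q.edges`. By `bar_adj` there are `s, t`
with `comp s = C`, `comp t = D`, `s ~ t` and `C ≠ D`; `subst`. The first part of W3 (for `q`, `t`, `s`)
gives `w : Walk t s` such that each edge of `w` is odd or has its image in `q.edges`. The label of
`s(s, t)` is even (otherwise `comp s = comp t` by `comp_eq_of_odd`), and its image `s(comp s, comp t)` is not
in `q.edges`; so `s(s, t) ∉ w.edges`. The second part of W0 gives `r : Walk t s`, a path, with
`r.edges ⊆ w.edges`, `(cons hst r).IsCycle` and all edges of `r` even; hence the image of every edge of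
`r` is in `q.edges`. This is the cycle. Its weight: use W4 with `l := (cons hst r).edges`,
`m := (cons h q).edges`, `g := Sym2.map comp`, `a e := decide (3 ≤ Γ.label e)`,
`b e := decide (3 ≤ (bar Γ comp).label e)` (and `SimpleGraph.Walk.length_edges` for both walks, after
`unfold weight`):
no duplicates: `SimpleGraph.Walk.IsCycle.isTrail`-type lemma (`hcyc.isCircuit.isTrail.edges_nodup` or
`hcyc.edges_nodup`); injective on `l`: the second part of W2 (all edges are even and
`SimpleGraph.Walk.edges_subset_edgeSet`); images in `m`: `s(s, t)` goes to `s(C, D)` (the first edge of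
`cons h q`) and the edges of `r` to edges of `q`; `a e = b (g e)`: by the first part of W2, for an edge
`e = s(x, y)` of `l`, which is even, so `comp x ≠ comp y` by the first part of W1,
`(bar Γ comp).label s(comp x, comp y) = Γ.label s(x, y)`. -/
def W5 : Prop :=
  ∀ (S I : Type) [Fintype S] (Γ : LGraph S) (comp : S → I), CMap Γ comp → NoOdd Γ →
    ∀ (C : I) (c : (bar Γ comp).graph.Walk C C), c.IsCycle →
    ∃ (v : S) (d : Γ.graph.Walk v v), d.IsCycle ∧ weight Γ d ≤ weight (bar Γ comp) c

/-- **W6. A cycle of `Γ` gives a cycle of the component graph of at most the same weight.**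

PROOF. Let `d` be a cycle of `Γ` at `v`. By `NoOdd` all its edges are even. The second part of W3 gives
`q : Walk (comp v) (comp v)` in `bar Γ comp` with `q.edges = d.edges.map (Sym2.map comp)`. The edges of
`d` have no duplicates and the map is injective on them (second part of W2,
`SimpleGraph.Walk.edges_subset_edgeSet`), so `q.edges` has no duplicates
(`List.Nodup.map_on`), i.e. `q` is a trail (`SimpleGraph.Walk.isTrail_def`). And `q ≠ nil`: otherwise
`d.edges = []`, so `d.length = 0` (`SimpleGraph.Walk.length_edges`), but a cycle has length at least `3`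
(`SimpleGraph.Walk.IsCycle.three_le_length`). With `classical`, `c := q.cycleBypass` is a cycle
(`SimpleGraph.Walk.IsTrail.isCycle_cycleBypass`, arguments `(hw : w ≠ .nil) (hw' : w.IsTrail)`), and
its edges are a sublist of the edges of `q`
(`SimpleGraph.Walk.edges_cycleBypass_sublist_edges`). So the length and the number of edges with label
`≥ 3` of `c` are at most those of `q` (`List.Sublist.length_le`, `List.Sublist.countP_le`,
`SimpleGraph.Walk.length_edges`, `unfold weight`), and those of `q` are equal to those of `d`:
`List.length_map`, `List.countP_map`, `List.countP_congr`, because for an edge `e = s(x, y)` of `d`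
(even, so `comp x ≠ comp y` by the first part of W1) the first part of W2 gives
`(bar Γ comp).label s(comp x, comp y) = Γ.label s(x, y)`. -/
def W6 : Prop :=
  ∀ (S I : Type) [Fintype S] (Γ : LGraph S) (comp : S → I), CMap Γ comp → NoOdd Γ →
    ∀ (v : S) (d : Γ.graph.Walk v v), d.IsCycle →
    ∃ (C : I) (c : (bar Γ comp).graph.Walk C C), c.IsCycle ∧ weight (bar Γ comp) c ≤ weight Γ d

/-- the weighted girth of the component graph -/
theorem wgbar_of (h5 : W5) (h6 : W6) {S I : Type} [Fintype S] (Γ : LGraph S) (comp : S → I)
    (hc : CMap Γ comp) (ho : NoOdd Γ) : wgirth Γ = wgirth (bar Γ comp) := by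
  refine le_antisymm ?_ ?_
  · unfold wgirth
    refine le_iInf fun C => le_iInf fun c => le_iInf fun hcc => ?_
    obtain ⟨v, d, hd, hw⟩ := h5 S I Γ comp hc ho C c hcc
    refine (iInf_le_of_le v (iInf_le_of_le d (iInf_le_of_le hd le_rfl))).trans ?_
    exact_mod_cast hw
  · unfold wgirth
    refine le_iInf fun v => le_iInf fun d => le_iInf fun hd => ?_
    obtain ⟨C, c, hcc, hw⟩ := h6 S I Γ comp hc ho v d hd
    refine (iInf_le_of_le C (iInf_le_of_le c (iInf_le_of_le hcc le_rfl))).trans ?_
    exact_mod_cast hw

end WGBar
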