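import Pool.Agent.Lib.MP_107652_al.Bar.Spec
import Pool.Agent.Lib.MP_107652_al.Twin.StarEx
import Pool.Agent.Lib.MP_107652_al.Twin.GoodEx
import Pool.Agent.Lib.MP_107652_al.Twin.RelL
import Pool.Agent.Lib.MP_107652_al.Twin.RepP

/-!
# MP_107652_al, THEOREM R: star representations in characteristic `p`
-/

set_option autoImplicit false

open Finset

namespace WGBar

open WGirth WGTwin WGOne WGEven

open WGTwin.StarExAux in
/-- **StarPR**. -/
theorem starPR : StarCore → StarPR := by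
  intro hcore S V W _ _ _ _ _ Γ Λ c hΓ hc x hx ψ N hN
  intro p hp a b hab hpab A haA hbA hA m Sf T1 T2 M' hAS hbS hsum hadj hT1 hT2
  by_contra hcon
  obtain ⟨R, iR, iD, X, t, hR⟩ := goodEx p hp
  obtain ⟨f, hfa, hf1, g₀, h₀, hne⟩ := repP p R X t hR V Γ hΓ a b hab hpab A haA hbA hA m
  obtain ⟨d, hd⟩ : ∃ d : V → ℤ, d = fun v =>
      if v = a then (1 : ℤ) else if v = b then -1 else if v ∈ A then m v else 0 := ⟨_, rfl⟩
  have hfa' : ∀ v, (f (gen Γ v)).a = t ^ d v := fun v => by rw [hd]; exact hfa v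
  have hnn : ∀ w, ∑ v, d v * N v w = nn N a b A m w := by
    intro w
    rw [hd]
    exact sum_nn N a b A hab.ne hbA m w
  obtain ⟨F, hFa, hFc, w₁, hw₁, w₂, hw₂, hF12⟩ := hcore S V W Γ Λ c hc x hx ψ N hN p R X t hR f d
    hfa' ⟨g₀, h₀, hne⟩ Sf (T1 ∪ T2) M'
    (fun v hv => hf1 v (fun h => hv (h ▸ hbS)) (fun h => hv (hAS h))) hsum
  have hFa' : ∀ w, (F w).a = t ^ nn N a b A m w := fun w => by rw [hFa, hnn]
  -- elements of `T1` and `T2` commute
  have h12 : ∀ v ∈ T1, ∀ u ∈ T2, F v * F u = F u * F v := by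
    intro v hv u hu
    rcases hFc v u (hadj v hv u hu) with h | ⟨h, h'⟩
    · exact h
    · rw [hnn, hnn] at h
      exact absurd ⟨v, hv, u, hu, h, h'⟩ hcon
  obtain ⟨v0, hv0, hv0n⟩ := hT1
  obtain ⟨u0, hu0, hu0n⟩ := hT2
  have hv0a : (F v0).a ≠ 1 := fun h => hv0n (hR.inf _ ((hFa' v0).symm.trans h))
  have hu0a : (F u0).a ≠ 1 := fun h => hu0n (hR.inf _ ((hFa' u0).symm.trans h))
  have h22 : ∀ u ∈ T2, ∀ u' ∈ T2, F u * F u' = F u' * F u := fun u hu u' hu' =>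
    cTL R _ _ _ hv0a (h12 v0 hv0 u hu) (h12 v0 hv0 u' hu')
  have h11 : ∀ v ∈ T1, ∀ v' ∈ T1, F v * F v' = F v' * F v := fun v hv v' hv' =>
    cTL R _ _ _ hu0a (h12 v hv u0 hu0).symm (h12 v' hv' u0 hu0).symm
  apply hF12
  rcases Finset.mem_union.1 hw₁ with hw1 | hw2
  · rcases Finset.mem_union.1 hw₂ with hw1' | hw2'
    · exact h11 _ hw1 _ hw1'
    · exact h12 _ hw1 _ hw2'
  · rcases Finset.mem_union.1 hw₂ with hw1' | hw2'
    · exact (h12 _ hw1' _ hw2).symm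
    · exact h22 _ hw2 _ hw2'

end WGBar
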