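import Pool.Agent.Lib.MP_107652_al.Bar.Spec
import Pool.Agent.Lib.MP_107652_al.Even.CoreEx
import Pool.Agent.Lib.MP_107652_al.Even.CycLow
import Pool.Agent.Lib.MP_107652_al.Even.CycUp
import Pool.Agent.Lib.MP_107652_al.Even.EFour
import Pool.Agent.Lib.MP_107652_al.Even.EOne
import Pool.Agent.Lib.MP_107652_al.Even.EThree
import Pool.Agent.Lib.MP_107652_al.Even.ETwo
import Pool.Agent.Lib.MP_107652_al.Even.Final
import Pool.Agent.Lib.MP_107652_al.Even.FiveA
import Pool.Agent.Lib.MP_107652_al.Even.FiveB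
import Pool.Agent.Lib.MP_107652_al.Even.FiveL
import Pool.Agent.Lib.MP_107652_al.Even.FiveThree
import Pool.Agent.Lib.MP_107652_al.Even.FiveTwo
import Pool.Agent.Lib.MP_107652_al.Even.Four
import Pool.Agent.Lib.MP_107652_al.Even.FourD
import Pool.Agent.Lib.MP_107652_al.Even.FourDOne
import Pool.Agent.Lib.MP_107652_al.Even.FourDTwo
import Pool.Agent.Lib.MP_107652_al.Even.FourDTwoA
import Pool.Agent.Lib.MP_107652_al.Even.FourIOne
import Pool.Agent.Lib.MP_107652_al.Even.FourIThree
import Pool.Agent.Lib.MP_107652_al.Even.FourIThreeA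
import Pool.Agent.Lib.MP_107652_al.Even.FourITwo
import Pool.Agent.Lib.MP_107652_al.Even.FourITwoA
import Pool.Agent.Lib.MP_107652_al.Even.FourITwoB
import Pool.Agent.Lib.MP_107652_al.Even.GirthC
import Pool.Agent.Lib.MP_107652_al.Even.Minor
import Pool.Agent.Lib.MP_107652_al.Even.PairK
import Pool.Agent.Lib.MP_107652_al.Even.PiExG
import Pool.Agent.Lib.MP_107652_al.Even.SixA
import Pool.Agent.Lib.MP_107652_al.Even.SixB
import Pool.Agent.Lib.MP_107652_al.Even.StarBG
import Pool.Agent.Lib.MP_107652_al.Even.TK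
import Pool.Agent.Lib.MP_107652_al.Even.UnitColG

/-!
# MP_107652_al, THEOREM R: the weighted girth from the matrices and the star conditions
-/

set_option autoImplicit false

namespace WGBar

open WGirth WGTwin WGEven

open WGEven.CoreExAux in
/-- The abstract situation `Core` for two even labelled graphs with the star conditions (as
Even/CoreEx.lean). -/
private theorem WgTD_core (h3 : PiExG) (V : Type) [Fintype V] [DecidableEq V] (Γ Λ : LGraph V)
    (M N : V → V → ℤ) (hΓ : IsEven Γ) (hΛ : IsEven Λ) (htd : TD Γ Λ M N)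
    (sM : GStar Γ.graph (half Γ) (half Λ) M) (sN : GStar Γ.graph (half Λ) (half Γ) N) :
    ∃ π : Equiv.Perm V, Core Γ.graph (half Γ) (half Λ) M N π := by
  have hgr : Λ.graph = Γ.graph := by
    ext a b
    exact (htd.adj a b).symm
  obtain ⟨π, hπ, hH, hU⟩ := h3 V Γ Λ M N hΓ hΛ htd
  have hπ' : ∀ a, GTw Γ.graph (π a) a := hπ
  have hclq : ∀ a, ¬ Clq Γ.graph a → ¬ Clq Γ.graph (π a) := fun a ha hc =>
    ha (clq_tw hc (gtw_symm (hπ' a)))
  have hΛclq : ∀ a, ¬ Clq Γ.graph a → ¬ Clq Λ.graph a := by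
    intro a ha
    rw [hgr]
    exact ha
  have hHvy : ∀ a, ¬ Clq Γ.graph a →
      (Hvy Γ.graph (half Γ) a ↔ Hvy Γ.graph (half Λ) (π a)) := by
    intro a ha
    have e1 := heavy_iff ha
    have e2 : Heavy Λ (π a) ↔ Hvy Λ.graph (half Λ) (π a) := heavy_iff (hΛclq _ (hclq a ha))
    rw [hgr] at e2
    rw [← e1, ← e2]
    exact hH a
  refine ⟨π, ?_⟩
  exact
  { symk := fun v w => half_comm Γ v w
    symk' := fun v w => half_comm Λ v w
    posk := fun v w hvw => hΓ.half_pos hvw
    posk' := fun v w hvw => hΛ.half_pos ((htd.adj v w).mp hvw)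
    domM := fun v l hl => htd.domM v l hl
    domN := fun v l hl => htd.domN l v hl
    heisM := fun a b hab i j hij => htd.pre.heisM a b hab i j ((htd.adj i j).mp hij)
    heisN := fun a b hab i j hij => htd.pre.heisN a b ((htd.adj a b).mp hab) i j hij
    clsNM := fun a x y hx hy => (classInv domTr V Γ Λ M N htd a x y hx hy).1
    clsMN := fun a x y hx hy => (classInv domTr V Γ Λ M N htd a x y hx hy).2
    starM := sM
    starN := sN
    mat :=
    { tw := hπ'
      hvy := hHvy
      unit := fun a ha hh => hU a ((heavy_iff ha).mpr hh)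
      lab := by
        intro a b ha hb hab
        have htw : ¬ GTw Γ.graph a b := fun ht => ha ⟨b, hab, ht⟩
        have hadj : Γ.graph.Adj (π a) (π b) := adj_tw hab htw (hπ' a) (hπ' b)
        have hadjL : Λ.graph.Adj (π a) (π b) := (htd.adj _ _).mp hadj
        have hpos1 := hΓ.half_pos hab
        have hpos2 := hΛ.half_pos hadjL
        by_cases hheavy : Heavy Γ a ∧ Heavy Γ b
        · obtain ⟨hha, hhb⟩ := hheavy
          have ua := hU a hha
          have ub := hU b hhb
          have z1 : M (π b) a * M (π a) b = 0 := by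
            by_contra hz
            have e1 : GDom Γ.graph a (π b) := htd.domM a _ (left_ne_zero_of_mul hz)
            have e2 : GDom Γ.graph b (π a) := htd.domM b _ (right_ne_zero_of_mul hz)
            exact htw ⟨gdom_trans e1 (hπ' b).1, gdom_trans e2 (hπ' a).1⟩
          have z2 : N b (π a) * N a (π b) = 0 := by
            by_contra hz
            have e1 : GDom Γ.graph (π a) b := htd.domN b _ (left_ne_zero_of_mul hz)
            have e2 : GDom Γ.graph (π b) a := htd.domN a _ (right_ne_zero_of_mul hz)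
            exact htw ⟨gdom_trans (hπ' a).2 e1, gdom_trans (hπ' b).2 e2⟩
          have d1 := htd.pre.heisM a b hab (π a) (π b) hadjL
          rw [z1, sub_zero] at d1
          have d2 := htd.pre.heisN (π a) (π b) hadjL a b hab
          rw [z2, sub_zero] at d2
          have e1 : (M (π a) a * M (π b) b) * (N a (π a) * N b (π b)) = 1 := by
            calc (M (π a) a * M (π b) b) * (N a (π a) * N b (π b)) =
                (M (π a) a * N a (π a)) * (M (π b) b * N b (π b)) := by ring
              _ = 1 := by rw [ua, ub]; norm_num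
          have e2 : (N a (π a) * N b (π b)) * (M (π a) a * M (π b) b) = 1 := by
            rw [mul_comm]; exact e1
          exact Nat.dvd_antisymm (Int.natCast_dvd_natCast.mp (dvd_unit d1 e1))
            (Int.natCast_dvd_natCast.mp (dvd_unit d2 e2))
        · have l1 : ¬ 2 ≤ half Γ a b := fun hl => hheavy
            ⟨(heavy_iff ha).mpr ⟨b, hab, hl⟩,
              (heavy_iff hb).mpr ⟨a, hab.symm, by rw [half_comm]; exact hl⟩⟩
          have l2 : ¬ 2 ≤ half Λ (π a) (π b) := fun hl => hheavy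
            ⟨(heavy_iff ha).mpr ((hHvy a ha).mpr ⟨π b, hadj, hl⟩),
              (heavy_iff hb).mpr ((hHvy b hb).mpr
                ⟨π a, hadj.symm, by rw [half_comm]; exact hl⟩)⟩
          omega } }

/-- The rigid case (as Twin/Rigid.lean). -/
private theorem WgTD_rigid (V : Type) [Fintype V] [DecidableEq V] (Γ Λ : LGraph V)
    (M N : V → V → ℤ) (hΓ : IsEven Γ) (hΛ : IsEven Λ) (hTD : TD Γ Λ M N)
    (hT : TwinsIsolated Γ) : wgirth Γ = wgirth Λ := by
  have hCI : ClassInv := classInv domTr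
  obtain ⟨π, hπ1, hπ2, hπ3⟩ := piEx (unitCol (unitCore hCI domTr) hCI domTr) (unitSym hCI)
    tDsymm domTr V Γ Λ M N hΓ hΛ hTD hT
  have hL := labelEq hCI domTr V Γ Λ M N hΓ hΛ hTD hT π hπ1 hπ2 hπ3
  have hadj : ∀ a b, Γ.graph.Adj a b → Γ.graph.Adj (π a) (π b) := fun a b hab =>
    (hTD.adj _ _).mpr (hL a b hab).1
  have hconv : ∀ a b, Γ.graph.Adj (π a) (π b) → Γ.graph.Adj a b := by
    classical
    let s : Finset (V × V) := Finset.univ.filter (fun q => Γ.graph.Adj q.1 q.2)
    let f : V × V → V × V := fun q => (π q.1, π q.2)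
    have hf : ∀ q ∈ s, f q ∈ s := by
      intro q hq
      simp only [s, f, Finset.mem_filter, Finset.mem_univ, true_and] at hq ⊢
      exact hadj _ _ hq
    have hinj : ∀ q ∈ s, ∀ q' ∈ s, f q = f q' → q = q' := by
      intro q _ q' _ h
      simp only [f, Prod.mk.injEq, EmbeddingLike.apply_eq_iff_eq] at h
      exact Prod.ext h.1 h.2
    have hsurj := Finset.surj_on_of_inj_on_of_card_le (s := s) (t := s) (fun q _ => f q)
      (fun q hq => hf q hq) (fun q q' hq hq' h => hinj q hq q' hq' h) le_rfl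
    intro a b hab
    have hm : (π a, π b) ∈ s := by
      simp only [s, Finset.mem_filter, Finset.mem_univ, true_and]
      exact hab
    obtain ⟨q, hq, hq2⟩ := hsurj _ hm
    simp only [f, Prod.mk.injEq, EmbeddingLike.apply_eq_iff_eq] at hq2
    simp only [s, Finset.mem_filter, Finset.mem_univ, true_and] at hq
    rw [hq2.1, hq2.2]
    exact hq
  refine wgIso V V Γ Λ π ?_ ?_
  · intro a b
    exact ⟨fun hab => (hL a b hab).1, fun hab => hconv a b ((hTD.adj _ _).mpr hab)⟩
  · intro a b hab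
    obtain ⟨h5, h6⟩ := hL a b hab
    rw [hΛ.label_eq h5, hΓ.label_eq hab, h6]

open WGEven.FinalAux in
theorem wgTD : WgTD := by
  intro V _ _ Γ Λ M N hΓ hΛ hTD sM sN
  have sB : StarBG := starBG
  have e1 : EOne := eOne
  have e2 : ETwo := eTwo sB
  have e3 : EThree := eThree sB e2
  have e4 : EFour := eFour sB minor
  have hD2 : FourDTwo := fourDTwo (fourDTwoA e1 e2) e2 sB rowDvd
  have hD : FourD := fourD e1 (fourDOne e1 e2) hD2
  have hI2 : FourITwo := fourITwo (fourITwoB (fourITwoA e4 e2) sB minor e3) sB rowDvd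
  have hI3 : FourIThree := fourIThree (fourIThreeA e4 e2 e3 minor sB) rowDvd sB
  have hTK : TK := tK pairK
  have h4 : Four := four hD (fourIOne e1 e4) hI2 hI3 hTK
  have hL : FiveL := fiveL e1 e2 e3
  have hM : FiveM := fiveM hL e2
  have h5 : FiveA := fiveA (fiveOne hM) (fiveTwo hL e2 minor rowDvd) (fiveThree hM sB minor) hTK
  have h9 : GirthC := girthC cycUp cycLow
  by_cases htri : ∃ a b c, Γ.graph.Adj a b ∧ Γ.graph.Adj b c ∧ Γ.graph.Adj a c
  · obtain ⟨π, hc⟩ := WgTD_core (piExG unitColG) V Γ Λ M N hΓ hΛ hTD sM sN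
    have hg : Λ.graph = Γ.graph := by
      ext a b
      exact (hTD.adj a b).symm
    obtain ⟨x3, x6, x4, x5, x66⟩ := h9 V Γ hΓ
    obtain ⟨y3, y6, y4, y5, y66⟩ := h9 V Λ hΛ
    rw [hg] at y6 y4 y5 y66
    obtain ⟨t4, t5, t6⟩ := transfer h4 h5 (fiveB e1) (sixA e1 e2 e4) (sixB e1) (sixC e1) hc
    obtain ⟨s4, s5, s6⟩ := transfer h4 h5 (fiveB e1) (sixA e1 e2 e4) (sixB e1) (sixC e1) hc.swap
    refine eq_of_bounds x3 (x6 htri) y3 (y6 htri) ?_ ?_ ?_
    · rw [x4, y4]
      exact ⟨s4, t4⟩
    · rw [x5, y5]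
      exact ⟨s5, t5⟩
    · rw [x66, y66]
      exact ⟨s6, t6⟩
  · exact WgTD_rigid V Γ Λ M N hΓ hΛ hTD (isolated_of_no_triangle Γ htri)

end WGBar
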