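import Pool.Agent.Lib.MP_107652_al.Bar.Spec

/-!
# MP_107652_al, THEOREM R: ZSplit, the application of DimSplit on the side of Λ
-/

set_option autoImplicit false

open Finset

namespace WGBar

open WGirth WGTwin WGOne WGEven

theorem zSplit : DimSplit → NmL → ZSplit := by
  intro hD hN S T V _ _ _ _ Γ Λ cΓ cΛ M N x S0 S1 ε Gen Z q r z w0 h α hα
  obtain ⟨n1, n2, -, n4, n5, n6⟩ :=
    hN S T V Γ Λ cΓ cΛ M N x S0 S1 ε Gen Z q r z w0 h α
  obtain ⟨s0, hs0⟩ := h.sd.ne0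
  have hgr := h.tdr.gr
  have hout : ∀ v ∈ Z, ¬ St (bar Γ cΓ).graph x v := fun v hv =>
    (h.mem v).mp (Finset.mem_union_right _ hv)
  have key := hD T V Λ cΛ h.tdr.cmΛ (zr z r α) x s0 Gen Z h.dj
  rw [hgr] at key
  refine key h.mem (fun v hv g hg => (h.sep v hv).2 g hg) ?_ ?_ ?_ (fun v hv => n4 v (hout v hv))
    (fun v hv u _ hvu => n5 v u (hout v hv) hvu)
  · intro v hv
    rcases star_tw h.sd.clq (h.sd.s0 s0 hs0) hv with h1 | h1
    · exact Or.inl h1
    · exact Or.inr h1.symm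
  · intro h1
    rw [n1 s0 (Finset.mem_union_left _ hs0)] at h1
    have h2 := (n6 _ _ h1).1
    rcases h.sd.eps s0 (Finset.mem_union_left _ hs0) with h3 | h3 <;> omega
  · intro v hv hu
    obtain ⟨u, huZ, hvu⟩ := hu
    have hv0 : v ∉ S0 := by
      intro h1
      apply hout u huZ
      rcases (h.sd.s0 v h1).1 u hvu with h2 | h2
      · exact Or.inl h2
      · exact Or.inr h2.symm
    have hv1 : v ∉ S1 := fun h1 => (h.sep u huZ).1 v h1 hvu.symm
    have hv2 : v ∉ S0 ∪ S1 := by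
      rw [Finset.mem_union]
      exact fun h1 => h1.elim hv0 hv1
    exact (n2 v hv hv2).2 (hα v hv ⟨u, huZ, hvu⟩)

end WGBar
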